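import Pool.Agent.Work.MP_11a3f4_lc.Main

-- merged part: Pool.Agent.Work.MP_11a3f4_lc.H90Base
section
/-! Abstract setting for the combinatorial core: tuples of vertices, local isomorphisms between
them, a coarser back-and-forth relation, and the ideal of small sets. -/

namespace Pool.Agent.Work.MP_11a3f4_lc.H90

open Set

variable {V σ X : Type*}

/-- graph of a function over a set -/
def gr (f : X → X) (P : Set X) : Set (X × X) := {p | p.1 ∈ P ∧ p.2 = f p.1}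

lemma gr_finite (f : X → X) {P : Set X} (h : P.Finite) : (gr f P).Finite := by
  refine (h.image (fun x => (x, f x))).subset ?_
  rintro ⟨a, b⟩ ⟨h1, h2⟩
  exact ⟨a, h1, Prod.ext rfl h2.symm⟩

/-- the pairs of vertices given by pairs of tuples and the diagonal of `F` -/
def pts (c : X → σ → V) (F : Set V) (Λ : Set (X × X)) : Set (V × V) :=
  {q | (q.1 ∈ F ∧ q.2 = q.1) ∨ ∃ p ∈ Λ, ∃ s, q = (c p.1 s, c p.2 s)}

/-- the pairs of tuples in `Λ` form a local isomorphism over `F` -/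
def IsoRel (E : V → V → Prop) (c : X → σ → V) (F : Set V) (Λ : Set (X × X)) : Prop :=
  PI E (pts c F Λ)

section iso
variable {E : V → V → Prop} {c : X → σ → V} {F F' : Set V} {Λ Γ Δ : Set (X × X)}

lemma pts_finite [Finite σ] (hF : F.Finite) (hΛ : Λ.Finite) : (pts c F Λ).Finite := by
  refine ((hF.image fun x => (x, x)).union
    ((hΛ.prod (finite_univ (α := σ))).image fun t => (c t.1.1 t.2, c t.1.2 t.2))).subset ?_
  rintro q (⟨h1, h2⟩ | ⟨p, hp, s, rfl⟩)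
  · exact Or.inl ⟨q.1, h1, Prod.ext rfl h2.symm⟩
  · exact Or.inr ⟨(p, s), ⟨hp, trivial⟩, rfl⟩

lemma IsoRel.mono (h : IsoRel E c F Λ) (hs : Γ ⊆ Λ) (hF : F' ⊆ F) : IsoRel E c F' Γ := by
  refine PI.mono h ?_
  rintro q (⟨h1, h2⟩ | ⟨p, hp, s, rfl⟩)
  · exact Or.inl ⟨hF h1, h2⟩
  · exact Or.inr ⟨p, hs hp, s, rfl⟩

lemma IsoRel.inv (h : IsoRel E c F Λ) (hs : ∀ p ∈ Γ, (p.2, p.1) ∈ Λ) : IsoRel E c F Γ := by
  have : ∀ q ∈ pts c F Γ, (q.2, q.1) ∈ pts c F Λ := by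
    rintro q (⟨h1, h2⟩ | ⟨p, hp, s, rfl⟩)
    · exact Or.inl ⟨h2 ▸ h1, h2.symm⟩
    · exact Or.inr ⟨_, hs p hp, s, rfl⟩
  intro p hp q hq
  have := h _ (this p hp) _ (this q hq)
  exact ⟨this.1.symm, this.2.symm⟩

lemma IsoRel.cmp (h : IsoRel E c F Γ) (h' : IsoRel E c F Δ)
    (hs : ∀ p ∈ Λ, ∃ y, (p.1, y) ∈ Γ ∧ (y, p.2) ∈ Δ) : IsoRel E c F Λ := by
  have : ∀ q ∈ pts c F Λ, ∃ y, (q.1, y) ∈ pts c F Γ ∧ (y, q.2) ∈ pts c F Δ := by
    rintro q (⟨h1, h2⟩ | ⟨p, hp, s, rfl⟩)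
    · exact ⟨q.1, Or.inl ⟨h1, rfl⟩, Or.inl ⟨h1, h2⟩⟩
    · obtain ⟨y, h1, h2⟩ := hs p hp
      exact ⟨c y s, Or.inr ⟨_, h1, s, rfl⟩, Or.inr ⟨_, h2, s, rfl⟩⟩
  intro p hp q hq
  obtain ⟨y, hy1, hy2⟩ := this p hp
  obtain ⟨z, hz1, hz2⟩ := this q hq
  have e1 := h _ hy1 _ hz1
  have e2 := h' _ hy2 _ hz2
  exact ⟨e1.1.trans e2.1, e1.2.trans e2.2⟩

lemma IsoRel.refl (hs : ∀ p ∈ Λ, p.2 = p.1) : IsoRel E c F Λ := by
  have : ∀ q ∈ pts c F Λ, q.2 = q.1 := by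
    rintro q (⟨-, h2⟩ | ⟨p, hp, s, rfl⟩)
    · exact h2
    · rw [hs p hp]
  intro p hp q hq
  rw [this p hp, this q hq]
  exact ⟨Iff.rfl, Iff.rfl⟩

lemma IsoRel.diag (h : IsoRel E c F Λ)
    (hs : ∀ p ∈ Γ, p ∈ Λ ∨ (p.2 = p.1 ∧ ∀ s, c p.1 s ∈ F)) : IsoRel E c F Γ := by
  refine PI.mono h ?_
  rintro q (h1 | ⟨p, hp, s, rfl⟩)
  · exact Or.inl h1
  · rcases hs p hp with h1 | ⟨h1, h2⟩
    · exact Or.inr ⟨p, h1, s, rfl⟩
    · exact Or.inl ⟨h2 s, by rw [h1]⟩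

lemma isoRel_range {ι : Type*} {a b : ι → X} : IsoRel E c F (range fun i => (a i, b i)) ↔
    EH E F (fun p : ι × σ => c (a p.1) p.2) (fun p => c (b p.1) p.2) := by
  have : pts c F (range fun i => (a i, b i)) =
      Rel F (fun p : ι × σ => c (a p.1) p.2) (fun p => c (b p.1) p.2) := by
    ext q
    constructor
    · rintro (h1 | ⟨_, ⟨i, rfl⟩, s, rfl⟩)
      · exact Or.inr h1
      · exact Or.inl ⟨(i, s), rfl⟩
    · rintro (⟨p, rfl⟩ | h1)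
      · exact Or.inr ⟨_, ⟨p.1, rfl⟩, p.2, rfl⟩
      · exact Or.inl h1
  rw [IsoRel, this, EH]

lemma isoRel_single {x y : X} : IsoRel E c F {(x, y)} ↔ EH E F (c x) (c y) := by
  have : pts c F {(x, y)} = Rel F (c x) (c y) := by
    ext q
    constructor
    · rintro (h1 | ⟨_, rfl, s, rfl⟩)
      · exact Or.inr h1
      · exact Or.inl ⟨s, rfl⟩
    · rintro (⟨s, rfl⟩ | h1)
      · exact Or.inr ⟨_, rfl, s, rfl⟩
      · exact Or.inl h1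
  rw [IsoRel, this, EH]

lemma isoRel_pair {x y x' y' : X} (h : EH E F (Sum.elim (c x) (c y)) (Sum.elim (c x') (c y'))) :
    IsoRel E c F {(x, x'), (y, y')} := by
  refine PI.mono h ?_
  rintro q (h1 | ⟨_, rfl | rfl, s, rfl⟩)
  · exact Or.inr h1
  · exact Or.inl ⟨Sum.inl s, rfl⟩
  · exact Or.inl ⟨Sum.inr s, rfl⟩

lemma IsoRel.mem_iff (h : IsoRel E c F Λ) {x y : X} (hp : (x, y) ∈ Λ) (s : σ) :
    c x s ∈ F ↔ c y s ∈ F :=
  (isoRel_single.1 (h.mono (singleton_subset_iff.2 hp) Subset.rfl)).mem_iff s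

lemma IsoRel.eq_of_mem (h : IsoRel E c F Λ) {x y : X} (hp : (x, y) ∈ Λ) {s : σ}
    (hs : c x s ∈ F) : c y s = c x s :=
  (isoRel_single.1 (h.mono (singleton_subset_iff.2 hp) Subset.rfl)).eq_of_mem hs

/-- finitely many isomorphism types: a code with finite range -/
lemma exists_code [Finite σ] (E : V → V → Prop) (c : X → σ → V) (hF : F.Finite) (ι : Type*)
    [Finite ι] : ∃ τ : (ι → X) → (ι × σ → V), (range τ).Finite ∧
      ∀ a b, τ a = τ b → IsoRel E c F (range fun i => (a i, b i)) := by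
  obtain ⟨S, hS, h⟩ := EH.finite_reps E hF (ι × σ)
  choose r hr hr' using h
  refine ⟨fun a => r fun p => c (a p.1) p.2, hS.subset ?_, fun a b hab => ?_⟩
  · rintro _ ⟨a, rfl⟩
    exact hr _
  · rw [isoRel_range]
    refine (hr' _).trans ?_
    simp only at hab
    rw [hab]
    exact (hr' _).symm

/-- finitely many isomorphism types: representatives inside any family -/
lemma exists_reps [Finite σ] (E : V → V → Prop) (c : X → σ → V) (hF : F.Finite) {ι Y : Type*}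
    [Finite ι] (m : Y → ι → X) (Z : Set Y) : ∃ R ⊆ Z, R.Finite ∧
      ∀ a ∈ Z, ∃ r ∈ R, IsoRel E c F (range fun i => (m a i, m r i)) := by
  obtain ⟨τ, h1, h2⟩ := exists_code E c hF ι
  obtain ⟨R, hR, hb⟩ := exists_subset_bijOn Z fun a => τ (m a)
  refine ⟨R, hR, Finite.of_finite_image (h1.subset ?_) hb.injOn, fun a ha => ?_⟩
  · rintro _ ⟨a, -, rfl⟩
    exact ⟨_, rfl⟩
  · obtain ⟨r, hr, e⟩ := hb.surjOn ⟨a, ha, rfl⟩
    exact ⟨r, hr, h2 _ _ e.symm⟩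

end iso

/-- The data of the abstract setting. -/
structure Setup (V σ X : Type*) where
  /-- adjacency -/
  E : V → V → Prop
  /-- clique bound -/
  n : ℕ
  hE : Hen E n
  /-- parameters -/
  A : Set V
  hA : A.Finite
  /-- coordinates -/
  c : X → σ → V
  cl : ∀ x b, EH E A (c x) b → ∃ y, c y = b
  /-- the coarser relation -/
  Ev : Set (X × X) → Prop
  inv : ∀ {Λ Γ}, Ev Λ → (∀ p ∈ Γ, (p.2, p.1) ∈ Λ) → Ev Γ
  cmp : ∀ {Γ Δ Λ}, Ev Γ → Ev Δ → (∀ p ∈ Λ, ∃ y, (p.1, y) ∈ Γ ∧ (y, p.2) ∈ Δ) → Ev Λ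
  ofIso : ∀ {Λ}, IsoRel E c A Λ → Ev Λ
  forth : ∀ {Λ}, Λ.Finite → Ev Λ → ∀ x, ∃ y, Ev (insert (x, y) Λ)

namespace Setup

variable (S : Setup V σ X)

lemma mono {Λ Γ : Set (X × X)} (h : S.Ev Λ) (hs : Γ ⊆ Λ) : S.Ev Γ :=
  S.inv (S.inv (Γ := {p | (p.2, p.1) ∈ Λ}) h fun _ hp => hp) fun _ hp => hs hp

lemma refl {Λ : Set (X × X)} (hs : ∀ p ∈ Λ, p.2 = p.1) : S.Ev Λ := S.ofIso (IsoRel.refl hs)

lemma forth_set {Λ : Set (X × X)} (hΛ : Λ.Finite) (h : S.Ev Λ) {P : Set X} (hP : P.Finite) :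
    ∃ f, S.Ev (Λ ∪ gr f P) := by
  classical
  induction P, hP using Set.Finite.induction_on with
  | empty => exact ⟨id, S.mono h (union_subset Subset.rfl fun _ hp => hp.1.elim)⟩
  | @insert x P _ hP ih =>
    obtain ⟨f, hf⟩ := ih
    obtain ⟨y, hy⟩ := S.forth (hΛ.union (gr_finite f hP)) hf x
    refine ⟨Function.update f x y, S.mono hy ?_⟩
    rintro ⟨a, b⟩ (h1 | ⟨h1, h2⟩)
    · exact Or.inr (Or.inl h1)
    · by_cases hax : a = x
      · subst hax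
        simp only [Function.update_self] at h2
        exact Or.inl (Prod.ext rfl h2)
      · simp only [Function.update_of_ne hax] at h2
        exact Or.inr (Or.inr ⟨h1.resolve_left hax, h2⟩)

/-- extension of a local isomorphism over `F`, free from a finite set `U` -/
lemma iso_ext [Finite σ] {F : Set V} (hF : F.Finite) (hAF : S.A ⊆ F) {Λ : Set (X × X)}
    (hΛ : Λ.Finite) (h : IsoRel S.E S.c F Λ) {P : Set X} (hP : P.Finite) {U : Set V}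
    (hU : U.Finite) : ∃ f, IsoRel S.E S.c F (Λ ∪ gr f P) ∧ ∀ x ∈ P, ∀ s, S.c x s ∉ F →
      (∀ p ∈ Λ, ∀ t, S.c p.1 t ≠ S.c x s) → S.c (f x) s ∉ U ∧ ∀ u ∈ U, S.E (S.c (f x) s) u →
        u ∈ F ∨ ∃ p ∈ Λ, ∃ t, S.c p.2 t = u := by
  obtain ⟨R, h1, -, h3, h4, h5⟩ := S.hE.multi_point h (pts_finite hF hΛ) hU
    ((fun t : X × σ => S.c t.1 t.2) '' (P ×ˢ univ)) ((hP.prod finite_univ).image _)
  have h6 : ∀ x ∈ P, ∃ y, ∀ s, (S.c x s, S.c y s) ∈ R := by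
    intro x hx
    have : ∀ s, ∃ d, (S.c x s, d) ∈ R := by
      intro s
      obtain ⟨q, hq, e⟩ := h4 ⟨(x, s), ⟨hx, trivial⟩, rfl⟩
      exact ⟨q.2, by simp only at e; rw [← e]; exact hq⟩
    choose b hb using this
    obtain ⟨y, rfl⟩ := S.cl x b (PI.mono h3 (by
      rintro q (⟨s, rfl⟩ | ⟨h7, h8⟩)
      · exact hb s
      · exact h1 (Or.inl ⟨hAF h7, h8⟩)))
    exact ⟨y, hb⟩
  have : Nonempty (X → X) := ⟨id⟩
  choose! f hf using h6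
  refine ⟨f, PI.mono h3 ?_, fun x hx s hs hs' => ?_⟩
  · rintro q (h7 | ⟨⟨a, b⟩, h7 | ⟨h7, h8⟩, s, rfl⟩)
    · exact h1 (Or.inl h7)
    · exact h1 (Or.inr ⟨_, h7, s, rfl⟩)
    · simp only at h7 h8
      subst h8
      exact hf a h7 s
  · rcases h5 _ (hf x hx s) with (⟨h7, -⟩ | ⟨p, hp, t, e⟩) | ⟨h7, h8⟩
    · exact absurd h7 hs
    · exact absurd (congrArg Prod.fst e).symm (hs' p hp t)
    · refine ⟨h7, fun u hu hE => ?_⟩
      obtain ⟨q, ⟨h9, h10⟩ | ⟨p, hp, t, rfl⟩, rfl⟩ := h8 u hu hE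
      · exact Or.inl (h10 ▸ h9)
      · exact Or.inr ⟨p, hp, t, rfl⟩

/-- every copy of `C` inside `Q` meets `W` -/
def Syn (C W Q : Set X) : Prop := ∀ e, S.Ev (gr e C) → MapsTo e C Q → ∃ x ∈ C, e x ∈ W

/-- some copy of `P` has all its copies of `C` meeting `W` -/
def Good (C P W : Set X) : Prop := ∃ f, S.Ev (gr f P) ∧ S.Syn C W (f '' P)

/-- piecewise syndetic sets -/
def Large (W : Set X) : Prop := ∃ C : Set X, C.Finite ∧ ∀ P : Set X, P.Finite → S.Good C P W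

variable {S}

lemma section_copy {Λ : Set (X × X)} (h : S.Ev Λ) {C Q : Set X} {e : X → X}
    (he : S.Ev (gr e C)) (hQ : ∀ x ∈ C, ∃ y ∈ Q, (y, e x) ∈ Λ) :
    ∃ k, S.Ev (gr k C) ∧ MapsTo k C Q ∧ ∀ x ∈ C, (k x, e x) ∈ Λ := by
  have : Nonempty (X → X) := ⟨id⟩
  choose! k hk hk' using hQ
  refine ⟨k, S.cmp he (S.inv (Γ := {p | (p.2, p.1) ∈ Λ}) h fun _ hp => hp) ?_, hk, hk'⟩
  rintro ⟨a, b⟩ ⟨h1, h2⟩
  simp only at h1 h2
  subst h2
  exact ⟨e a, ⟨h1, rfl⟩, hk' a h1⟩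

lemma Syn.transfer {C W W' Q Q' : Set X} (h : S.Syn C W Q) {Λ : Set (X × X)} (hΛ : S.Ev Λ)
    (hQ : ∀ y' ∈ Q', ∃ y ∈ Q, (y, y') ∈ Λ) (hW : ∀ y ∈ Q, ∀ y', (y, y') ∈ Λ → y ∈ W → y' ∈ W') :
    S.Syn C W' Q' := by
  intro e he hm
  obtain ⟨k, h1, h2, h3⟩ := section_copy hΛ he fun x hx => hQ _ (hm hx)
  obtain ⟨x, hx, hx'⟩ := h k h1 h2
  exact ⟨x, hx, hW _ (h2 hx) _ (h3 x hx) hx'⟩

lemma Syn.mono {C C' W W' Q Q' : Set X} (h : S.Syn C W Q) (hC : C ⊆ C') (hQ : Q' ⊆ Q)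
    (hW : ∀ y ∈ Q', y ∈ W → y ∈ W') : S.Syn C' W' Q' := by
  intro e he hm
  obtain ⟨x, hx, hx'⟩ := h e (S.mono he fun _ hp => ⟨hC hp.1, hp.2⟩) fun x hx => hQ (hm (hC hx))
  exact ⟨x, hC hx, hW _ (hm (hC hx)) hx'⟩

lemma Good.mono {C C' P P' W W' : Set X} (h : S.Good C P W) (hC : C ⊆ C') (hP : P' ⊆ P)
    (hW : W ⊆ W') : S.Good C' P' W' := by
  obtain ⟨f, h1, h2⟩ := h
  exact ⟨f, S.mono h1 fun _ hp => ⟨hP hp.1, hp.2⟩, h2.mono hC (image_mono hP) fun _ _ h => hW h⟩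

lemma Large.mono {W W' : Set X} (h : S.Large W) (hW : W ⊆ W') : S.Large W' := by
  obtain ⟨C, h1, h2⟩ := h
  exact ⟨C, h1, fun P hP => (h2 P hP).mono Subset.rfl Subset.rfl hW⟩

lemma Large.nonempty {W : Set X} (h : S.Large W) : W.Nonempty := by
  obtain ⟨C, h1, h2⟩ := h
  obtain ⟨f, h3, h4⟩ := h2 C h1
  obtain ⟨x, -, hx⟩ := h4 f h3 (mapsTo_image f C)
  exact ⟨_, hx⟩

lemma Large.union {W W' : Set X} (h : S.Large (W ∪ W')) : S.Large W ∨ S.Large W' := by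
  obtain ⟨C, h1, h2⟩ := h
  refine or_iff_not_imp_left.2 fun hW => ?_
  have : ∃ P : Set X, P.Finite ∧ ¬ S.Good C P W := by
    by_contra h3
    push Not at h3
    exact hW ⟨C, h1, h3⟩
  obtain ⟨P, hP, h3⟩ := this
  refine ⟨P, hP, fun Q hQ => ?_⟩
  obtain ⟨f, h4, h5⟩ := h2 Q hQ
  refine ⟨f, h4, fun e he hm => ?_⟩
  by_contra h6
  refine h3 ⟨e, he, fun k hk hm' => ?_⟩
  obtain ⟨x, hx, hx' | hx'⟩ := h5 k hk fun x hx => by
    obtain ⟨y, hy, e'⟩ := hm' hx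
    exact e' ▸ hm hy
  · exact ⟨x, hx, hx'⟩
  · obtain ⟨y, hy, e'⟩ := hm' hx
    exact (h6 ⟨y, hy, e' ▸ hx'⟩).elim

/-- invariant ternary relations -/
def Inv (S : Setup V σ X) (Φ : X → X → X → Prop) : Prop :=
  ∀ Λ, S.Ev Λ → ∀ x x' y y' z z', (x, x') ∈ Λ → (y, y') ∈ Λ → (z, z') ∈ Λ → Φ x y z → Φ x' y' z'

lemma Good.transfer {Φ : X → X → X → Prop} (hΦ : S.Inv Φ) {Λ : Set (X × X)} (hΛ : S.Ev Λ)
    {x x' y y' : X} (hx : (x, x') ∈ Λ) (hy : (y, y') ∈ Λ) {C P : Set X} (hP : P.Finite)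
    (h : S.Good C P {z | Φ x y z}) : S.Good C P {z | Φ x' y' z} := by
  obtain ⟨f, h1, h2⟩ := h
  obtain ⟨g, hg⟩ := S.forth_set (Λ := {(x, x'), (y, y')}) (toFinite _)
    (S.mono hΛ (insert_subset hx (singleton_subset_iff.2 hy))) (hP.image f)
  refine ⟨g ∘ f, S.cmp h1 hg ?_, h2.transfer hg ?_ ?_⟩
  · rintro ⟨a, b⟩ ⟨h3, h4⟩
    exact ⟨f a, ⟨h3, rfl⟩, Or.inr ⟨⟨a, h3, rfl⟩, h4⟩⟩
  · rintro _ ⟨a, ha, rfl⟩
    exact ⟨f a, ⟨a, ha, rfl⟩, Or.inr ⟨⟨a, ha, rfl⟩, rfl⟩⟩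
  · intro z _ z' hz h3
    exact hΦ _ hg _ _ _ _ _ _ (Or.inl (Or.inl rfl)) (Or.inl (Or.inr rfl)) hz h3

lemma Large.transfer {Φ : X → X → X → Prop} (hΦ : S.Inv Φ) {Λ : Set (X × X)} (hΛ : S.Ev Λ)
    {x x' y y' : X} (hx : (x, x') ∈ Λ) (hy : (y, y') ∈ Λ)
    (h : S.Large {z | Φ x y z}) : S.Large {z | Φ x' y' z} := by
  obtain ⟨C, h1, h2⟩ := h
  exact ⟨C, h1, fun P hP => (h2 P hP).transfer hΦ hΛ hx hy hP⟩

lemma pair_reps [Finite σ] (S : Setup V σ X) (Z : Set (X × X)) : ∃ R ⊆ Z, R.Finite ∧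
    ∀ a ∈ Z, ∃ r ∈ R, ∃ Λ, S.Ev Λ ∧ (a.1, r.1) ∈ Λ ∧ (a.2, r.2) ∈ Λ := by
  obtain ⟨R, h1, h2, h3⟩ := exists_reps S.E S.c S.hA
    (fun (a : X × X) (b : Bool) => if b then a.1 else a.2) Z
  refine ⟨R, h1, h2, fun a ha => ?_⟩
  obtain ⟨r, hr, h4⟩ := h3 a ha
  exact ⟨r, hr, _, S.ofIso h4, ⟨true, rfl⟩, ⟨false, rfl⟩⟩

lemma unif_one [Finite σ] {Φ : X → X → X → Prop} (hΦ : S.Inv Φ) : ∃ C : Set X, C.Finite ∧
    ∀ x y, S.Large {z | Φ x y z} → ∀ P : Set X, P.Finite → S.Good C P {z | Φ x y z} := by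
  obtain ⟨R, h1, h2, h3⟩ := S.pair_reps {a | S.Large {z | Φ a.1 a.2 z}}
  have h1' : ∀ r ∈ R, ∃ C : Set X, C.Finite ∧ ∀ P : Set X, P.Finite →
    S.Good C P {z | Φ r.1 r.2 z} := fun r hr => h1 hr
  choose! C hC hC' using h1'
  refine ⟨⋃ r ∈ R, C r, h2.biUnion hC, fun x y h P hP => ?_⟩
  obtain ⟨r, hr, Λ, h4, h5, h6⟩ := h3 (x, y) h
  exact ((hC' r hr P hP).transfer hΦ (S.inv (Γ := {p | (p.2, p.1) ∈ Λ}) h4 fun _ hp => hp)
    (x := r.1) (y := r.2) (x' := x) (y' := y) h5 h6 hP).mono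
    (subset_biUnion_of_mem (u := C) hr) Subset.rfl Subset.rfl

lemma unif_two [Finite σ] {Φ : X → X → X → Prop} (hΦ : S.Inv Φ) {C : Set X} (hC : C.Finite) :
    ∃ D : Set X, D.Finite ∧ ∀ x y, S.Good C D {z | Φ x y z} → S.Large {z | Φ x y z} := by
  obtain ⟨R, h1, h2, h3⟩ := S.pair_reps {a | ¬ S.Large {z | Φ a.1 a.2 z}}
  have h4 : ∀ r ∈ R, ∃ P : Set X, P.Finite ∧ ¬ S.Good C P {z | Φ r.1 r.2 z} := by
    intro r hr
    by_contra h5
    push Not at h5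
    exact h1 hr ⟨C, hC, h5⟩
  choose! D hD hD' using h4
  refine ⟨⋃ r ∈ R, D r, h2.biUnion hD, fun x y h => ?_⟩
  by_contra h5
  obtain ⟨r, hr, Λ, h6, h7, h8⟩ := h3 (x, y) h5
  exact hD' r hr ((h.mono Subset.rfl (subset_biUnion_of_mem (u := D) hr) Subset.rfl).transfer
    hΦ h6 h7 h8 (hD r hr))

end Setup

end Pool.Agent.Work.MP_11a3f4_lc.H90
end

-- merged part: Pool.Agent.Work.MP_11a3f4_lc.H90Sys
section
/-! Minimal full systems of sets of tuples, their extension property, and tight systems. -/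

namespace Pool.Agent.Work.MP_11a3f4_lc.H90

open Set

variable {V σ X : Type*}

namespace Setup

variable (S : Setup V σ X)

/-- closed under local isomorphisms over `F` and under subsets -/
def Closed (F : Set V) (K : Set (Set X)) : Prop :=
  ∀ B ∈ K, ∀ Λ, IsoRel S.E S.c F Λ → ∀ B' : Set X, (∀ y ∈ B', ∃ x ∈ B, (x, y) ∈ Λ) → B' ∈ K

/-- every finite set has a copy in the system -/
def Full (K : Set (Set X)) : Prop := ∀ P : Set X, P.Finite → ∃ f, S.Ev (gr f P) ∧ f '' P ∈ K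

/-- full systems over `F` -/
def Sys (F : Set V) (K : Set (Set X)) : Prop := S.Closed F K ∧ S.Full K

variable {S}

lemma Closed.sub {F : Set V} {K : Set (Set X)} (h : S.Closed F K) {B B' : Set X} (hB : B ∈ K)
    (hs : B' ⊆ B) : B' ∈ K :=
  h B hB {p | p.2 = p.1} (IsoRel.refl fun _ hp => hp) B' fun y hy => ⟨y, hs hy, rfl⟩

lemma exists_minimal [Finite σ] {F : Set V} (hF : F.Finite) {K : Set (Set X)} (h : S.Sys F K) :
    ∃ K' ⊆ K, Minimal (S.Sys F) K' := by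
  refine zorn_superset_nonempty {K | S.Sys F K} (fun ch hch hc hne => ?_) K h
  refine ⟨⋂₀ ch, ⟨fun B hB Λ hΛ B' hB' K' hK' => (hch hK').1 B (hB K' hK') Λ hΛ B' hB',
    fun P hP => ?_⟩, fun _ hK' => sInter_subset_of_mem hK'⟩
  by_contra h1
  have := hP.to_subtype
  obtain ⟨R, hR, hRf, h2⟩ := exists_reps S.E S.c hF (fun (f : X → X) (i : P) => f i)
    {f | S.Ev (gr f P)}
  have h3 : ∀ r ∈ R, ∃ K' ∈ ch, r '' P ∉ K' := by
    intro r hr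
    by_contra h4
    push Not at h4
    exact h1 ⟨r, hR hr, h4⟩
  have h4 : ∀ R' : Set (X → X), R'.Finite → R' ⊆ R → ∃ K' ∈ ch, ∀ r ∈ R', r '' P ∉ K' := by
    intro R' hR'
    induction R', hR' using Set.Finite.induction_on with
    | empty => exact fun _ => ⟨_, hne.some_mem, fun _ h => h.elim⟩
    | @insert r R' _ _ ih =>
      intro hs
      obtain ⟨K₁, h5, h6⟩ := ih ((subset_insert _ _).trans hs)
      obtain ⟨K₂, h7, h8⟩ := h3 r (hs (mem_insert _ _))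
      rcases hc.total h5 h7 with h9 | h9
      · refine ⟨K₁, h5, ?_⟩
        rintro _ (rfl | h10)
        · exact fun h => h8 (h9 h)
        · exact h6 _ h10
      · refine ⟨K₂, h7, ?_⟩
        rintro _ (rfl | h10)
        · exact h8
        · exact fun h => h6 _ h10 (h9 h)
  obtain ⟨K', h5, h6⟩ := h4 R hRf Subset.rfl
  obtain ⟨f, h7, h8⟩ := (hch h5).2 P hP
  obtain ⟨r, hr, h9⟩ := h2 f h7
  refine h6 r hr ((hch h5).1 _ h8 _ h9 _ ?_)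
  rintro _ ⟨x, hx, rfl⟩
  exact ⟨f x, ⟨x, hx, rfl⟩, ⟨x, hx⟩, rfl⟩

/-- every member of a minimal system occurs in all copies of a suitable finite set -/
lemma occurs {F : Set V} {K : Set (Set X)} (h : Minimal (S.Sys F) K) {B : Set X} (hB : B ∈ K) :
    ∃ C : Set X, C.Finite ∧ ∀ f, S.Ev (gr f C) → f '' C ∈ K →
      ∃ g, IsoRel S.E S.c F (gr g B) ∧ MapsTo g B (f '' C) := by
  by_contra h1
  push Not at h1
  have h2 : S.Sys F {Q ∈ K | ∀ g, IsoRel S.E S.c F (gr g B) → ¬ MapsTo g B Q} := by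
    refine ⟨fun Q hQ Λ hΛ Q' hQ' => ⟨h.prop.1 Q hQ.1 Λ hΛ Q' hQ', fun g hg hm => ?_⟩,
      fun P hP => ?_⟩
    · have : Nonempty (X → X) := ⟨id⟩
      have h3 : ∀ x ∈ B, ∃ y ∈ Q, (y, g x) ∈ Λ := fun x hx => hQ' _ (hm hx)
      choose! k hk hk' using h3
      refine hQ.2 k (hg.cmp (hΛ.inv (Γ := {p | (p.2, p.1) ∈ Λ}) fun _ hp => hp) ?_) hk
      rintro ⟨a, b⟩ ⟨h4, h5⟩
      simp only at h4 h5
      subst h5
      exact ⟨g a, ⟨h4, rfl⟩, hk' a h4⟩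
    · obtain ⟨f, h3, h4, h5⟩ := h1 P hP
      exact ⟨f, h3, h4, h5⟩
  exact (h.le_of_le h2 (fun _ hQ => hQ.1) hB).2 id (IsoRel.refl fun _ hp => hp.2) (mapsTo_id B)

lemma closure_step (S : Setup V σ X) {B C P : Set X} (hB : B.Finite) (hC : C.Finite)
    (hP : P.Finite) : ∃ Q : Set X, Q.Finite ∧ C ⊆ Q ∧ ∀ k, S.Ev (gr k B) → MapsTo k B C →
      ∃ m, S.Ev (gr k B ∪ gr m P) ∧ MapsTo m P Q := by
  have h1 : ∀ Γ ∈ {Γ | Γ ⊆ B ×ˢ C ∧ S.Ev Γ}, ∃ m, S.Ev (Γ ∪ gr m P) := fun Γ hΓ =>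
    S.forth_set ((hB.prod hC).subset hΓ.1) hΓ.2 hP
  have : Nonempty (X → X) := ⟨id⟩
  choose! m hm using h1
  refine ⟨C ∪ ⋃ Γ ∈ {Γ | Γ ⊆ B ×ˢ C ∧ S.Ev Γ}, m Γ '' P, hC.union (Finite.biUnion
    ((hB.prod hC).finite_subsets.subset fun _ h => h.1) fun _ _ => hP.image _),
    subset_union_left, fun k hk hk' => ?_⟩
  have h2 : gr k B ∈ {Γ | Γ ⊆ B ×ˢ C ∧ S.Ev Γ} := ⟨fun p hp => ⟨hp.1, hp.2 ▸ hk' hp.1⟩, hk⟩
  exact ⟨m _, hm _ h2, fun x hx => Or.inr (mem_biUnion h2 ⟨x, hx, rfl⟩)⟩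

/-- the extension property of minimal systems -/
lemma extend [Finite σ] {F : Set V} (hF : F.Finite) (hAF : S.A ⊆ F) {K : Set (Set X)}
    (h : Minimal (S.Sys F) K) {B : Set X} (hB : B ∈ K) (hBf : B.Finite) {P : Set X}
    (hP : P.Finite) : ∃ f, S.Ev (gr id B ∪ gr f P) ∧ B ∪ f '' P ∈ K := by
  obtain ⟨C, hC, h1⟩ := occurs h hB
  obtain ⟨Q, hQ, hCQ, h2⟩ := S.closure_step hBf hC hP
  obtain ⟨r, h3, h4⟩ := h.prop.2 Q hQ
  obtain ⟨g, h5, h6⟩ := h1 r (S.mono h3 fun _ hp => ⟨hCQ hp.1, hp.2⟩)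
    (h.prop.1.sub h4 (image_mono hCQ))
  have h5' : S.Ev (gr g B) := S.ofIso (h5.mono Subset.rfl hAF)
  obtain ⟨k, h7, h8, h9⟩ := section_copy (Q := C) h3 h5' fun x hx => by
    obtain ⟨y, hy, e⟩ := h6 hx
    exact ⟨y, hy, hCQ hy, e.symm⟩
  obtain ⟨m, h10, h11⟩ := h2 k h7 h8
  obtain ⟨f, h12, -⟩ := S.iso_ext hF hAF (Λ := {p | (p.2, p.1) ∈ gr g B})
    (((gr_finite g hBf).image Prod.swap).subset fun p hp => ⟨_, hp, rfl⟩)
    (h5.inv fun _ hp => hp) ((hP.image m).image r) finite_empty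
  refine ⟨f ∘ r ∘ m, S.cmp (S.cmp h10 h3 (Λ := gr g B ∪ gr (r ∘ m) P) ?_)
    (S.ofIso (h12.mono Subset.rfl hAF)) ?_, h.prop.1 _ h4 _ h12 _ ?_⟩
  · rintro ⟨a, b⟩ (⟨h13, h14⟩ | ⟨h13, h14⟩)
    · exact ⟨k a, Or.inl ⟨h13, rfl⟩, by simp only at h14; rw [h14]; exact h9 a h13⟩
    · exact ⟨m a, Or.inr ⟨h13, rfl⟩, h11 h13, h14⟩
  · rintro ⟨a, b⟩ (⟨h13, h14⟩ | ⟨h13, h14⟩)
    · simp only [id] at h13 h14
      subst h14
      exact ⟨g b, Or.inl ⟨h13, rfl⟩, Or.inl ⟨h13, rfl⟩⟩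
    · exact ⟨r (m a), Or.inr ⟨h13, rfl⟩, Or.inr ⟨⟨_, ⟨a, h13, rfl⟩, rfl⟩, h14⟩⟩
  · rintro y (hy | ⟨x, hx, rfl⟩)
    · obtain ⟨z, hz, e⟩ := h6 hy
      exact ⟨g y, ⟨z, hCQ hz, e⟩, Or.inl ⟨hy, rfl⟩⟩
    · exact ⟨r (m x), ⟨_, h11 hx, rfl⟩, Or.inr ⟨⟨_, ⟨x, hx, rfl⟩, rfl⟩, rfl⟩⟩

/-- isomorphism classes of members of a minimal system are large -/
lemma large_class {F : Set V} {K : Set (Set X)} (h : Minimal (S.Sys F) K) {x : X}
    (hx : {x} ∈ K) : S.Large {y | IsoRel S.E S.c F {(x, y)}} := by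
  obtain ⟨C, hC, h1⟩ := occurs h hx
  refine ⟨C, hC, fun P hP => ?_⟩
  obtain ⟨f, h2, h3⟩ := h.prop.2 P hP
  refine ⟨f, h2, fun e he hm => ?_⟩
  obtain ⟨g, h4, h5⟩ := h1 e he (h.prop.1.sub h3 hm.image_subset)
  obtain ⟨y, hy, e'⟩ := h5 rfl
  refine ⟨y, hy, h4.mono ?_ Subset.rfl⟩
  rintro _ rfl
  exact ⟨rfl, e'⟩

/-- minimal systems in which copies of `D` can be moved off any member -/
def Tight (S : Setup V σ X) (D : Set X) (F : Set V) (K : Set (Set X)) : Prop :=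
  F.Finite ∧ S.A ⊆ F ∧ Minimal (S.Sys F) K ∧ ∀ B ∈ K, B.Finite → ∃ P : Set X, P.Finite ∧
    ∀ f, S.Ev (gr f P) → B ∪ f '' P ∈ K → ∃ e, S.Ev (gr e D) ∧ MapsTo e D (f '' P) ∧
      ∀ x ∈ D, ∀ b ∈ B, ∀ s t, S.c (e x) s = S.c b t → S.c b t ∈ F

lemma exists_tight [Finite σ] (S : Setup V σ X) {D : Set X} (hD : D.Finite) :
    ∃ F K, S.Tight D F K := by
  classical
  let G : ℕ → Set V → Set (Set X) → Prop := fun p F K => F.Finite ∧ S.A ⊆ F ∧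
    Minimal (S.Sys F) K ∧ ∃ U : ℕ → Set V, (∀ i < p, U i ⊆ F) ∧
      (∀ i < p, ∀ j < i, Disjoint (U i) (U j)) ∧
      ∀ e, S.Ev (gr e D) → e '' D ∈ K → ∀ i < p, ∃ x ∈ D, ∃ s, S.c (e x) s ∈ U i
  have h0 : ∃ F K, G 0 F K := by
    obtain ⟨K, -, hK⟩ := exists_minimal (S := S) S.hA (K := univ)
      ⟨fun _ _ _ _ _ _ => trivial, fun P _ => ⟨id, S.refl fun _ hp => hp.2, trivial⟩⟩
    exact ⟨S.A, K, S.hA, Subset.rfl, hK, fun _ => ∅, by simp⟩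
  have hb : ∀ p, (∃ F K, G p F K) → p ≤ Nat.card (D × σ) := by
    rintro p ⟨F, K, -, -, hK, U, -, h2, h3⟩
    obtain ⟨e, h4, h5⟩ := hK.prop.2 D hD
    have h6 : ∀ i : Fin p, ∃ t : D × σ, S.c (e t.1) t.2 ∈ U i := fun i => by
      obtain ⟨x, hx, s, hs⟩ := h3 e h4 h5 i i.2
      exact ⟨(⟨x, hx⟩, s), hs⟩
    choose t ht using h6
    have := hD.to_subtype
    have h7 : Function.Injective t := by
      intro i j hij
      by_contra hne
      rcases lt_or_gt_of_ne hne with h | h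
      · exact disjoint_left.1 (h2 j j.2 i h) (ht j) (hij ▸ ht i)
      · exact disjoint_left.1 (h2 i i.2 j h) (ht i) (hij ▸ ht j)
    simpa using Nat.card_le_card_of_injective t h7
  obtain ⟨F, K, hF, hAF, hK, U, h1, h2, h3⟩ := Nat.findGreatest_spec (P := fun p => ∃ F K, G p F K)
    (Nat.zero_le (Nat.card (D × σ))) h0
  set p := Nat.findGreatest (fun p => ∃ F K, G p F K) (Nat.card (D × σ)) with hp
  have hmax : ¬ ∃ F K, G (p + 1) F K := fun h =>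
    Nat.findGreatest_is_greatest (Nat.lt_succ_self p) (hb _ h) h
  refine ⟨F, K, hF, hAF, hK, fun B hB hBf => ?_⟩
  by_contra h4
  push Not at h4
  set W : Set V := (fun t : X × σ => S.c t.1 t.2) '' (B ×ˢ univ) with hW
  have hWf : W.Finite := (hBf.prod finite_univ).image _
  have h5 : S.Sys (F ∪ W) {Q | B ∪ Q ∈ K ∧ ∀ e, S.Ev (gr e D) → MapsTo e D Q →
      ∃ x ∈ D, ∃ s, S.c (e x) s ∈ W \ F} := by
    refine ⟨fun Q hQ Λ hΛ Q' hQ' => ⟨hK.prop.1 _ hQ.1 (Λ ∪ gr id B)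
      ((hΛ.diag ?_).mono Subset.rfl subset_union_left) _ ?_, fun e he hm => ?_⟩, fun P hP => ?_⟩
    · rintro q (hq | hq)
      · exact Or.inl hq
      · exact Or.inr ⟨hq.2, fun s => Or.inr ⟨(q.1, s), ⟨hq.1, trivial⟩, rfl⟩⟩
    · rintro y (hy | hy)
      · exact ⟨y, Or.inl hy, Or.inr ⟨hy, rfl⟩⟩
      · obtain ⟨x, hx, h⟩ := hQ' y hy
        exact ⟨x, Or.inr hx, Or.inl h⟩
    · obtain ⟨k, h6, h7, h8⟩ := section_copy (Q := Q) (S.ofIso (hΛ.mono Subset.rfl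
        (hAF.trans subset_union_left))) he fun x hx => hQ' _ (hm hx)
      obtain ⟨x, hx, s, hs⟩ := hQ.2 k h6 h7
      exact ⟨x, hx, s, by rw [hΛ.eq_of_mem (h8 x hx) (Or.inr hs.1)]; exact hs⟩
    · obtain ⟨f, h6, h7, h8⟩ := h4 P hP
      refine ⟨f, h6, h7, fun e he hm => ?_⟩
      obtain ⟨x, hx, b, hb, s, t, h9, h10⟩ := h8 e he hm
      exact ⟨x, hx, s, by rw [h9]; exact ⟨⟨(b, t), ⟨hb, trivial⟩, rfl⟩, h10⟩⟩
  obtain ⟨K', h6, h7⟩ := exists_minimal (hF.union hWf) h5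
  refine hmax ⟨F ∪ W, K', hF.union hWf, hAF.trans subset_union_left, h7,
    Function.update U p (W \ F), fun i hi => ?_, fun i hi j hj => ?_, fun e he h8 i hi => ?_⟩
  · rcases (Nat.lt_succ_iff.1 hi).eq_or_lt with rfl | h
    · rw [Function.update_self]
      exact sdiff_subset.trans subset_union_right
    · rw [Function.update_of_ne h.ne]
      exact (h1 i h).trans subset_union_left
  · rcases (Nat.lt_succ_iff.1 hi).eq_or_lt with rfl | h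
    · rw [Function.update_self, Function.update_of_ne hj.ne]
      exact disjoint_sdiff_left.mono_right (h1 j hj)
    · rw [Function.update_of_ne h.ne, Function.update_of_ne (hj.trans h).ne]
      exact h2 i h j hj
  · rcases (Nat.lt_succ_iff.1 hi).eq_or_lt with rfl | h
    · rw [Function.update_self]
      exact (h6 h8).2 e he (mapsTo_image e D)
    · rw [Function.update_of_ne h.ne]
      exact h3 e he (hK.prop.1.sub (h6 h8).1 subset_union_right) i h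

/-- large sets are realised off any member of a tight system -/
lemma realise [Finite σ] {C D : Set X} {F : Set V} {K : Set (Set X)} (h : S.Tight D F K)
    {B : Set X} (hB : B ∈ K) (hBf : B.Finite) {Φ : X → X → X → Prop} (hΦ : S.Inv Φ) {x y : X}
    (hx : x ∈ B) (hy : y ∈ B) (hG : ∀ P : Set X, P.Finite → S.Good C P {z | Φ x y z}) :
    ∃ e, S.Ev (gr e D) ∧ B ∪ e '' D ∈ K ∧ S.Syn C {z | Φ x y z} (e '' D) ∧
      ∀ u ∈ D, ∀ b ∈ B, ∀ s t, S.c (e u) s = S.c b t → S.c b t ∈ F := by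
  obtain ⟨hF, hAF, hK, h1⟩ := h
  obtain ⟨P, hP, h2⟩ := h1 B hB hBf
  obtain ⟨f, h3, h4⟩ := hG P hP
  obtain ⟨g, h5, h6⟩ := extend hF hAF hK hB hBf (hP.image f)
  rw [← image_comp] at h6
  obtain ⟨e, h7, h8, h9⟩ := h2 (g ∘ f) (S.cmp h3 h5 (by
    rintro ⟨a, b⟩ ⟨h7, h8⟩
    exact ⟨f a, ⟨h7, rfl⟩, Or.inr ⟨⟨a, h7, rfl⟩, h8⟩⟩)) h6
  refine ⟨e, h7, hK.prop.1.sub h6 (union_subset_union_right _ h8.image_subset),
    h4.transfer h5 ?_ ?_, h9⟩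
  · rintro _ ⟨u, hu, rfl⟩
    obtain ⟨a, ha, e'⟩ := h8 hu
    exact ⟨f a, ⟨a, ha, rfl⟩, Or.inr ⟨⟨a, ha, rfl⟩, e'.symm⟩⟩
  · intro z _ z' hz h10
    exact hΦ _ h5 _ _ _ _ _ _ (Or.inl ⟨hx, rfl⟩) (Or.inl ⟨hy, rfl⟩) hz h10

end Setup

end Pool.Agent.Work.MP_11a3f4_lc.H90
end

-- merged part: Pool.Agent.Work.MP_11a3f4_lc.H90Core
section
/-! The combinatorial core: chains of elementary moves shorten to length four. -/

namespace Pool.Agent.Work.MP_11a3f4_lc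

open Set

namespace H90

variable {V σ X : Type*}

namespace Setup

variable (S : Setup V σ X)

/-- elementary move -/
def T0 (u v : X) : Prop :=
  ∃ u₁ v₁, S.Ev {(u, u₁), (v, v₁)} ∧ IsoRel S.E S.c S.A {(u₁, v₁)}

/-- first family -/
def Φ₁ (z y w : X) : Prop := S.T0 z w ∧ S.T0 w y

/-- second family -/
def Φ₂ (x y z : X) : Prop := S.T0 x z ∧ S.Large {w | S.Φ₁ z y w}

/-- the large neighbourhood relation -/
def R (x y : X) : Prop := S.Large {z | S.Φ₂ x y z}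

/-- third family -/
def Φ₃ (x' x y : X) : Prop := S.R x y ∧ ¬ S.R x' y

/-- fourth family -/
def Φ₄ (x _x' y : X) : Prop := S.T0 x y ∧ S.R x y

variable {S}

lemma T0.transfer {Λ : Set (X × X)} (hΛ : S.Ev Λ) {u u' v v' : X} (hu : (u, u') ∈ Λ)
    (hv : (v, v') ∈ Λ) (h : S.T0 u v) : S.T0 u' v' := by
  obtain ⟨u₁, v₁, h1, h2⟩ := h
  refine ⟨u₁, v₁, S.cmp (S.inv (Γ := {p | (p.2, p.1) ∈ Λ}) hΛ fun _ hp => hp) h1 ?_, h2⟩
  rintro _ (rfl | rfl)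
  · exact ⟨u, hu, Or.inl rfl⟩
  · exact ⟨v, hv, Or.inr rfl⟩

lemma T0.symm {u v : X} (h : S.T0 u v) : S.T0 v u := by
  obtain ⟨u₁, v₁, h1, h2⟩ := h
  refine ⟨v₁, u₁, by rwa [pair_comm], h2.inv ?_⟩
  rintro _ rfl
  rfl

lemma T0.of_iso {F : Set V} (hAF : S.A ⊆ F) {u v : X} (h : IsoRel S.E S.c F {(u, v)}) :
    S.T0 u v :=
  ⟨u, v, S.refl (by rintro _ (rfl | rfl) <;> rfl), h.mono Subset.rfl hAF⟩

lemma inv₁ : S.Inv S.Φ₁ := fun _ hΛ _ _ _ _ _ _ hx hy hz h =>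
  ⟨h.1.transfer hΛ hx hz, h.2.transfer hΛ hz hy⟩

lemma inv₂ : S.Inv S.Φ₂ := fun _ hΛ _ _ _ _ _ _ hx hy hz h =>
  ⟨h.1.transfer hΛ hx hz, Large.transfer inv₁ hΛ hz hy h.2⟩

lemma R.transfer {Λ : Set (X × X)} (hΛ : S.Ev Λ) {u u' v v' : X} (hu : (u, u') ∈ Λ)
    (hv : (v, v') ∈ Λ) (h : S.R u v) : S.R u' v' := Large.transfer inv₂ hΛ hu hv h

lemma inv₃ : S.Inv S.Φ₃ := fun Λ hΛ _ _ _ _ _ _ hx hy hz h =>
  ⟨h.1.transfer hΛ hy hz, fun h' => h.2 (h'.transfer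
    (S.inv (Γ := {p | (p.2, p.1) ∈ Λ}) hΛ fun _ hp => hp) hx hz)⟩

lemma inv₄ : S.Inv S.Φ₄ := fun _ hΛ _ _ _ _ _ _ hx _ hz h =>
  ⟨h.1.transfer hΛ hx hz, h.2.transfer hΛ hx hz⟩

/-- uniform witnesses and tests for largeness in a family -/
def Unif (S : Setup V σ X) (C D : Set X) (Φ : X → X → X → Prop) : Prop :=
  ∀ x y, (S.Large {z | Φ x y z} → ∀ P : Set X, P.Finite → S.Good C P {z | Φ x y z}) ∧
    (S.Good C D {z | Φ x y z} → S.Large {z | Φ x y z})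

lemma exists_unif [Finite σ] (S : Setup V σ X) : ∃ C D : Set X, D.Finite ∧ C ⊆ D ∧
    S.Unif C D S.Φ₁ ∧ S.Unif C D S.Φ₂ ∧ S.Unif C D S.Φ₃ := by
  obtain ⟨C₁, a1, b1⟩ := unif_one (S := S) inv₁
  obtain ⟨C₂, a2, b2⟩ := unif_one (S := S) inv₂
  obtain ⟨C₃, a3, b3⟩ := unif_one (S := S) inv₃
  have hC := (a1.union a2).union a3
  obtain ⟨D₁, c1, d1⟩ := unif_two (S := S) inv₁ hC
  obtain ⟨D₂, c2, d2⟩ := unif_two (S := S) inv₂ hC
  obtain ⟨D₃, c3, d3⟩ := unif_two (S := S) inv₃ hC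
  refine ⟨_, _, hC.union ((c1.union c2).union c3), subset_union_left, fun x y => ⟨fun h P hP =>
    (b1 x y h P hP).mono ?_ Subset.rfl Subset.rfl, fun h => d1 x y (h.mono Subset.rfl ?_
    Subset.rfl)⟩, fun x y => ⟨fun h P hP =>
    (b2 x y h P hP).mono ?_ Subset.rfl Subset.rfl, fun h => d2 x y (h.mono Subset.rfl ?_
    Subset.rfl)⟩, fun x y => ⟨fun h P hP =>
    (b3 x y h P hP).mono ?_ Subset.rfl Subset.rfl, fun h => d3 x y (h.mono Subset.rfl ?_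
    Subset.rfl)⟩⟩ <;> intro a ha <;> simp [ha]

variable [Finite σ] {C D : Set X} {F : Set V} {K : Set (Set X)}

lemma free_step (hD : D.Finite) (hK : S.Tight D F K) (h1 : S.Unif C D S.Φ₁) {z z' y : X}
    (hzy : {z, y} ∈ K) (hz : IsoRel S.E S.c F {(z, z')}) (hf : Free S.E F (S.c z') (S.c y))
    (h : S.Large {w | S.Φ₁ z y w}) : S.Large {w | S.Φ₁ z' y w} := by
  obtain ⟨e, h2, -, h3, h4⟩ := realise hK hzy (toFinite _) inv₁ (Or.inl rfl) (Or.inr rfl)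
    ((h1 z y).1 h)
  obtain ⟨hF, hAF, -, -⟩ := hK
  set W : Set V := (fun t : X × σ => S.c (e t.1) t.2) '' (D ×ˢ univ) with hW
  have hWf : W.Finite := (hD.prod finite_univ).image _
  obtain ⟨f, h5, h6⟩ := S.iso_ext (hF.union hWf) (hAF.trans subset_union_left) finite_empty
    (IsoRel.refl fun _ hp => hp.elim) (finite_singleton z) (finite_range (S.c y))
  have h5' : IsoRel S.E S.c (F ∪ W) {(z, f z)} := h5.mono (by
    rintro _ rfl
    exact Or.inr ⟨rfl, rfl⟩) Subset.rfl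
  have h7 : S.Large {w | S.Φ₁ (f z) y w} := by
    refine (h1 _ _).2 ⟨e, h2, h3.mono Subset.rfl Subset.rfl ?_⟩
    rintro _ ⟨u, hu, rfl⟩ hw
    refine ⟨hw.1.transfer (Λ := {(z, f z), (e u, e u)}) (S.ofIso ((h5'.diag ?_).mono Subset.rfl
      (hAF.trans subset_union_left))) (Or.inl rfl) (Or.inr rfl), hw.2⟩
    rintro _ (rfl | rfl)
    · exact Or.inl rfl
    · exact Or.inr ⟨rfl, fun s => Or.inr ⟨(u, s), ⟨hu, trivial⟩, rfl⟩⟩
  have h5'' : IsoRel S.E S.c F {(z, f z)} := h5'.mono Subset.rfl subset_union_left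
  have h8 : Free S.E F (S.c (f z)) (S.c y) := by
    intro i j hi hj
    have h9 : S.c z i ∉ F := fun h => hi ((h5''.mem_iff rfl i).1 h)
    obtain ⟨h10, h11⟩ := h6 z rfl i (by
      rintro (h | ⟨⟨u, s⟩, ⟨hu, -⟩, h⟩)
      · exact h9 h
      · exact h9 (h4 u hu z (Or.inl rfl) s i h)) fun _ hp => hp.elim
    refine ⟨fun h => h10 ⟨j, h.symm⟩, fun h => ?_⟩
    rcases h11 _ ⟨j, rfl⟩ h with (h | ⟨⟨u, s⟩, ⟨hu, -⟩, h⟩) | ⟨_, h, -⟩
    · exact hj h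
    · exact hj (h4 u hu y (Or.inr rfl) s j h)
    · exact h
  refine Large.transfer inv₁ (Λ := {(f z, z'), (y, y)}) (S.ofIso ((isoRel_pair
    (EH.free_unique S.hE.symm ((isoRel_single.1 h5'').symm.trans (isoRel_single.1 hz))
      (EH.refl _) h8 hf)).mono Subset.rfl hAF)) (Or.inl rfl) (Or.inr rfl) h7

lemma move_step (hD : D.Finite) (hK : S.Tight D F K) (h1 : S.Unif C D S.Φ₁)
    (h2 : S.Unif C D S.Φ₂) {x x' y : X} (hxy : {x, y} ∈ K) (hx : IsoRel S.E S.c F {(x, x')})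
    (hy : ∀ s t, S.c y s = S.c x' t → S.c x' t ∈ F) (h : S.R x y) : S.R x' y := by
  obtain ⟨e, h3, h4, h5, h6⟩ := realise hK hxy (toFinite _) inv₂ (Or.inl rfl) (Or.inr rfl)
    ((h2 x y).1 h)
  obtain ⟨f, h7, h8⟩ := S.iso_ext hK.1 hK.2.1 (finite_singleton _) hx (hD.image e)
    (finite_range (S.c y))
  have h7' := S.ofIso (h7.mono Subset.rfl hK.2.1)
  refine (h2 _ _).2 ⟨f ∘ e, S.cmp h3 h7' ?_, h5.transfer (Λ := gr f (e '' D))
    (S.mono h7' subset_union_right) ?_ ?_⟩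
  · rintro ⟨a, b⟩ ⟨h9, h10⟩
    exact ⟨e a, ⟨h9, rfl⟩, Or.inr ⟨⟨a, h9, rfl⟩, h10⟩⟩
  · rintro _ ⟨a, ha, rfl⟩
    exact ⟨e a, ⟨a, ha, rfl⟩, ⟨a, ha, rfl⟩, rfl⟩
  · rintro _ ⟨u, hu, rfl⟩ z' hz hw
    obtain rfl : z' = f (e u) := hz.2
    refine ⟨hw.1.transfer h7' (Or.inl rfl) (Or.inr hz), free_step hD hK h1
      (hK.2.2.1.prop.1.sub h4 ?_) (h7.mono (singleton_subset_iff.2 (Or.inr hz)) Subset.rfl)
      ?_ hw.2⟩
    · rintro _ (rfl | rfl)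
      · exact Or.inr ⟨u, hu, rfl⟩
      · exact Or.inl (Or.inr rfl)
    · intro i j hi hj
      have h9 : S.c (e u) i ∉ F := fun h => hi ((h7.mem_iff (Or.inr hz) i).1 h)
      obtain ⟨h10, h11⟩ := h8 (e u) ⟨u, hu, rfl⟩ i h9 (by
        rintro _ rfl t h
        exact h9 (h ▸ h6 u hu x (Or.inl rfl) i t h.symm))
      refine ⟨fun h => h10 ⟨j, h.symm⟩, fun h => ?_⟩
      rcases h11 _ ⟨j, rfl⟩ h with h | ⟨_, rfl, t, h⟩
      · exact hj h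
      · exact hj (h ▸ hy j t h.symm)

/-- the thick relation attached to a system -/
def T (S : Setup V σ X) (F : Set V) (K : Set (Set X)) (x x' : X) : Prop :=
  ∃ u u', S.Ev {(x, u), (x', u')} ∧ {u, u'} ∈ K ∧ IsoRel S.E S.c F {(u, u')}

omit [Finite σ] in
lemma T.transfer {Λ : Set (X × X)} (hΛ : S.Ev Λ) {u u' v v' : X} (hu : (u, u') ∈ Λ)
    (hv : (v, v') ∈ Λ) (h : S.T F K u v) : S.T F K u' v' := by
  obtain ⟨u₁, v₁, h1, h2⟩ := h
  refine ⟨u₁, v₁, S.cmp (S.inv (Γ := {p | (p.2, p.1) ∈ Λ}) hΛ fun _ hp => hp) h1 ?_, h2⟩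
  rintro _ (rfl | rfl)
  · exact ⟨u, hu, Or.inl rfl⟩
  · exact ⟨v, hv, Or.inr rfl⟩

lemma T.small (hD : D.Finite) (hCD : C ⊆ D) (hK : S.Tight D F K) (h1 : S.Unif C D S.Φ₁)
    (h2 : S.Unif C D S.Φ₂) (h3 : S.Unif C D S.Φ₃) {x x' : X} (h : S.T F K x x') :
    ¬ S.Large {y | S.Φ₃ x' x y} := by
  obtain ⟨u, u', h4, h5, h6⟩ := h
  intro h7
  obtain ⟨e, h8, h9, h10, h11⟩ := realise hK h5 (toFinite _) inv₃ (Or.inr rfl) (Or.inl rfl)
    ((h3 u' u).1 (Large.transfer inv₃ h4 (Or.inr rfl) (Or.inl rfl) h7))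
  obtain ⟨y, hy, h12, h13⟩ := h10 e (S.mono h8 fun _ hp => ⟨hCD hp.1, hp.2⟩)
    fun y hy => ⟨y, hCD hy, rfl⟩
  refine h13 (move_step hD hK h1 h2 (hK.2.2.1.prop.1.sub h9 ?_) h6
    (h11 y (hCD hy) u' (Or.inr rfl)) h12)
  rintro _ (rfl | rfl)
  · exact Or.inl (Or.inl rfl)
  · exact Or.inr ⟨y, hCD hy, rfl⟩

lemma T.thick (hF : F.Finite) (hK : S.Full K) (hc : S.Closed F K) : ∃ k : ℕ, ∀ a : ℕ → X,
    ∃ i < k, ∃ j < i, S.T F K (a i) (a j) := by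
  obtain ⟨τ, h1, h2⟩ := exists_code S.E S.c hF Unit
  have := h1.to_subtype
  refine ⟨Nat.card (range τ) + 1, fun a => ?_⟩
  obtain ⟨f, h3, h4⟩ := hK (a '' Iio (Nat.card (range τ) + 1)) ((finite_Iio _).image a)
  have h5 : ¬ Function.Injective fun i : Fin (Nat.card (range τ) + 1) =>
      (⟨τ fun _ => f (a i), _, rfl⟩ : range τ) := fun h => by
    have := Nat.card_le_card_of_injective _ h
    rw [Nat.card_fin] at this
    exact Nat.not_succ_le_self _ this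
  have h6 : ∀ i j : Fin (Nat.card (range τ) + 1), τ (fun _ => f (a i)) = τ (fun _ => f (a j)) →
      S.T F K (a i) (a j) := by
    intro i j h
    refine ⟨f (a i), f (a j), S.mono h3 ?_, hc.sub h4 ?_, (h2 _ _ h).mono ?_ Subset.rfl⟩
    · rintro _ (rfl | rfl)
      · exact ⟨⟨i, i.2, rfl⟩, rfl⟩
      · exact ⟨⟨j, j.2, rfl⟩, rfl⟩
    · rintro _ (rfl | rfl)
      · exact ⟨_, ⟨i, i.2, rfl⟩, rfl⟩
      · exact ⟨_, ⟨j, j.2, rfl⟩, rfl⟩
    · rintro _ rfl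
      exact ⟨(), rfl⟩
  obtain ⟨i, j, h7, h8⟩ := Function.not_injective_iff.1 h5
  have h9 := congrArg Subtype.val h7
  rcases lt_or_gt_of_ne h8 with h | h
  · exact ⟨j, j.2, i, h, h6 j i h9.symm⟩
  · exact ⟨i, i.2, j, h, h6 i j h9⟩

lemma free_copy (S : Setup V σ X) (x : X) {U : Set V} (hU : U.Finite) :
    ∃ z, EH S.E S.A (S.c x) (S.c z) ∧ ∀ y, range (S.c y) ⊆ U → Free S.E S.A (S.c z) (S.c y) := by
  obtain ⟨d, h1, h2⟩ := S.hE.free_copy S.hA (S.c x) hU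
  obtain ⟨z, rfl⟩ := S.cl x d h1
  refine ⟨z, h1, fun y hy i j hi hj => ?_⟩
  obtain ⟨h3, h4⟩ := h2 i fun h => hi ((h1.mem_iff i).1 h)
  exact ⟨fun h => h3 (hy ⟨j, h.symm⟩), fun h => hj (h4 _ (hy ⟨j, rfl⟩) h)⟩

lemma free_seq (S : Setup V σ X) (x : X) (k : ℕ) : ∃ a : ℕ → X,
    (∀ i, EH S.E S.A (S.c x) (S.c (a i))) ∧
      ∀ i < k, ∀ j < i, Free S.E S.A (S.c (a i)) (S.c (a j)) := by
  classical
  induction k with
  | zero => exact ⟨fun _ => x, fun _ => EH.refl _, by simp⟩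
  | succ k ih =>
    obtain ⟨a, h1, h2⟩ := ih
    obtain ⟨z, h3, h4⟩ := S.free_copy x (U := ⋃ j ∈ Iio k, range (S.c (a j)))
      ((finite_Iio k).biUnion fun _ _ => finite_range _)
    refine ⟨Function.update a k z, fun i => ?_, fun i hi j hj => ?_⟩
    · rcases eq_or_ne i k with rfl | h
      · rwa [Function.update_self]
      · rw [Function.update_of_ne h]
        exact h1 i
    · rcases (Nat.lt_succ_iff.1 hi).eq_or_lt with rfl | h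
      · rw [Function.update_self, Function.update_of_ne hj.ne]
        exact h4 _ (subset_biUnion_of_mem (u := fun j => range (S.c (a j))) hj)
      · rw [Function.update_of_ne h.ne, Function.update_of_ne (hj.trans h).ne]
        exact h2 i h j hj

lemma T.of_free (hF : F.Finite) (hK : S.Full K) (hc : S.Closed F K) {u v : X}
    (h : EH S.E S.A (S.c u) (S.c v)) (hf : Free S.E S.A (S.c u) (S.c v)) : S.T F K u v := by
  obtain ⟨k, hk⟩ := T.thick hF hK hc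
  obtain ⟨a, h1, h2⟩ := S.free_seq u k
  obtain ⟨i, hi, j, hj, h3⟩ := hk a
  exact h3.transfer (S.ofIso (isoRel_pair (EH.free_unique S.hE.symm (h1 i).symm
    ((h1 j).symm.trans h) (h2 i hi j hj) hf))) (Or.inl rfl) (Or.inr rfl)

lemma T0.two (hF : F.Finite) (hK : S.Full K) (hc : S.Closed F K) {u v : X} (h : S.T0 u v) :
    ∃ z, S.T F K u z ∧ S.T F K z v := by
  obtain ⟨u₁, v₁, h1, h2⟩ := h
  rw [isoRel_single] at h2
  obtain ⟨z, h3, h4⟩ := S.free_copy u₁ ((finite_range (S.c u₁)).union (finite_range (S.c v₁)))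
  obtain ⟨z', h5⟩ := S.forth (Λ := {(u₁, u), (v₁, v)}) (toFinite _) (S.inv h1 (by
    rintro _ (rfl | rfl)
    · exact Or.inl rfl
    · exact Or.inr rfl)) z
  refine ⟨z', (T.of_free hF hK hc h3 fun i j hi hj => ?_).transfer h5 (Or.inr (Or.inl rfl))
    (Or.inl rfl), (T.of_free hF hK hc (h3.symm.trans h2) (h4 _ subset_union_right)).transfer h5
    (Or.inl rfl) (Or.inr (Or.inr rfl))⟩
  obtain ⟨h6, h7⟩ := h4 u₁ subset_union_left j i hj hi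
  exact ⟨h6.symm, fun h => h7 (S.hE.symm _ _ h)⟩

omit [Finite σ] in
lemma large_four (hAF : S.A ⊆ F) (hK : Minimal (S.Sys F) K) (x : X) :
    S.Large {y | S.Φ₄ x x y} := by
  obtain ⟨f, h1, h2⟩ := hK.prop.2 {x} (finite_singleton x)
  rw [image_singleton] at h2
  refine Large.transfer inv₄ (S.inv (Γ := {(f x, x)}) h1 (by
    rintro _ rfl
    exact ⟨rfl, rfl⟩)) rfl rfl ?_
  have h3 := large_class hK h2
  have h4 : ∀ u v, IsoRel S.E S.c F {(f x, u)} → IsoRel S.E S.c F {(f x, v)} → S.T0 u v :=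
    fun u v hu hv => T0.of_iso hAF
      (isoRel_single.2 ((isoRel_single.1 hu).symm.trans (isoRel_single.1 hv)))
  exact h3.mono fun y hy => ⟨T0.of_iso hAF hy, h3.mono fun z hz => ⟨T0.of_iso hAF hz,
    h3.mono fun w hw => ⟨h4 _ _ hz hw, h4 _ _ hw hy⟩⟩⟩

theorem four (S : Setup V σ X) {x y : X} (h : Relation.ReflTransGen S.T0 x y) :
    ∃ x₁ x₂ x₃, S.T0 x x₁ ∧ S.T0 x₁ x₂ ∧ S.T0 x₂ x₃ ∧ S.T0 x₃ y := by
  obtain ⟨C, D, hD, hCD, h1, h2, h3⟩ := S.exists_unif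
  obtain ⟨F, K, hK⟩ := S.exists_tight hD
  have step : ∀ {W : Set X} {u v : X}, S.T F K u v → S.Large (W ∩ {z | S.R u z}) →
      S.Large (W ∩ {z | S.R v z}) := by
    intro W u v huv hl
    refine (Large.union (W' := {z | S.Φ₃ v u z}) (hl.mono fun z hz => ?_)).resolve_right
      (huv.small hD hCD hK h1 h2 h3)
    by_cases h4 : S.R v z
    · exact Or.inl ⟨hz.1, h4⟩
    · exact Or.inr ⟨hz.2, h4⟩
  have h4 : S.Large ({z | S.T0 x z} ∩ {z | S.R y z}) := by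
    induction h with
    | refl => exact large_four hK.2.1 hK.2.2.1 x
    | tail _ huv ih =>
      obtain ⟨z, h5, h6⟩ := huv.two hK.1 hK.2.2.1.prop.2 hK.2.2.1.prop.1
      exact step h6 (step h5 ih)
  obtain ⟨x₁, h5, h6⟩ := h4.nonempty
  obtain ⟨x₃, h7, h8⟩ := Large.nonempty h6
  obtain ⟨x₂, h9, h10⟩ := h8.nonempty
  exact ⟨x₁, x₂, x₃, h5, h10.symm, h9.symm, h7.symm⟩

end Setup

end H90

/-- one elementary move between tuples -/
def T0 {V : Type*} (E : V → V → Prop) (A : Set V) {σ : Type*} (X : Set (σ → V))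
    (Eqv : ∀ {κ : Type}, (κ → X) → (κ → X) → Prop) (u v : X) : Prop :=
  ∃ u₁ v₁ : X, Eqv ![u, v] ![u₁, v₁] ∧ EH E A u₁.1 v₁.1

theorem core90 {V : Type*} {E : V → V → Prop} {n : ℕ} (hE : Hen E n) {A : Set V} (hA : A.Finite)
    {σ : Type*} [Finite σ] (X : Set (σ → V))
    (hX : ∀ a b : σ → V, EH E A a b → a ∈ X → b ∈ X)
    (Eqv : ∀ {κ : Type}, (κ → X) → (κ → X) → Prop)
    (hsymm : ∀ {κ} {a b : κ → X}, Eqv a b → Eqv b a)
    (htrans : ∀ {κ} {a b c : κ → X}, Eqv a b → Eqv b c → Eqv a c)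
    (hcomp : ∀ {κ κ' : Type} {a b : κ → X} (f : κ' → κ), Eqv a b → Eqv (a ∘ f) (b ∘ f))
    (hcoarse : ∀ {κ : Type} {a b : κ → X},
      EH E A (fun p : κ × σ => (a p.1).1 p.2) (fun p => (b p.1).1 p.2) → Eqv a b)
    (hforth : ∀ {κ ζ : Type} [Finite κ] [Finite ζ] {a b : κ → X}, Eqv a b → ∀ c : ζ → X,
      ∃ d : ζ → X, Eqv (Sum.elim a c) (Sum.elim b d))
    {x y : X} (h : Relation.ReflTransGen (T0 E A X Eqv) x y) :
    ∃ x₁ x₂ x₃ : X, T0 E A X Eqv x x₁ ∧ T0 E A X Eqv x₁ x₂ ∧ T0 E A X Eqv x₂ x₃ ∧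
      T0 E A X Eqv x₃ y := by
  let S : H90.Setup V σ X :=
    { E := E, n := n, hE := hE, A := A, hA := hA, c := fun x => x.1
      cl := fun x b h => ⟨⟨b, hX _ _ h x.2⟩, rfl⟩
      Ev := fun Λ => ∀ (κ : Type) [Finite κ] (a b : κ → X), (∀ i, (a i, b i) ∈ Λ) → Eqv a b
      inv := fun h hs κ _ a b hab => hsymm (h κ b a fun i => hs _ (hab i))
      cmp := fun h h' hs κ _ a b hab => by
        choose m hm hm' using fun i => hs _ (hab i)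
        exact htrans (h κ a m hm) (h' κ m b hm')
      ofIso := fun h κ _ a b hab => hcoarse (H90.isoRel_range.1 (h.mono (by
        rintro _ ⟨i, rfl⟩
        exact hab i) Subset.rfl))
      forth := fun {Λ} hΛ h x => by
        obtain ⟨k, t, -, ht⟩ := hΛ.fin_param
        obtain ⟨d, hd⟩ := hforth (h (Fin k) (fun i => (t i).1) (fun i => (t i).2)
          fun i => ht ▸ ⟨i, rfl⟩) fun _ : Unit => x
        refine ⟨d (), fun κ _ a b hab => ?_⟩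
        have h1 : ∀ i, ∃ j : Fin k ⊕ Unit, Sum.elim (fun i => (t i).1) (fun _ => x) j = a i ∧
            Sum.elim (fun i => (t i).2) d j = b i := by
          intro i
          rcases hab i with h1 | h1
          · exact ⟨Sum.inr (), (congrArg Prod.fst h1).symm, (congrArg Prod.snd h1).symm⟩
          · obtain ⟨j, hj⟩ := ht.symm ▸ h1
            exact ⟨Sum.inl j, congrArg Prod.fst hj, congrArg Prod.snd hj⟩
        choose j hj hj' using h1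
        rw [← funext hj, ← funext hj']
        exact hcomp j hd }
  have key : ∀ u v, S.T0 u v ↔ T0 E A X Eqv u v := by
    intro u v
    refine exists_congr fun u₁ => exists_congr fun v₁ => and_congr ⟨fun h1 => h1 _ _ _ ?_,
      fun h1 κ _ a b hab => ?_⟩ H90.isoRel_single
    · intro i
      fin_cases i
      · exact Or.inl rfl
      · exact Or.inr rfl
    · have h2 : ∀ i, ∃ j : Fin 2, ![u, v] j = a i ∧ ![u₁, v₁] j = b i := by
        intro i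
        rcases hab i with h2 | h2
        · exact ⟨0, (congrArg Prod.fst h2).symm, (congrArg Prod.snd h2).symm⟩
        · exact ⟨1, (congrArg Prod.fst h2).symm, (congrArg Prod.snd h2).symm⟩
      choose j hj hj' using h2
      rw [← funext hj, ← funext hj']
      exact hcomp j h1
  simp only [← key]
  exact S.four (Relation.ReflTransGen.mono (fun u v => (key u v).2) _ _ h)

end Pool.Agent.Work.MP_11a3f4_lc
end
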