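import Mathlib

/-! Definitions used in the statement: Henson class, saturation, Lascar distance, G-compactness. -/

namespace Pool.Agent.Work.MP_11a3f4_lc

open FirstOrder FirstOrder.Language Cardinal

universe u v w

/-- The class of finite `K_n`-free simple graphs, as structures in the language of graphs. -/
def hensonClass (n : ℕ) : Set (CategoryTheory.Bundled.{w} Language.graph.Structure) :=
  {N | Finite N ∧ N ⊨ Theory.simpleGraph ∧
    ¬ ∃ f : Fin n → N, ∀ i j, i ≠ j → Structure.RelMap Language.adj ![f i, f j]}

/-- `C` is `κ`-saturated: for every parameter set `B` of size less than `κ`, every family of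
`B`-definable subsets of `C` with the finite intersection property has a common point. -/
def Saturated (L : FirstOrder.Language.{u, v}) (C : Type w) [L.Structure C] (κ : Cardinal.{w}) : Prop :=
  ∀ B : Set C, #B < κ → ∀ p : Set (Set C), (∀ D ∈ p, B.Definable₁ L D) →
    (∀ q ⊆ p, q.Finite → (⋂₀ q).Nonempty) → (⋂₀ p).Nonempty

/-- The tuples `a` and `b` have the same type over `B`. -/
def SameType (L : FirstOrder.Language.{u, v}) {C : Type w} [L.Structure C] (B : Set C) {ι : Type w}
    (a b : ι → C) : Prop :=
  ∀ D : Set (ι → C), B.Definable L D → (a ∈ D ↔ b ∈ D)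

/-- Lascar distance at most `n`: a chain `a = c 0, …, c n = b` whose consecutive members have the
same type over an elementary substructure of size less than `κ`. -/
def LascarLe (L : FirstOrder.Language.{u, v}) {C : Type w} [L.Structure C] (κ : Cardinal.{w}) (n : ℕ)
    {ι : Type w} (a b : ι → C) : Prop :=
  ∃ (c : Fin (n + 1) → ι → C) (S : Fin n → L.ElementarySubstructure C),
    c 0 = a ∧ c (Fin.last n) = b ∧
      ∀ i : Fin n, #(S i) < κ ∧ SameType L (S i : Set C) (c i.castSucc) (c i.succ)

/-- `T` is `n`-G-compact: in every `κ`-saturated model of `T`, `κ` uncountable and larger than the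
language, small tuples at finite Lascar distance are at Lascar distance at most `n`. -/
def NGCompact {L : FirstOrder.Language.{u, v}} (T : L.Theory) (n : ℕ) : Prop :=
  ∀ (C : Type w) [L.Structure C] (κ : Cardinal.{w}), C ⊨ T → ℵ₀ < κ →
    Cardinal.lift.{w} L.card < Cardinal.lift.{max u v} κ → Saturated L C κ →
      ∀ (ι : Type w), #ι < κ → ∀ a b : ι → C, (∃ m, LascarLe L κ m a b) → LascarLe L κ n a b

end Pool.Agent.Work.MP_11a3f4_lc
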