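import Pool.Agent.Work.MP_11a3f4_lc.Defs

/-! Interpretations with parameters. -/

namespace Pool.Agent.Work.MP_11a3f4_lc

open FirstOrder FirstOrder.Language

/-- The preimage of a relation `R` on `N` under the coordinate map `π : D → N`, `D ⊆ M^l`, as a
set of `α × l` matrices over `M`. -/
def pull {M N : Type*} {l : ℕ} {D : Set (Fin l → M)} (π : D → N) {α : Type}
    (R : Set (α → N)) : Set (α × Fin l → M) :=
  {x | ∃ a : α → D, (∀ i j, x (i, j) = (a i).1 j) ∧ π ∘ a ∈ R}

/-- The `L`-structure `N` is interpretable with parameters in the `L₀`-structure `M`: there are a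
definable `D ⊆ M^l` and a surjection `π : D → N` such that the preimages of equality, of every
basic relation and of the graph of every basic function of `N` are definable in `M`, with
parameters allowed throughout. -/
def Interpretable (L L₀ : FirstOrder.Language) (N M : Type*) [L.Structure N] [L₀.Structure M] :
    Prop :=
  ∃ (l : ℕ) (D : Set (Fin l → M)) (π : D → N), Function.Surjective π ∧
    (Set.univ : Set M).Definable L₀ D ∧
    (Set.univ : Set M).Definable L₀ (pull π {y : Fin 2 → N | y 0 = y 1}) ∧
    (∀ (k : ℕ) (r : L.Relations k),
      (Set.univ : Set M).Definable L₀ (pull π {y : Fin k → N | Structure.RelMap r y})) ∧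
    (∀ (k : ℕ) (f : L.Functions k),
      (Set.univ : Set M).Definable L₀
        (pull π {y : Option (Fin k) → N | Structure.funMap f (fun i => y (some i)) = y none}))

end Pool.Agent.Work.MP_11a3f4_lc
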