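import Pool.Agent.Work.MP_11a3f4_lc.Main
import Pool.Agent.Work.MP_11a3f4_lc.Defs2

-- merged part: Pool.Agent.Work.MP_11a3f4_lc.Interp1
section
/-! Interpretations: types with respect to invariant formulas. -/

namespace Pool.Agent.Work.MP_11a3f4_lc

open Set FirstOrder FirstOrder.Language

/-- A coordinate map of an interpretation. -/
structure Itp (M N : Type*) where
  l : ℕ
  D : Set (Fin l → M)
  π : D → N
  surj : Function.Surjective π

variable {M N : Type*}

/-- The coordinates of a tuple of points of the domain. -/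
def Itp.flat (I : Itp M N) {ι : Type*} (a : ι → I.D) : ι × Fin I.l → M := fun p => (a p.1).1 p.2

/-- The tuples have lifts with the same graph type over `A`. -/
def EN (I : Itp M N) (E : M → M → Prop) (A : Set M) {ι : Type*} (a b : ι → N) : Prop :=
  ∃ a' b' : ι → I.D, I.π ∘ a' = a ∧ I.π ∘ b' = b ∧ EH E A (I.flat a') (I.flat b')

/-- The domain and the kernel are invariant over the finite set `A`. -/
structure Itp.Ok (I : Itp M N) (E : M → M → Prop) (A : Set M) : Prop where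
  fin : A.Finite
  dom : ∀ x y : Fin I.l → M, EH E A x y → x ∈ I.D → y ∈ I.D
  ker : ∀ a b : Fin 2 → I.D, EH E A (I.flat a) (I.flat b) → I.π (a 0) = I.π (a 1) →
    I.π (b 0) = I.π (b 1)

section
variable {I : Itp M N} {E : M → M → Prop} {A : Set M} {ι κ ζ : Type*} {n : ℕ}

theorem Itp.Ok.mono {A' : Set M} (h : I.Ok E A) (hs : A ⊆ A') (hA' : A'.Finite) : I.Ok E A' :=
  ⟨hA', fun x y hxy => h.dom x y (hxy.anti hs), fun a b hab => h.ker a b (hab.anti hs)⟩

theorem flat_comp {a b : ι → I.D} (h : EH E A (I.flat a) (I.flat b)) (f : κ → ι)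
    {a' b' : κ → I.D} (ha : ∀ k, a' k = a (f k)) (hb : ∀ k, b' k = b (f k)) :
    EH E A (I.flat a') (I.flat b') :=
  h.of_comp (Prod.map f id) (fun p => by simp [Itp.flat, ha]) (fun p => by simp [Itp.flat, hb])

theorem flat_eq (hI : I.Ok E A) {a b : ι → I.D} (h : EH E A (I.flat a) (I.flat b)) (i j : ι)
    (he : I.π (a i) = I.π (a j)) : I.π (b i) = I.π (b j) :=
  hI.ker ![a i, a j] ![b i, b j] (flat_comp h ![i, j] (fun k => by fin_cases k <;> rfl)
    (fun k => by fin_cases k <;> rfl)) he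

theorem flat_forth (hE : Hen E n) (hI : I.Ok E A) [Finite ι] [Finite ζ] {a b : ι → I.D}
    (h : EH E A (I.flat a) (I.flat b)) (c : ζ → I.D) :
    ∃ d : ζ → I.D, EH E A (I.flat (Sum.elim a c)) (I.flat (Sum.elim b d)) := by
  obtain ⟨d, hd, -⟩ := hE.amalg hI.fin h (I.flat c) finite_empty
  refine ⟨fun s => ⟨fun j => d (s, j), hI.dom (c s).1 _
    (hd.of_comp (fun j => Sum.inr (s, j)) (fun _ => rfl) (fun _ => rfl)) (c s).2⟩, ?_⟩
  refine hd.of_comp (fun p => Sum.map (fun i => (i, p.2)) (fun s => (s, p.2)) p.1) ?_ ?_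
  · rintro ⟨_ | _, _⟩ <;> rfl
  · rintro ⟨_ | _, _⟩ <;> rfl

theorem Itp.lift (I : Itp M N) (a : ι → N) : ∃ a' : ι → I.D, I.π ∘ a' = a := by
  choose a' ha' using fun i => I.surj (a i)
  exact ⟨a', funext ha'⟩

theorem EN.refl (a : ι → N) : EN I E A a a := by
  obtain ⟨a', h⟩ := I.lift a
  exact ⟨a', a', h, h, EH.refl _⟩

theorem EN.symm {a b : ι → N} (h : EN I E A a b) : EN I E A b a := by
  obtain ⟨a', b', h1, h2, h3⟩ := h
  exact ⟨b', a', h2, h1, h3.symm⟩

theorem EN.strong (hE : Hen E n) (hI : I.Ok E A) [Finite ι] {a b : ι → N} (h : EN I E A a b)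
    (a' : ι → I.D) (ha : I.π ∘ a' = a) :
    ∃ b' : ι → I.D, I.π ∘ b' = b ∧ EH E A (I.flat a') (I.flat b') := by
  obtain ⟨a₁, b₁, h1, h2, h3⟩ := h
  obtain ⟨d, hd⟩ := flat_forth hE hI h3 a'
  refine ⟨d, funext fun i => ?_, flat_comp hd Sum.inr (fun _ => rfl) (fun _ => rfl)⟩
  have := flat_eq hI hd (Sum.inr i) (Sum.inl i) ((congrFun ha i).trans (congrFun h1 i).symm)
  exact this.trans (congrFun h2 i)

theorem EN.trans (hE : Hen E n) (hI : I.Ok E A) [Finite ι] {a b c : ι → N} (h : EN I E A a b)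
    (h' : EN I E A b c) : EN I E A a c := by
  obtain ⟨a', b', h1, h2, h3⟩ := h
  obtain ⟨c', h4, h5⟩ := h'.strong hE hI b' h2
  exact ⟨a', c', h1, h4, h3.trans h5⟩

theorem EN.comp {a b : ι → N} (h : EN I E A a b) (f : κ → ι) : EN I E A (a ∘ f) (b ∘ f) := by
  obtain ⟨a', b', rfl, rfl, h3⟩ := h
  exact ⟨a' ∘ f, b' ∘ f, rfl, rfl, flat_comp h3 f (fun _ => rfl) (fun _ => rfl)⟩

theorem EN.of_comp {a b : ι → N} (h : EN I E A a b) (f : κ → ι)
    {a' b' : κ → N} (ha : ∀ k, a' k = a (f k)) (hb : ∀ k, b' k = b (f k)) : EN I E A a' b' := by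
  have e1 : a' = a ∘ f := funext ha
  have e2 : b' = b ∘ f := funext hb
  rw [e1, e2]
  exact h.comp f

theorem EN.anti {A' : Set M} {a b : ι → N} (h : EN I E A a b) (hs : A' ⊆ A) : EN I E A' a b := by
  obtain ⟨a', b', h1, h2, h3⟩ := h
  exact ⟨a', b', h1, h2, h3.anti hs⟩

theorem EN.eq_iff (hI : I.Ok E A) {a b : ι → N} (h : EN I E A a b) (i j : ι) :
    a i = a j ↔ b i = b j := by
  obtain ⟨a', b', rfl, rfl, h3⟩ := h
  exact ⟨flat_eq hI h3 i j, flat_eq hI h3.symm i j⟩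

theorem EN.forth (hE : Hen E n) (hI : I.Ok E A) [Finite ι] [Finite ζ] {a b : ι → N}
    (h : EN I E A a b) (c : ζ → N) : ∃ d : ζ → N, EN I E A (Sum.elim a c) (Sum.elim b d) := by
  obtain ⟨a', b', rfl, rfl, h3⟩ := h
  obtain ⟨c', rfl⟩ := I.lift c
  obtain ⟨d, hd⟩ := flat_forth hE hI h3 c'
  exact ⟨I.π ∘ d, Sum.elim a' c', Sum.elim b' d, Sum.comp_elim _ _ _, Sum.comp_elim _ _ _, hd⟩

theorem EN.finite_reps (I : Itp M N) (E : M → M → Prop) (hA : A.Finite) (ι : Type*) [Finite ι] :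
    ∃ S : Set (ι → N), S.Finite ∧ ∀ a : ι → N, ∃ r ∈ S, EN I E A a r := by
  obtain ⟨S, hS, hrep⟩ := EH.finite_reps E hA (ι × Fin I.l)
  have : Finite {r : ι × Fin I.l → M // r ∈ S ∧ ∃ a : ι → I.D, EH E A (I.flat a) r} :=
    (hS.subset (fun r (hr : r ∈ S ∧ ∃ a : ι → I.D, EH E A (I.flat a) r) => hr.1)).to_subtype
  refine ⟨range fun r : {r : ι × Fin I.l → M // r ∈ S ∧ ∃ a : ι → I.D, EH E A (I.flat a) r} =>
    I.π ∘ r.2.2.choose, finite_range _, fun a => ?_⟩
  obtain ⟨a', rfl⟩ := I.lift a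
  obtain ⟨r, hr, h⟩ := hrep (I.flat a')
  have hex : ∃ a : ι → I.D, EH E A (I.flat a) r := ⟨a', h⟩
  exact ⟨_, ⟨⟨r, hr, hex⟩, rfl⟩, a', hex.choose, rfl, rfl, h.trans hex.choose_spec.symm⟩

/-- A free copy of `w` sees `p` and `p'` in the same way. -/
theorem EN.free_copy (hE : Hen E n) (hI : I.Ok E A) [Finite ι] [Finite ζ] {p p' : ι → N}
    (h : EN I E A p p') (w : ζ → N) :
    ∃ w' : ζ → N, EN I E A w w' ∧ EN I E A (Sum.elim p w') (Sum.elim p' w') := by
  obtain ⟨a, b, rfl, rfl, h3⟩ := h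
  obtain ⟨c, rfl⟩ := I.lift w
  obtain ⟨d, h4, h5⟩ := hE.free_copy hI.fin (I.flat c)
    ((finite_range (I.flat a)).union (finite_range (I.flat b)))
  let d' : ζ → I.D := fun s => ⟨fun j => d (s, j), hI.dom (c s).1 _
    (h4.of_comp (fun j => (s, j)) (fun _ => rfl) (fun _ => rfl)) (c s).2⟩
  have hfree : ∀ t : ι × Fin I.l → M, range t ⊆ range (I.flat a) ∪ range (I.flat b) →
      Free E A t d := by
    intro t ht i j hi hj
    have hj' : I.flat c j ∉ A := fun hh => hj ((h4.mem_iff j).1 hh)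
    obtain ⟨h6, h7⟩ := h5 j hj'
    exact ⟨fun he => h6 (he ▸ ht ⟨i, rfl⟩), fun he => hi (h7 _ (ht ⟨i, rfl⟩) (hE.symm _ _ he))⟩
  have h6 := EH.free_unique hE.symm h3 (EH.refl d) (hfree _ subset_union_left)
    (hfree _ subset_union_right)
  refine ⟨I.π ∘ d', ⟨c, d', rfl, rfl, h4⟩, Sum.elim a d', Sum.elim b d', Sum.comp_elim _ _ _,
    Sum.comp_elim _ _ _, ?_⟩
  refine h6.of_comp (fun p => Sum.map (fun i => (i, p.2)) (fun s => (s, p.2)) p.1) ?_ ?_
  · rintro ⟨_ | _, _⟩ <;> rfl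
  · rintro ⟨_ | _, _⟩ <;> rfl

end

variable {L : FirstOrder.Language} [L.Structure N]

/-- The formula is invariant in `N` under `EN`. -/
def InvN (I : Itp M N) (E : M → M → Prop) (A : Set M) {ι : Type*} (φ : L.Formula ι) : Prop :=
  ∀ a b : ι → N, EN I E A a b → (φ.Realize a ↔ φ.Realize b)

/-- Two tuples (in possibly different structures) satisfy the same invariant formulas. -/
def XN (L : FirstOrder.Language) [L.Structure N] (I : Itp M N) (E : M → M → Prop) (A : Set M)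
    {P Q : Type*} [L.Structure P] [L.Structure Q] {ι : Type*} (a : ι → P) (b : ι → Q) : Prop :=
  ∀ φ : L.Formula ι, InvN I E A φ → (φ.Realize a ↔ φ.Realize b)

section
variable {I : Itp M N} {E : M → M → Prop} {A : Set M} {ι κ ζ : Type*} {n : ℕ}
variable {P Q Q' : Type*} [L.Structure P] [L.Structure Q] [L.Structure Q']

theorem InvN.relabel {φ : L.Formula ι} (h : InvN I E A φ) (f : ι → κ) :
    InvN I E A (φ.relabel f) := by
  intro a b hab
  simp only [Formula.realize_relabel]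
  exact h _ _ (hab.comp f)

theorem InvN.not {φ : L.Formula ι} (h : InvN I E A φ) : InvN I E A φ.not := by
  intro a b hab
  simp only [Formula.realize_not, h a b hab]

theorem InvN.mono {A' : Set M} {φ : L.Formula ι} (h : InvN I E A φ) (hs : A ⊆ A') :
    InvN I E A' φ :=
  fun a b hab => h a b (hab.anti hs)

theorem InvN.iInf {β : Type*} [Finite β] {f : β → L.Formula ι} (h : ∀ b, InvN I E A (f b)) :
    InvN I E A (Formula.iInf f) := by
  intro a b hab
  simp only [Formula.realize_iInf]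
  exact forall_congr' fun i => h i a b hab

theorem InvN.iExs (hE : Hen E n) (hI : I.Ok E A) [Finite ι] [Finite ζ]
    {φ : L.Formula (ι ⊕ ζ)} (h : InvN I E A φ) : InvN I E A (φ.iExs ζ) := by
  have : ∀ a b : ι → N, EN I E A a b → (φ.iExs ζ).Realize a → (φ.iExs ζ).Realize b := by
    intro a b hab
    simp only [Formula.realize_iExs]
    rintro ⟨c, hc⟩
    obtain ⟨d, hd⟩ := hab.forth hE hI c
    exact ⟨d, (h _ _ hd).1 hc⟩
  exact fun a b hab => ⟨this a b hab, this b a hab.symm⟩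

theorem InvN.equal (hI : I.Ok E A) (i j : ι) :
    InvN I E A ((Term.var i).equal (Term.var j) : L.Formula ι) := by
  intro a b hab
  simp only [Formula.realize_equal, Term.realize_var]
  exact hab.eq_iff hI i j

theorem XN.refl (a : ι → P) : XN L I E A a a := fun _ _ => Iff.rfl

theorem XN.symm {a : ι → P} {b : ι → Q} (h : XN L I E A a b) : XN L I E A b a :=
  fun φ hφ => (h φ hφ).symm

theorem XN.trans {a : ι → P} {b : ι → Q} {c : ι → Q'} (h : XN L I E A a b)
    (h' : XN L I E A b c) : XN L I E A a c := fun φ hφ => (h φ hφ).trans (h' φ hφ)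

theorem XN.comp {a : ι → P} {b : ι → Q} (h : XN L I E A a b) (f : κ → ι) :
    XN L I E A (a ∘ f) (b ∘ f) := by
  intro φ hφ
  have := h _ (hφ.relabel f)
  simpa only [Formula.realize_relabel] using this

theorem XN.of_comp {a : ι → P} {b : ι → Q} (h : XN L I E A a b) (f : κ → ι) {a' : κ → P}
    {b' : κ → Q} (ha : ∀ k, a' k = a (f k)) (hb : ∀ k, b' k = b (f k)) : XN L I E A a' b' := by
  have e1 : a' = a ∘ f := funext ha
  have e2 : b' = b ∘ f := funext hb
  rw [e1, e2]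
  exact h.comp f

theorem XN.eq_iff (hI : I.Ok E A) {a : ι → P} {b : ι → Q} (h : XN L I E A a b) (i j : ι) :
    a i = a j ↔ b i = b j := by
  simpa only [Formula.realize_equal, Term.realize_var] using h _ (InvN.equal hI i j)

theorem EN.xn {a b : ι → N} (h : EN I E A a b) : XN L I E A a b := fun _ hφ => hφ a b h

theorem isolateN (hA : A.Finite) [Finite ι] (b : ι → N) :
    ∃ χ : L.Formula ι, InvN I E A χ ∧ χ.Realize b ∧
      ∀ b' : ι → N, χ.Realize b' → XN L I E A b' b := by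
  obtain ⟨S, hS, hrep⟩ := EN.finite_reps I E hA ι
  have : ∀ r : {r : ι → N // r ∈ S ∧ ¬ XN L I E A r b},
      ∃ φ : L.Formula ι, InvN I E A φ ∧ φ.Realize b ∧ ¬ φ.Realize r.1 := by
    rintro ⟨r, -, hr⟩
    simp only [XN, not_forall] at hr
    obtain ⟨φ, hφ, hr⟩ := hr
    by_cases hb : φ.Realize b
    · exact ⟨φ, hφ, hb, fun h => hr (iff_of_true h hb)⟩
    · refine ⟨φ.not, hφ.not, hb, fun h => hr (iff_of_false ?_ hb)⟩
      simpa only [Formula.realize_not] using h
  choose f hf using this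
  have : Finite {r : ι → N // r ∈ S ∧ ¬ XN L I E A r b} :=
    (hS.subset (fun r (hr : r ∈ S ∧ ¬ XN L I E A r b) => hr.1)).to_subtype
  refine ⟨Formula.iInf f, InvN.iInf fun r => (hf r).1, ?_, ?_⟩
  · simp only [Formula.realize_iInf]
    exact fun r => (hf r).2.1
  · intro b' hb'
    obtain ⟨r, hrS, hr⟩ := hrep b'
    have h1 : (Formula.iInf f).Realize r := ((InvN.iInf fun r => (hf r).1) _ _ hr).1 hb'
    have h2 : XN L I E A r b := by
      by_contra hn
      simp only [Formula.realize_iInf] at h1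
      exact (hf ⟨r, hrS, hn⟩).2.2 (h1 ⟨r, hrS, hn⟩)
    exact hr.xn.trans h2

theorem isolateQN (hQ : N ≅[L] Q) [Finite ι] {b : ι → N} {χ : L.Formula ι}
    (h : ∀ b' : ι → N, χ.Realize b' → XN L I E A b' b) {c : ι → Q} (hc : χ.Realize c) :
    XN L I E A c b := by
  intro φ hφ
  by_cases hb : φ.Realize b
  · have := transfer hQ (χ.imp φ) (fun x => by
      simp only [Formula.realize_imp]
      exact fun hx => (h x hx φ hφ).2 hb) c
    simp only [Formula.realize_imp] at this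
    exact iff_of_true (this hc) hb
  · have := transfer hQ (χ.imp φ.not) (fun x => by
      simp only [Formula.realize_imp, Formula.realize_not]
      exact fun hx hφx => hb ((h x hx φ hφ).1 hφx)) c
    simp only [Formula.realize_imp, Formula.realize_not] at this
    exact iff_of_false (this hc) hb

theorem coverN (hA : A.Finite) (hQ : N ≅[L] Q) [Finite ι] (c : ι → Q) :
    ∃ b : ι → N, XN L I E A c b := by
  obtain ⟨S, hS, hrep⟩ := EN.finite_reps I E hA ι
  have : Finite S := hS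
  choose χ hχ using fun r : S => isolateN (L := L) (I := I) (E := E) hA r.1
  have := transfer hQ (Formula.iSup χ) (fun x => by
    simp only [Formula.realize_iSup]
    obtain ⟨r, hrS, hr⟩ := hrep x
    exact ⟨⟨r, hrS⟩, ((hχ ⟨r, hrS⟩).1 _ _ hr).2 (hχ ⟨r, hrS⟩).2.1⟩) c
  simp only [Formula.realize_iSup] at this
  obtain ⟨r, hr⟩ := this
  exact ⟨r.1, isolateQN hQ (hχ r).2.2 hr⟩

theorem XN.extend (hE : Hen E n) (hI : I.Ok E A) (hQ : N ≅[L] Q) (hQ' : N ≅[L] Q')
    [Finite ι] [Finite ζ] {a : ι → Q} {a' : ι → Q'} (h : XN L I E A a a') (c : ζ → Q) :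
    ∃ c' : ζ → Q', XN L I E A (Sum.elim a c) (Sum.elim a' c') := by
  obtain ⟨b, hb⟩ := coverN (I := I) (E := E) hI.fin hQ (Sum.elim a c)
  obtain ⟨χ, h1, h2, h3⟩ := isolateN (L := L) (I := I) (E := E) hI.fin b
  have h4 : (χ.iExs ζ).Realize a := by
    simp only [Formula.realize_iExs]
    exact ⟨c, (hb χ h1).2 h2⟩
  have h5 := (h _ (h1.iExs hE hI)).1 h4
  simp only [Formula.realize_iExs] at h5
  obtain ⟨c', hc'⟩ := h5
  exact ⟨c', hb.trans (isolateQN hQ' h3 hc').symm⟩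

theorem XN.empty (hQ : N ≅[L] Q) (hQ' : N ≅[L] Q') (a : Empty → Q) (a' : Empty → Q') :
    XN L I E A a a' := by
  intro φ _
  have := (hQ.symm.trans hQ').realize_sentence φ
  simp only [Sentence.Realize] at this
  rw [Unique.eq_default a, Unique.eq_default a']
  exact this

theorem XN.realize (hE : Hen E n) (hI : I.Ok E A) (hQ : N ≅[L] Q) (hQ' : N ≅[L] Q')
    [Finite ζ] (c : ζ → Q) : ∃ c' : ζ → Q', XN L I E A c c' := by
  obtain ⟨c', hc'⟩ :=
    (XN.empty (I := I) (E := E) (A := A) hQ hQ' default default).extend hE hI hQ hQ' c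
  exact ⟨c', hc'.comp Sum.inr⟩

end

end Pool.Agent.Work.MP_11a3f4_lc
end

-- merged part: Pool.Agent.Work.MP_11a3f4_lc.Interp2
section
/-! Every formula of an interpreted structure is invariant over a finite set of parameters. -/

namespace Pool.Agent.Work.MP_11a3f4_lc

open Set FirstOrder FirstOrder.Language

variable {M N : Type*} {n : ℕ}

theorem inv_definable' [Language.graph.Structure M] (hE : Hen (Adj M) n) {A : Set M} {α : Type*}
    [Finite α] {D : Set (α → M)} (hD : A.Definable Language.graph D) :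
    ∃ A' : Set M, A'.Finite ∧ ∀ x x' : α → M, EH (Adj M) A' x x' → x ∈ D → x' ∈ D := by
  obtain ⟨A₀, -, h2⟩ := definable_iff_finitely_definable.1 hD
  obtain ⟨φ, rfl⟩ := definable_iff_exists_formula_sum.1 h2
  refine ⟨A₀, A₀.finite_toSet, fun x x' h => ?_⟩
  obtain ⟨A', h3, -, h4⟩ := inv_formula (L := Language.graph) hE ∅ (by
    intro k r
    refine ⟨∅, Subset.rfl, finite_empty, fun y y' hy => ?_⟩
    cases r
    have e : ∀ y : Fin 2 → M, y = ![y 0, y 1] := fun y => by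
      funext i; fin_cases i <;> rfl
    rw [e y, e y']
    exact hy.adj_iff 0 1) φ
  refine (h4 _ _ (PI.mono h ?_)).1
  rintro p (⟨i | i, rfl⟩ | ⟨hp, -⟩)
  · exact Or.inr ⟨i.2, rfl⟩
  · exact Or.inl ⟨i, rfl⟩
  · exact (h3 hp).elim

theorem mem_pull (I : Itp M N) {α : Type} (R : Set (α → N)) (a : α → I.D) :
    I.flat a ∈ pull I.π R ↔ I.π ∘ a ∈ R := by
  refine ⟨?_, fun h => ⟨a, fun _ _ => rfl, h⟩⟩
  rintro ⟨b, h1, h2⟩
  have : a = b := funext fun i => Subtype.ext (funext fun j => h1 i j)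
  exact this ▸ h2

theorem inv_pull [Language.graph.Structure M] (hE : Hen (Adj M) n) (I : Itp M N) {α : Type}
    [Finite α] {R : Set (α → N)} (h : (univ : Set M).Definable Language.graph (pull I.π R)) :
    ∃ A' : Set M, A'.Finite ∧ ∀ x x' : α → N, EN I (Adj M) A' x x' → x ∈ R → x' ∈ R := by
  obtain ⟨A', h1, h2⟩ := inv_definable' hE h
  refine ⟨A', h1, ?_⟩
  rintro _ _ ⟨a, b, rfl, rfl, hab⟩ hx
  exact (mem_pull I R b).1 (h2 _ _ hab ((mem_pull I R a).2 hx))

theorem exists_ok [Language.graph.Structure M] (hE : Hen (Adj M) n) (I : Itp M N)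
    (h1 : (univ : Set M).Definable Language.graph I.D)
    (h2 : (univ : Set M).Definable Language.graph (pull I.π {y : Fin 2 → N | y 0 = y 1})) :
    ∃ A, I.Ok (Adj M) A := by
  obtain ⟨A₁, h3, h4⟩ := inv_definable' hE h1
  obtain ⟨A₂, h5, h6⟩ := inv_pull hE I h2
  refine ⟨A₁ ∪ A₂, h3.union h5, fun x y hxy => h4 x y (hxy.anti subset_union_left),
    fun a b hab he => ?_⟩
  exact h6 (I.π ∘ a) (I.π ∘ b) ⟨a, b, rfl, rfl, hab.anti subset_union_right⟩ he

variable {L : FirstOrder.Language} [L.Structure N] {I : Itp M N} {E : M → M → Prop} {A₀ : Set M}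

theorem inv_term (hE : Hen E n) (hI : I.Ok E A₀)
    (hfun : ∀ k (f : L.Functions k), ∃ A' : Set M, A'.Finite ∧
      ∀ x x' : Option (Fin k) → N, EN I E A' x x' →
        Structure.funMap f (fun i => x (some i)) = x none →
        Structure.funMap f (fun i => x' (some i)) = x' none)
    {β : Type*} [Finite β] (t : L.Term β) :
    ∃ A' : Set M, A'.Finite ∧ A₀ ⊆ A' ∧ ∀ (v v' : β → N) (x x' : Unit → N),
      EN I E A' (Sum.elim v x) (Sum.elim v' x') → t.realize v = x () → t.realize v' = x' () := by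
  induction t with
  | var b =>
    exact ⟨A₀, hI.fin, Subset.rfl, fun v v' x x' h => (h.eq_iff hI (Sum.inl b) (Sum.inr ())).1⟩
  | func f ts ih =>
    choose B hB using ih
    obtain ⟨A', h1, h2⟩ := hfun _ f
    have hfin : (A₀ ∪ (A' ∪ ⋃ i, B i)).Finite :=
      hI.fin.union (h1.union (finite_iUnion fun i => (hB i).1))
    refine ⟨A₀ ∪ (A' ∪ ⋃ i, B i), hfin, subset_union_left, fun v v' x x' h ht => ?_⟩
    obtain ⟨y', hy⟩ := h.forth hE (hI.mono subset_union_left hfin) (fun i => (ts i).realize v)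
    have e : ∀ i, (ts i).realize v' = y' i := fun i =>
      (hB i).2.2 v v' (fun _ => (ts i).realize v) (fun _ => y' i)
        ((hy.anti ((subset_iUnion B i).trans (subset_union_right.trans subset_union_right))).of_comp
          (Sum.elim (Sum.inl ∘ Sum.inl) (fun _ => Sum.inr i)) (by rintro (_ | _) <;> rfl)
          (by rintro (_ | _) <;> rfl)) rfl
    simp only [Term.realize, e] at ht ⊢
    exact h2 (fun o => o.elim (x ()) (fun i => (ts i).realize v)) (fun o => o.elim (x' ()) y')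
      ((hy.anti (subset_union_left.trans subset_union_right)).of_comp
        (fun o => o.elim (Sum.inl (Sum.inr ())) Sum.inr) (by rintro (_ | _) <;> rfl)
        (by rintro (_ | _) <;> rfl)) ht

theorem inv_terms (hE : Hen E n) (hI : I.Ok E A₀)
    (hfun : ∀ k (f : L.Functions k), ∃ A' : Set M, A'.Finite ∧
      ∀ x x' : Option (Fin k) → N, EN I E A' x x' →
        Structure.funMap f (fun i => x (some i)) = x none →
        Structure.funMap f (fun i => x' (some i)) = x' none)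
    {β γ : Type*} [Finite β] [Finite γ] (ts : γ → L.Term β) :
    ∃ A' : Set M, A'.Finite ∧ A₀ ⊆ A' ∧ ∀ (v v' : β → N), EN I E A' v v' →
      EN I E A' (fun i => (ts i).realize v) (fun i => (ts i).realize v') := by
  choose B hB using fun i => inv_term hE hI hfun (ts i)
  have hfin : (A₀ ∪ ⋃ i, B i).Finite := hI.fin.union (finite_iUnion fun i => (hB i).1)
  refine ⟨A₀ ∪ ⋃ i, B i, hfin, subset_union_left, fun v v' h => ?_⟩
  obtain ⟨y', hy⟩ := h.forth hE (hI.mono subset_union_left hfin) (fun i => (ts i).realize v)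
  have e : ∀ i, (ts i).realize v' = y' i := fun i =>
    (hB i).2.2 v v' (fun _ => (ts i).realize v) (fun _ => y' i)
      ((hy.anti ((subset_iUnion B i).trans subset_union_right)).of_comp
        (Sum.elim Sum.inl (fun _ => Sum.inr i)) (by rintro (_ | _) <;> rfl)
        (by rintro (_ | _) <;> rfl)) rfl
  exact hy.of_comp Sum.inr (fun _ => rfl) e

theorem invN_bounded (hE : Hen E n) (hI : I.Ok E A₀)
    (hfun : ∀ k (f : L.Functions k), ∃ A' : Set M, A'.Finite ∧
      ∀ x x' : Option (Fin k) → N, EN I E A' x x' →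
        Structure.funMap f (fun i => x (some i)) = x none →
        Structure.funMap f (fun i => x' (some i)) = x' none)
    (hrel : ∀ k (r : L.Relations k), ∃ A' : Set M, A'.Finite ∧
      ∀ x x' : Fin k → N, EN I E A' x x' → Structure.RelMap r x → Structure.RelMap r x')
    {α : Type*} [Finite α] {k : ℕ} (φ : L.BoundedFormula α k) :
    ∃ A' : Set M, A'.Finite ∧ A₀ ⊆ A' ∧ ∀ (v v' : α → N) (xs xs' : Fin k → N),
      EN I E A' (Sum.elim v xs) (Sum.elim v' xs') → (φ.Realize v xs ↔ φ.Realize v' xs') := by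
  induction φ with
  | falsum => exact ⟨A₀, hI.fin, Subset.rfl, fun _ _ _ _ _ => Iff.rfl⟩
  | equal t₁ t₂ =>
    obtain ⟨A', h1, h2, h3⟩ := inv_terms hE hI hfun ![t₁, t₂]
    exact ⟨A', h1, h2, fun _ _ _ _ h => (h3 _ _ h).eq_iff (hI.mono h2 h1) 0 1⟩
  | rel r ts =>
    obtain ⟨A', h1, h2, h3⟩ := inv_terms hE hI hfun ts
    obtain ⟨A'', h4, h5⟩ := hrel _ r
    obtain ⟨A₃, h6, h7, h8⟩ := inv_terms hE (hI.mono (A' := A₀ ∪ A'') subset_union_left
      (hI.fin.union h4)) hfun ts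
    refine ⟨A₃, h6, subset_union_left.trans h7, fun v v' xs xs' h => ?_⟩
    have := (h8 _ _ h).anti (subset_union_right.trans h7)
    exact ⟨h5 _ _ this, h5 _ _ this.symm⟩
  | imp φ ψ ih1 ih2 =>
    obtain ⟨A₁, h1, h2, h3⟩ := ih1
    obtain ⟨A₂, h4, h5, h6⟩ := ih2
    refine ⟨A₁ ∪ A₂, h1.union h4, h2.trans subset_union_left, fun v v' xs xs' h => ?_⟩
    simp only [BoundedFormula.realize_imp]
    rw [h3 v v' xs xs' (h.anti subset_union_left), h6 v v' xs xs' (h.anti subset_union_right)]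
  | @all k φ ih =>
    obtain ⟨A', h1, h2, h3⟩ := ih
    have key : ∀ (v v' : α → N) (xs xs' : Fin k → N),
        EN I E A' (Sum.elim v xs) (Sum.elim v' xs') →
          φ.all.Realize v' xs' → φ.all.Realize v xs := by
      intro v v' xs xs' h
      simp only [BoundedFormula.realize_all]
      intro h4 a
      obtain ⟨d, hd⟩ := h.forth hE (hI.mono h2 h1) (fun _ : Unit => a)
      refine (h3 v v' (Fin.snoc xs a) (Fin.snoc xs' (d ())) ?_).2 (h4 _)
      refine hd.of_comp (Sum.elim (Sum.inl ∘ Sum.inl)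
        (Fin.lastCases (Sum.inr ()) (fun i => Sum.inl (Sum.inr i)))) ?_ ?_
      · rintro (i | i)
        · rfl
        · cases i using Fin.lastCases <;> simp
      · rintro (i | i)
        · rfl
        · cases i using Fin.lastCases <;> simp
    exact ⟨A', h1, h2, fun v v' xs xs' h => ⟨key v' v xs' xs h.symm, key v v' xs xs' h⟩⟩

theorem invN_formula (hE : Hen E n) (hI : I.Ok E A₀)
    (hfun : ∀ k (f : L.Functions k), ∃ A' : Set M, A'.Finite ∧
      ∀ x x' : Option (Fin k) → N, EN I E A' x x' →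
        Structure.funMap f (fun i => x (some i)) = x none →
        Structure.funMap f (fun i => x' (some i)) = x' none)
    (hrel : ∀ k (r : L.Relations k), ∃ A' : Set M, A'.Finite ∧
      ∀ x x' : Fin k → N, EN I E A' x x' → Structure.RelMap r x → Structure.RelMap r x')
    {α : Type*} [Finite α] (φ : L.Formula α) :
    ∃ A' : Set M, A'.Finite ∧ InvN I E A' φ := by
  obtain ⟨A', h1, -, h3⟩ := invN_bounded hE hI hfun hrel φ
  refine ⟨A', h1, fun a b hab => h3 a b default default ?_⟩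
  refine hab.of_comp (Sum.elim id Fin.elim0) ?_ ?_
  · rintro (i | i)
    · rfl
    · exact i.elim0
  · rintro (i | i)
    · rfl
    · exact i.elim0

end Pool.Agent.Work.MP_11a3f4_lc
end

-- merged part: Pool.Agent.Work.MP_11a3f4_lc.Interp3
section
/-! Transfer to the saturated model and the compactness argument, for interpretations. -/

namespace Pool.Agent.Work.MP_11a3f4_lc

open Set FirstOrder FirstOrder.Language Cardinal

universe u v w

variable {L : FirstOrder.Language.{u, v}} {M N : Type*} [L.Structure N] {C : Type w}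
  [L.Structure C] {I : Itp M N} {E : M → M → Prop} {A : Set M} {n : ℕ}

/-- Conjugates of pairs with the same graph type over `A`. -/
def CjN (L : FirstOrder.Language.{u, v}) [L.Structure N] (I : Itp M N) (E : M → M → Prop)
    (A : Set M) {ι : Type*} (v v' : ι → N) : Prop :=
  ∃ p p' : ι → N, XN L I E A (Sum.elim v v') (Sum.elim p p') ∧ EN I E A p p'

/-- A path of length `c`. -/
def PathN (L : FirstOrder.Language.{u, v}) [L.Structure N] (I : Itp M N) (E : M → M → Prop)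
    (A : Set M) (c : ℕ) {ι : Type*} (v v' : ι → N) : Prop :=
  ∃ p : Fin (c + 1) → ι → N, p 0 = v ∧ p (Fin.last c) = v' ∧
    ∀ i : Fin c, CjN L I E A (p i.castSucc) (p i.succ)

theorem CjN.symm {ι : Type*} {v v' : ι → N} (h : CjN L I E A v v') : CjN L I E A v' v := by
  obtain ⟨p, p', h1, h2⟩ := h
  exact ⟨p', p, h1.of_comp Sum.swap (by rintro (_ | _) <;> rfl) (by rintro (_ | _) <;> rfl),
    h2.symm⟩

theorem CjN.inv {ι : Type*} {v v' t t' : ι → N} (h : CjN L I E A v v')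
    (he : XN L I E A (Sum.elim t t') (Sum.elim v v')) : CjN L I E A t t' := by
  obtain ⟨p, p', h1, h2⟩ := h
  exact ⟨p, p', he.trans h1, h2⟩

theorem CjN.rtg_inv (hE : Hen E n) (hI : I.Ok E A) {ι : Type*} [Finite ι] {v v' : ι → N}
    (h : Relation.ReflTransGen (CjN L I E A) v v') :
    ∀ t t' : ι → N, XN L I E A (Sum.elim v v') (Sum.elim t t') →
      Relation.ReflTransGen (CjN L I E A) t t' := by
  induction h with
  | refl =>
    intro t t' he
    have : t = t' := funext fun i => (he.eq_iff hI (Sum.inl i) (Sum.inr i)).1 rfl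
    rw [this]
  | @tail c c' _ h2 ih =>
    intro t t' he
    obtain ⟨d, hd⟩ := he.extend hE hI rfl rfl c
    refine (ih t d ?_).tail (h2.inv ?_)
    · exact hd.of_comp (Sum.map Sum.inl id) (by rintro (_ | _) <;> rfl) (by rintro (_ | _) <;> rfl)
    · exact hd.symm.of_comp (Sum.elim Sum.inr (Sum.inl ∘ Sum.inr)) (by rintro (_ | _) <;> rfl)
        (by rintro (_ | _) <;> rfl)

theorem CjN.model (hE : Hen E n) (hI : I.Ok E A) {ι ω : Type*} [Finite ι] [Finite ω]
    {v v' : ι → N} (h : CjN L I E A v v') (w₀ : ω → N) :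
    ∃ w : ω → N, XN L I E A w₀ w ∧ XN L I E A (Sum.elim v w) (Sum.elim v' w) := by
  obtain ⟨p, p', h1, h2⟩ := h
  obtain ⟨x, h3, h4⟩ := h2.free_copy hE hI w₀
  obtain ⟨w, h5⟩ := h1.symm.extend hE hI rfl rfl x
  refine ⟨w, h3.xn.trans (h5.of_comp Sum.inr (fun _ => rfl) (fun _ => rfl)),
    XN.trans (XN.trans ?_ h4.xn) ?_⟩
  · exact h5.symm.of_comp (Sum.map Sum.inl id) (by rintro (_ | _) <;> rfl)
      (by rintro (_ | _) <;> rfl)
  · exact h5.of_comp (Sum.map Sum.inr id) (by rintro (_ | _) <;> rfl) (by rintro (_ | _) <;> rfl)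

/-- Every copy in `N` of the pair `y, y'` is joined by a chain. -/
def LiftN (L : FirstOrder.Language.{u, v}) [L.Structure N] [L.Structure C] (I : Itp M N)
    (E : M → M → Prop) (A : Set M) {ι : Type*} (y y' : ι → C) : Prop :=
  ∀ t t' : ι → N, XN L I E A (Sum.elim y y') (Sum.elim t t') →
    Relation.ReflTransGen (CjN L I E A) t t'

theorem LiftN.refl (hI : I.Ok E A) {ι : Type*} (y : ι → C) : LiftN L I E A y y := by
  intro t t' he
  have : t = t' := funext fun i => (he.eq_iff hI (Sum.inl i) (Sum.inr i)).1 rfl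
  rw [this]

theorem LiftN.trans (hE : Hen E n) (hI : I.Ok E A) (hC : N ≅[L] C) {ι : Type*} [Finite ι]
    {y y' y'' : ι → C} (h : LiftN L I E A y y') (h' : LiftN L I E A y' y'') :
    LiftN L I E A y y'' := by
  intro t t'' he
  obtain ⟨t', ht⟩ := he.extend hE hI hC rfl y'
  refine (h t t' ?_).trans (h' t' t'' ?_)
  · exact ht.of_comp (Sum.map Sum.inl id) (by rintro (_ | _) <;> rfl) (by rintro (_ | _) <;> rfl)
  · exact ht.of_comp (Sum.elim Sum.inr (Sum.inl ∘ Sum.inr)) (by rintro (_ | _) <;> rfl)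
      (by rintro (_ | _) <;> rfl)

theorem LiftN.of_sameType (hE : Hen E n) (hI : I.Ok E A) (hC : N ≅[L] C)
    (S : L.ElementarySubstructure C) {ι : Type w} {a b : ι → C} (h : SameType L (S : Set C) a b)
    {ι₀ : Type*} [Finite ι₀] (f : ι₀ → ι) : LiftN L I E A (a ∘ f) (b ∘ f) := by
  intro u u' hu
  obtain ⟨R, hR, hrep⟩ := EN.finite_reps I E hI.fin ι₀
  have : Finite R := hR
  let v : R × ι₀ → N := fun p => p.1.1 p.2
  obtain ⟨m, hm⟩ := XN.realize (L := L) hE hI rfl (hC.trans S.elementarilyEquivalent.symm) v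
  have hm' : XN L I E A (((↑) : S → C) ∘ m) v := fun φ hφ =>
    (S.subtype.map_formula φ m).trans (hm φ hφ).symm
  obtain ⟨tt, ht⟩ := hm'.extend hE hI hC rfl (Sum.elim (a ∘ f) (b ∘ f))
  have hab : XN L I E A (Sum.elim (a ∘ f) (((↑) : S → C) ∘ m))
      (Sum.elim (b ∘ f) (((↑) : S → C) ∘ m)) := by
    intro φ _
    let g : ι₀ ⊕ (R × ι₀) → (S : Set C) ⊕ ι :=
      Sum.elim (Sum.inr ∘ f) (fun p => Sum.inl (Subtype.mk (m p).1 (m p).2))
    have := h.realize φ g
    have e : ∀ c : ι → C, Sum.elim (Subtype.val : ((S : Set C) : Type w) → C) c ∘ g =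
        Sum.elim (c ∘ f) (((↑) : S → C) ∘ m) := by
      intro c
      funext k
      rcases k with k | k <;> rfl
    rw [e, e] at this
    exact this
  set t : ι₀ → N := tt ∘ Sum.inl
  set t' : ι₀ → N := tt ∘ Sum.inr
  obtain ⟨r, hr, htr⟩ := hrep t
  have c1 : CjN L I E A t r := ⟨t, r, XN.refl _, htr⟩
  have e1 : XN L I E A (Sum.elim t' v) (Sum.elim (b ∘ f) (((↑) : S → C) ∘ m)) :=
    ht.symm.of_comp (Sum.elim (Sum.inr ∘ Sum.inr) Sum.inl) (by rintro (_ | _) <;> rfl)
      (by rintro (_ | _) <;> rfl)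
  have e2 : XN L I E A (Sum.elim (a ∘ f) (((↑) : S → C) ∘ m)) (Sum.elim t v) :=
    ht.of_comp (Sum.elim (Sum.inr ∘ Sum.inl) Sum.inl) (by rintro (_ | _) <;> rfl)
      (by rintro (_ | _) <;> rfl)
  have c2 : CjN L I E A t' r := c1.inv (((e1.trans hab.symm).trans e2).of_comp
    (Sum.map id fun i => (⟨r, hr⟩, i)) (by rintro (_ | _) <;> rfl) (by rintro (_ | _) <;> rfl))
  have c3 : Relation.ReflTransGen (CjN L I E A) t t' :=
    (Relation.ReflTransGen.single c1).tail c2.symm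
  refine CjN.rtg_inv hE hI c3 u u' (XN.trans (b := Sum.elim (a ∘ f) (b ∘ f)) ?_ hu)
  exact ht.symm.of_comp Sum.inr (by rintro (_ | _) <;> rfl) (by rintro (_ | _) <;> rfl)

theorem LiftN.of_lascar (hE : Hen E n) (hI : I.Ok E A) (hC : N ≅[L] C) {κ : Cardinal.{w}}
    {ι : Type w} {a b : ι → C} {m : ℕ} (h : LascarLe L κ m a b)
    {ι₀ : Type*} [Finite ι₀] (f : ι₀ → ι) : LiftN L I E A (a ∘ f) (b ∘ f) := by
  obtain ⟨c, S, rfl, rfl, hc⟩ := h
  have : ∀ i : Fin (m + 1), LiftN L I E A (c 0 ∘ f) (c i ∘ f) := by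
    intro i
    induction i using Fin.induction with
    | zero => exact LiftN.refl hI _
    | succ i ih => exact ih.trans hE hI hC (LiftN.of_sameType hE hI hC (S i) (hc i).2 f)
  exact this _

theorem core_liftN (hE : Hen E n) (hI : I.Ok E A) (hC : N ≅[L] C) {ι ω : Type*} [Finite ι]
    [Finite ω] {c : ℕ}
    (hcore : ∀ u u' : ι → N, Relation.ReflTransGen (CjN L I E A) u u' → PathN L I E A c u u')
    {y y' : ι → C} (h : LiftN L I E A y y') (m : ω → C) :
    ∃ (Y : Fin (c + 1) → ι → C) (W : Fin c → ω → C), Y 0 = y ∧ Y (Fin.last c) = y' ∧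
      ∀ i : Fin c, XN L I E A m (W i) ∧
        XN L I E A (Sum.elim (Y i.castSucc) (W i)) (Sum.elim (Y i.succ) (W i)) := by
  obtain ⟨uu, hu⟩ := coverN (I := I) (E := E) hI.fin hC (Sum.elim y y')
  have hu' : XN L I E A (Sum.elim y y') (Sum.elim (uu ∘ Sum.inl) (uu ∘ Sum.inr)) :=
    hu.of_comp id (fun _ => rfl) (by rintro (_ | _) <;> rfl)
  obtain ⟨w₀, hw₀⟩ := coverN (I := I) (E := E) hI.fin hC m
  obtain ⟨p, hp0, hp1, hp⟩ := hcore _ _ (h _ _ hu')
  choose w hw using fun i => (hp i).model hE hI w₀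
  obtain ⟨T, hT⟩ := hu'.symm.extend hE hI rfl hC
    (Sum.elim (fun q : Fin (c + 1) × ι => p q.1 q.2) (fun q : Fin c × ω => w q.1 q.2))
  refine ⟨fun k i => T (Sum.inl (k, i)), fun k s => T (Sum.inr (k, s)), ?_, ?_, fun k => ⟨?_, ?_⟩⟩
  · funext i
    exact (hT.eq_iff hI (Sum.inr (Sum.inl (0, i))) (Sum.inl (Sum.inl i))).1 (congrFun hp0 i)
  · funext i
    exact (hT.eq_iff hI (Sum.inr (Sum.inl (Fin.last c, i))) (Sum.inl (Sum.inr i))).1
      (congrFun hp1 i)
  · exact (hw₀.trans (hw k).1).trans (hT.of_comp (fun s => Sum.inr (Sum.inr (k, s)))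
      (fun _ => rfl) (fun _ => rfl))
  · refine XN.trans (XN.trans ?_ (hw k).2) ?_
    · exact hT.symm.of_comp (Sum.elim (fun i => Sum.inr (Sum.inl (k.castSucc, i)))
        (fun s => Sum.inr (Sum.inr (k, s)))) (by rintro (_ | _) <;> rfl) (by rintro (_ | _) <;> rfl)
    · exact hT.of_comp (Sum.elim (fun i => Sum.inr (Sum.inl (k.succ, i)))
        (fun s => Sum.inr (Sum.inr (k, s)))) (by rintro (_ | _) <;> rfl) (by rintro (_ | _) <;> rfl)

theorem many_steps (hE : Hen E n) {A₀ : Set M} (hI : I.Ok E A₀) (hC : N ≅[L] C)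
    (hinv : ∀ {α : Type w} [Finite α] (φ : L.Formula α), ∃ A' : Set M, A'.Finite ∧ InvN I E A' φ)
    {c : ℕ} (hcore : ∀ A : Set M, I.Ok E A → ∀ (ι : Type w) [Finite ι] (u u' : ι → N),
      Relation.ReflTransGen (CjN L I E A) u u' → PathN L I E A c u u')
    {κ : Cardinal.{w}} (h0 : ℵ₀ < κ) (hsat : Saturated L C κ) {ι : Type w} (hι : #ι < κ)
    {a b : ι → C} {m : ℕ} (h : LascarLe L κ m a b) (S : L.ElementarySubstructure C)
    (hS : #S < κ) (hc : 0 < c) :
    ∃ (y : Fin (c + 1) → ι → C) (w : Fin c → S → C), y 0 = a ∧ y (Fin.last c) = b ∧ ∀ k,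
      (∀ ψ : L.Formula S, ψ.Realize (w k) ↔ ψ.Realize ((↑) : S → C)) ∧
      (∀ φ : L.Formula (ι ⊕ S), φ.Realize (Sum.elim (y k.castSucc) (w k)) ↔
        φ.Realize (Sum.elim (y k.succ) (w k))) := by
  classical
  let V : Type w := ((Fin (c + 1) × ι) ⊕ (Fin c × S)) ⊕ S
  have hV : #V < κ := by
    simp only [V, mk_sum, mk_prod, lift_id, mk_fin, lift_natCast, lift_uzero]
    have hn : ∀ k : ℕ, (k : Cardinal.{w}) < κ := fun k => (natCast_lt_aleph0 (n := k)).trans h0
    exact add_lt_of_lt h0.le (add_lt_of_lt h0.le (mul_lt_of_lt h0.le (hn _) hι)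
      (mul_lt_of_lt h0.le (hn _) hS)) hS
  let vy : Fin (c + 1) → ι → V := fun k i => Sum.inl (Sum.inl (k, i))
  let vw : Fin c → S → V := fun k s => Sum.inl (Sum.inr (k, s))
  let vm : S → V := Sum.inr
  let p : Fin c × (L.Formula (ι ⊕ S) × L.Formula S) → L.Formula V := fun j =>
    ((j.2.2.relabel (vw j.1)).iff (j.2.2.relabel vm)) ⊓
    ((j.2.1.relabel (Sum.elim (vy j.1.castSucc) (vw j.1))).iff
      (j.2.1.relabel (Sum.elim (vy j.1.succ) (vw j.1))))
  have hp : ∀ (t : V → C), t ∘ vm = (↑) → ∀ j, (p j).Realize t ↔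
      (j.2.2.Realize (t ∘ vw j.1) ↔ j.2.2.Realize ((↑) : S → C)) ∧
      (j.2.1.Realize (Sum.elim (t ∘ vy j.1.castSucc) (t ∘ vw j.1)) ↔
        j.2.1.Realize (Sum.elim (t ∘ vy j.1.succ) (t ∘ vw j.1))) := by
    intro t ht j
    simp only [p, Formula.realize_inf, Formula.realize_iff, Formula.realize_relabel,
      Sum.comp_elim, ht]
  obtain ⟨t, ht1, ht2⟩ := hsat.realize hV p
    (G₀ := (range (fun i => (vy 0 i, a i)) ∪ range (fun i => (vy (Fin.last c) i, b i))) ∪
      range fun s : S => (vm s, (s : C))) (by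
    intro J₀ hJ F hF _
    have : Finite J₀ := hJ
    let ι₀ : Set ι := ⋃ j ∈ J₀, Sum.inl ⁻¹' ((j.2.1.freeVarFinset : Finset (ι ⊕ S)) : Set (ι ⊕ S))
    let s₀ : Set S := ⋃ j ∈ J₀,
      (Sum.inr ⁻¹' ((j.2.1.freeVarFinset : Finset (ι ⊕ S)) : Set (ι ⊕ S)) ∪
      ((j.2.2.freeVarFinset : Finset S) : Set S))
    have : Finite ι₀ := hJ.biUnion fun j _ =>
      (Finset.finite_toSet _).preimage Sum.inl_injective.injOn
    have : Finite s₀ := hJ.biUnion fun j _ =>
      ((Finset.finite_toSet _).preimage Sum.inr_injective.injOn).union (Finset.finite_toSet _)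
    have h1 : ∀ j : J₀, ∃ φ' : L.Formula (ι₀ ⊕ s₀), ∀ t : ι ⊕ S → C,
        j.1.2.1.Realize t ↔ φ'.Realize (t ∘ Sum.map ((↑) : ι₀ → ι) ((↑) : s₀ → S)) := fun j =>
      restrict_vars j.1.2.1 (Sum.map ((↑) : ι₀ → ι) ((↑) : s₀ → S)) (by
        rintro (i | s) hi
        · exact ⟨Sum.inl ⟨i, mem_biUnion j.2 (Finset.mem_coe.2 hi)⟩, rfl⟩
        · exact ⟨Sum.inr ⟨s, mem_biUnion j.2 (Or.inl (Finset.mem_coe.2 hi))⟩, rfl⟩)
    have h2 : ∀ j : J₀, ∃ ψ' : L.Formula s₀, ∀ t : S → C,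
        j.1.2.2.Realize t ↔ ψ'.Realize (t ∘ ((↑) : s₀ → S)) := fun j =>
      restrict_vars j.1.2.2 ((↑) : s₀ → S) (fun s hs =>
        ⟨⟨s, mem_biUnion j.2 (Or.inr (Finset.mem_coe.2 hs))⟩, rfl⟩)
    choose φ' hφ' using h1
    choose ψ' hψ' using h2
    choose A₁ hA₁ using fun j => hinv (φ' j)
    choose A₂ hA₂ using fun j => hinv (ψ' j)
    let A' : Set M := A₀ ∪ ⋃ j, (A₁ j ∪ A₂ j)
    have hA' : I.Ok E A' := hI.mono subset_union_left
      (hI.fin.union (finite_iUnion fun j => (hA₁ j).1.union (hA₂ j).1))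
    have i1 : ∀ j, InvN I E A' (φ' j) := fun j =>
      (hA₁ j).2.mono (subset_union_left.trans
        ((subset_iUnion (fun j => A₁ j ∪ A₂ j) j).trans subset_union_right))
    have i2 : ∀ j, InvN I E A' (ψ' j) := fun j =>
      (hA₂ j).2.mono (subset_union_right.trans
        ((subset_iUnion (fun j => A₁ j ∪ A₂ j) j).trans subset_union_right))
    obtain ⟨Y, W, x1, x2, x3⟩ := core_liftN hE hA' hC (hcore A' hA' ι₀)
      (LiftN.of_lascar hE hA' hC h ((↑) : ι₀ → ι)) (((↑) : S → C) ∘ ((↑) : s₀ → S))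
    let Y' : Fin (c + 1) → ι → C := fun k =>
      Function.extend ((↑) : ι₀ → ι) (Y k) (if k = 0 then a else b)
    let W' : Fin c → S → C := fun k => Function.extend ((↑) : s₀ → S) (W k) (↑)
    have eY : ∀ k, Y' k ∘ ((↑) : ι₀ → ι) = Y k := fun k =>
      Function.extend_comp Subtype.val_injective _ _
    have eW : ∀ k, W' k ∘ ((↑) : s₀ → S) = W k := fun k =>
      Function.extend_comp Subtype.val_injective _ _
    have ext : ∀ d : ι → C, Function.extend ((↑) : ι₀ → ι) (d ∘ (↑)) d = d := by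
      intro d
      funext i
      by_cases hi : i ∈ ι₀
      · exact Subtype.val_injective.extend_apply _ _ (⟨i, hi⟩ : ι₀)
      · exact Function.extend_apply' _ _ _ (by rintro ⟨j, rfl⟩; exact hi j.2)
    have e0 : Y' 0 = a := by
      simp only [Y', x1, if_true]
      exact ext a
    have e1 : Y' (Fin.last c) = b := by
      have : Fin.last c ≠ 0 := fun he => hc.ne' (congrArg Fin.val he)
      simp only [Y', x2, if_neg this]
      exact ext b
    let t : V → C := Sum.elim (Sum.elim (fun q => Y' q.1 q.2) (fun q => W' q.1 q.2)) (↑)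
    refine ⟨t, fun g hg => ?_, fun j hj => ?_⟩
    · rcases hF hg with (⟨i, rfl⟩ | ⟨i, rfl⟩) | ⟨s, rfl⟩
      · exact congrFun e0 i
      · exact congrFun e1 i
      · rfl
    · rw [hp t rfl]
      have e2 : ∀ k, t ∘ vw k = W' k := fun _ => rfl
      have e3 : ∀ k, t ∘ vy k = Y' k := fun _ => rfl
      have k1 := hφ' ⟨j, hj⟩
      have k2 := hψ' ⟨j, hj⟩
      simp only at k1 k2
      simp only [e2, e3, k1, k2, Sum.elim_comp_map, eY, eW]
      exact ⟨((x3 j.1).1 _ (i2 _)).symm, (x3 j.1).2 _ (i1 _)⟩)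
  have ht : t ∘ vm = (↑) := funext fun s => ht1 _ (Or.inr ⟨s, rfl⟩)
  exact ⟨fun k => t ∘ vy k, fun k => t ∘ vw k,
    funext fun i => ht1 _ (Or.inl (Or.inl ⟨i, rfl⟩)),
    funext fun i => ht1 _ (Or.inl (Or.inr ⟨i, rfl⟩)),
    fun k => ⟨fun ψ => ((hp t ht (k, ⊤, ψ)).1 (ht2 _)).1,
      fun φ => ((hp t ht (k, φ, ⊤)).1 (ht2 _)).2⟩⟩

theorem lascar_many (hE : Hen E n) {A₀ : Set M} (hI : I.Ok E A₀) (hC : N ≅[L] C)
    (hinv : ∀ {α : Type w} [Finite α] (φ : L.Formula α), ∃ A' : Set M, A'.Finite ∧ InvN I E A' φ)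
    {c : ℕ} (hcore : ∀ A : Set M, I.Ok E A → ∀ (ι : Type w) [Finite ι] (u u' : ι → N),
      Relation.ReflTransGen (CjN L I E A) u u' → PathN L I E A c u u') (hc : 0 < c)
    {κ : Cardinal.{w}} (h0 : ℵ₀ < κ)
    (h1 : Cardinal.lift.{w} L.card < Cardinal.lift.{max u v} κ) (hsat : Saturated L C κ)
    {ι : Type w} (hι : #ι < κ) {a b : ι → C} {m : ℕ} (h : LascarLe L κ m a b) :
    LascarLe L κ c a b := by
  obtain ⟨S, hS⟩ : ∃ S : L.ElementarySubstructure C, #S < κ := by
    rcases isEmpty_or_nonempty C with hC' | hC'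
    · exact ⟨⊤, by rw [mk_eq_zero]; exact aleph0_pos.trans h0⟩
    · exact exists_small_elem h0 h1
  obtain ⟨y, w, h2, h3, h4⟩ := many_steps hE hI hC hinv hcore h0 hsat hι h S hS hc
  choose T hT using fun k => exists_elem_range S (w k) (h4 k).1
  refine ⟨y, T, h2, h3, fun k => ⟨?_, ?_⟩⟩
  · have : #(T k : Set C) < κ := (hT k) ▸ lt_of_le_of_lt mk_range_le hS
    exact this
  · rw [hT k]
    exact sameType_of_range (h4 k).2

end Pool.Agent.Work.MP_11a3f4_lc
end

-- merged part: Pool.Agent.Work.MP_11a3f4_lc.Interp4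
section
/-! Reduction of the statement for interpretations to the combinatorial core. -/

namespace Pool.Agent.Work.MP_11a3f4_lc

open Set FirstOrder FirstOrder.Language Cardinal

universe u v w w₂

/-- One step. -/
def Step0 {V : Type*} (E : V → V → Prop) (A : Set V) {σ : Type*} (X : Set (σ → V))
    (Eqv : ∀ {κ : Type}, (κ → X) → (κ → X) → Prop) (u v : X) : Prop :=
  ∃ u₁ v₁ : X, Eqv ![u, v] ![u₁, v₁] ∧ EH E A u₁.1 v₁.1

/-- The combinatorial core: chains can be shortened to length `c`. -/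
def CoreStmt {V : Type w₂} (E : V → V → Prop) (c : ℕ) : Prop :=
  ∀ (A : Set V), A.Finite → ∀ (σ : Type w) [Finite σ] (X : Set (σ → V)),
    (∀ a b : σ → V, EH E A a b → a ∈ X → b ∈ X) →
    ∀ (Eqv : ∀ {κ : Type}, (κ → X) → (κ → X) → Prop),
    (∀ {κ : Type} {a b : κ → X}, Eqv a b → Eqv b a) →
    (∀ {κ : Type} {a b c : κ → X}, Eqv a b → Eqv b c → Eqv a c) →
    (∀ {κ κ' : Type} {a b : κ → X} (f : κ' → κ), Eqv a b → Eqv (a ∘ f) (b ∘ f)) →
    (∀ {κ : Type} {a b : κ → X},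
      EH E A (fun p : κ × σ => (a p.1).1 p.2) (fun p => (b p.1).1 p.2) → Eqv a b) →
    (∀ {κ ζ : Type} [Finite κ] [Finite ζ] {a b : κ → X}, Eqv a b → ∀ c : ζ → X,
      ∃ d : ζ → X, Eqv (Sum.elim a c) (Sum.elim b d)) →
    ∀ x y : X, Relation.ReflTransGen (Step0 E A X Eqv) x y →
      ∃ p : Fin (c + 1) → X, p 0 = x ∧ p (Fin.last c) = y ∧
        ∀ i : Fin c, Step0 E A X Eqv (p i.castSucc) (p i.succ)

variable {L : FirstOrder.Language.{u, v}} {M : Type w₂} {N : Type*} [L.Structure N]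
  {I : Itp M N} {E : M → M → Prop} {A : Set M} {n : ℕ}

theorem path_of_core (hE : Hen E n) {c : ℕ} (hcore : CoreStmt.{w, w₂} E c) (hI : I.Ok E A)
    (ι : Type w) [Finite ι] (u u' : ι → N) (h : Relation.ReflTransGen (CjN L I E A) u u') :
    PathN L I E A c u u' := by
  let X : Set (ι × Fin I.l → M) := {x | ∀ i, (fun j => x (i, j)) ∈ I.D}
  let lf : X → ι → I.D := fun x i => ⟨fun j => x.1 (i, j), x.2 i⟩
  let pr : X → ι → N := fun x => I.π ∘ lf x
  let mk : (ι → I.D) → X := fun a => ⟨I.flat a, fun i => (a i).2⟩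
  have hpr : ∀ a : ι → I.D, pr (mk a) = I.π ∘ a := fun _ => rfl
  have hsurj : ∀ t : ι → N, ∃ x : X, pr x = t := fun t => by
    obtain ⟨a, ha⟩ := I.lift t
    exact ⟨mk a, ha⟩
  let Eqv : ∀ {κ : Type}, (κ → X) → (κ → X) → Prop := fun {κ} a b =>
    XN L I E A (fun q : κ × ι => pr (a q.1) q.2) (fun q => pr (b q.1) q.2)
  have hstep : ∀ x y : X, Step0 E A X Eqv x y ↔ CjN L I E A (pr x) (pr y) := by
    intro x y
    constructor
    · rintro ⟨x₁, y₁, h1, h2⟩
      exact ⟨pr x₁, pr y₁, XN.of_comp h1 (Sum.elim (fun i => (0, i)) (fun i => (1, i)))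
        (by rintro (_ | _) <;> rfl) (by rintro (_ | _) <;> rfl), lf x₁, lf y₁, rfl, rfl, h2⟩
    · rintro ⟨_, _, h1, a, b, rfl, rfl, h2⟩
      refine ⟨mk a, mk b, XN.of_comp h1 (fun q => ![Sum.inl q.2, Sum.inr q.2] q.1) ?_ ?_, h2⟩
      · rintro ⟨k, i⟩
        fin_cases k <;> rfl
      · rintro ⟨k, i⟩
        fin_cases k <;> rfl
  have hrefl : ∀ t : ι → N, CjN L I E A t t := fun t => ⟨t, t, XN.refl _, EN.refl t⟩
  obtain ⟨x, rfl⟩ := hsurj u
  have hchain : ∀ y : X, pr y = u' → Relation.ReflTransGen (Step0 E A X Eqv) x y := by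
    induction h with
    | refl =>
      intro y hy
      exact Relation.ReflTransGen.single ((hstep x y).2 (hy ▸ hrefl _))
    | @tail t t' _ h2 ih =>
      intro y hy
      obtain ⟨z, rfl⟩ := hsurj t
      exact (ih z rfl).tail ((hstep z y).2 (hy ▸ h2))
  obtain ⟨y, rfl⟩ := hsurj u'
  obtain ⟨p, hp0, hp1, hp⟩ := hcore A hI.fin (ι × Fin I.l) X
    (fun a b hab ha i => hI.dom _ _ (hab.of_comp (fun j => (i, j)) (fun _ => rfl) (fun _ => rfl))
      (ha i)) Eqv (fun h => XN.symm h) (fun h h' => XN.trans h h')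
    (fun f h => XN.of_comp h (Prod.map f id) (fun _ => rfl) (fun _ => rfl))
    (fun {κ a b} h => EN.xn ⟨fun q => lf (a q.1) q.2, fun q => lf (b q.1) q.2, rfl, rfl,
      h.of_comp (fun q => (q.1.1, (q.1.2, q.2))) (fun _ => rfl) (fun _ => rfl)⟩)
    (fun {κ ζ} _ _ {a b} h c => by
      obtain ⟨d, hd⟩ := XN.extend hE hI rfl rfl h (fun q : ζ × ι => pr (c q.1) q.2)
      choose d' hd' using fun s => hsurj (fun i => d (s, i))
      refine ⟨d', XN.of_comp hd
        (fun q => Sum.map (fun k => (k, q.2)) (fun s => (s, q.2)) q.1) ?_ ?_⟩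
      · rintro ⟨_ | _, _⟩ <;> rfl
      · rintro ⟨_ | s, i⟩
        · rfl
        · exact congrFun (hd' s) i)
    x y (hchain y rfl)
  exact ⟨fun k => pr (p k), by simp only [hp0], by simp only [hp1], fun k => (hstep _ _).1 (hp k)⟩

theorem interp_compact {m : ℕ} [Language.graph.Structure M] (hE : Hen (Adj M) m) {c : ℕ}
    (hc : 0 < c) (hcore : CoreStmt.{w, w₂} (Adj M) c)
    (hN : Interpretable L Language.graph N M) : NGCompact.{u, v, w} (L.completeTheory N) c := by
  obtain ⟨l, D, π, h1, h2, h3, h4, h5⟩ := hN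
  let I : Itp M N := ⟨l, D, π, h1⟩
  obtain ⟨A₀, hI⟩ := exists_ok hE I h2 h3
  intro C _ κ hC h0 hκ hsat ι hι a b hab
  obtain ⟨k, hk⟩ := hab
  have h6 : N ≅[L] C := elementarilyEquivalent_iff.2 fun φ =>
    (realize_iff_of_model_completeTheory N C φ).symm
  exact lascar_many hE hI h6
    (fun φ => invN_formula hE hI (fun k f => inv_pull hE I (h5 k f))
      (fun k r => inv_pull hE I (h4 k r)) φ)
    (fun A hA ι _ u u' h => path_of_core hE hcore hA ι u u' h) hc h0 hκ hsat hι hk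

end Pool.Agent.Work.MP_11a3f4_lc
end
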