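import Mathlib
import Pool.Agent.Work.MP_11a3f4_lc.Defs

-- merged part: Pool.Agent.Work.MP_11a3f4_lc.Graph
section
/-! Combinatorics of graphs with the Henson extension property. -/

namespace Pool.Agent.Work.MP_11a3f4_lc

open Set

variable {M : Type*}

/-- A clique of size `m` inside `S`. -/
def Cl (E : M → M → Prop) (m : ℕ) (S : Set M) : Prop :=
  ∃ f : Fin m → M, (∀ s, f s ∈ S) ∧ ∀ s t, s ≠ t → E (f s) (f t)

/-- Graphs without a clique of size `n + 1` that have the extension property. -/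
structure Hen (E : M → M → Prop) (n : ℕ) : Prop where
  symm : ∀ x y, E x y → E y x
  irr : ∀ x, ¬ E x x
  free : ¬ Cl E (n + 1) univ
  ext : ∀ U V : Set M, U.Finite → V.Finite → Disjoint U V → ¬ Cl E n U →
    ∃ x, x ∉ U ∧ x ∉ V ∧ (∀ u ∈ U, E x u) ∧ ∀ v ∈ V, ¬ E x v

/-- A set of pairs that is the graph of a local isomorphism. -/
def PI (E : M → M → Prop) (R : Set (M × M)) : Prop :=
  ∀ p ∈ R, ∀ q ∈ R, (p.1 = q.1 ↔ p.2 = q.2) ∧ (E p.1 q.1 ↔ E p.2 q.2)

theorem PI.mono {E : M → M → Prop} {R R' : Set (M × M)} (h : PI E R) (hs : R' ⊆ R) : PI E R' :=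
  fun p hp q hq => h p (hs hp) q (hs hq)

theorem Hen.one_point {E : M → M → Prop} {n : ℕ} (hE : Hen E n) {R : Set (M × M)}
    (hR : PI E R) (hfin : R.Finite) (c : M) (hc : c ∉ Prod.fst '' R) {C : Set M} (hC : C.Finite) :
    ∃ d, PI E (insert (c, d) R) ∧ d ∉ C ∧ ∀ x ∈ C, E d x → x ∈ Prod.snd '' R := by
  classical
  set U : Set M := Prod.snd '' {q | q ∈ R ∧ E c q.1} with hU
  have hUfin : U.Finite := (hfin.subset (fun q hq => hq.1)).image _
  have hUcl : ¬ Cl E n U := by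
    rintro ⟨f, hf, hadj⟩
    choose q hq hq' using hf
    apply hE.free
    refine ⟨Fin.cons c (fun s => (q s).1), fun _ => mem_univ _, ?_⟩
    intro s t hst
    refine Fin.cases (motive := fun s => s ≠ t → E (Fin.cons (α := fun _ => M) c (fun s => (q s).1) s)
      (Fin.cons (α := fun _ => M) c (fun s => (q s).1) t)) ?_ ?_ s hst
    · refine Fin.cases (motive := fun t => (0 : Fin (n+1)) ≠ t →
        E (Fin.cons (α := fun _ => M) c (fun s => (q s).1) 0)
        (Fin.cons (α := fun _ => M) c (fun s => (q s).1) t)) ?_ ?_ t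
      · intro h; exact absurd rfl h
      · intro t _; simpa using (hq t).2
    · intro s
      refine Fin.cases (motive := fun t => s.succ ≠ t →
        E (Fin.cons (α := fun _ => M) c (fun s => (q s).1) s.succ)
        (Fin.cons (α := fun _ => M) c (fun s => (q s).1) t)) ?_ ?_ t
      · intro _; simpa using hE.symm _ _ (hq s).2
      · intro t h
        have hst : s ≠ t := fun e => h (by rw [e])
        have := hadj s t hst
        rw [← hq' s, ← hq' t] at this
        simpa using ((hR _ (hq s).1 _ (hq t).1).2).2 this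
  obtain ⟨d, hdU, hdV, hadj, hnadj⟩ := hE.ext U ((Prod.snd '' R ∪ C) \ U) hUfin
    (((hfin.image _).union hC).diff) disjoint_sdiff_right hUcl
  have hd2 : d ∉ Prod.snd '' R ∪ C := fun h => hdV ⟨h, hdU⟩
  have key : ∀ q ∈ R, (c = q.1 ↔ d = q.2) ∧ (E c q.1 ↔ E d q.2) := by
    intro q hq
    refine ⟨⟨fun h => absurd ⟨q, hq, h.symm⟩ hc, fun h => absurd (Or.inl ⟨q, hq, h.symm⟩) hd2⟩,
      ⟨fun h => hadj _ ⟨q, ⟨hq, h⟩, rfl⟩, fun h => ?_⟩⟩
    by_contra hn
    refine hnadj q.2 ⟨Or.inl ⟨q, hq, rfl⟩, ?_⟩ h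
    rintro ⟨q', ⟨hq', hc'⟩, he⟩
    have : q'.1 = q.1 := ((hR _ hq' _ hq).1).2 he
    exact hn (this ▸ hc')
  refine ⟨d, ?_, fun h => hd2 (Or.inr h), ?_⟩
  · rintro p (rfl | hp) q (rfl | hq)
    · simp [hE.irr]
    · exact key q hq
    · obtain ⟨h1, h2⟩ := key p hp
      exact ⟨⟨fun h => (h1.1 h.symm).symm, fun h => (h1.2 h.symm).symm⟩,
        ⟨fun h => hE.symm _ _ (h2.1 (hE.symm _ _ h)), fun h => hE.symm _ _ (h2.2 (hE.symm _ _ h))⟩⟩
    · exact hR p hp q hq
  · intro x hx hdx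
    by_contra hn
    refine hnadj x ⟨Or.inr hx, ?_⟩ hdx
    rintro ⟨q, ⟨hq, _⟩, rfl⟩
    exact hn ⟨q, hq, rfl⟩

theorem Hen.multi_point {E : M → M → Prop} {n : ℕ} (hE : Hen E n) {R : Set (M × M)}
    (hR : PI E R) (hfin : R.Finite) {C : Set M} (hC : C.Finite) (S : Set M) (hS : S.Finite) :
    ∃ R' : Set (M × M), R ⊆ R' ∧ R'.Finite ∧ PI E R' ∧ S ⊆ Prod.fst '' R' ∧
      ∀ p ∈ R', p ∈ R ∨ (p.2 ∉ C ∧ ∀ x ∈ C, E p.2 x → x ∈ Prod.snd '' R) := by
  induction S, hS using Set.Finite.induction_on with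
  | empty => exact ⟨R, Subset.rfl, hfin, hR, empty_subset _, fun p hp => Or.inl hp⟩
  | @insert c S _ _ ih =>
    obtain ⟨R', h1, h2, h3, h4, h5⟩ := ih
    by_cases hc : c ∈ Prod.fst '' R'
    · exact ⟨R', h1, h2, h3, insert_subset hc h4, h5⟩
    · obtain ⟨d, hd1, hd2, hd3⟩ := hE.one_point h3 h2 c hc hC
      refine ⟨insert (c, d) R', h1.trans (subset_insert _ _), h2.insert _, hd1,
        insert_subset ⟨(c, d), mem_insert _ _, rfl⟩
          (h4.trans (image_mono (subset_insert _ _))), ?_⟩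
      rintro p (rfl | hp)
      · refine Or.inr ⟨hd2, fun x hx hdx => ?_⟩
        obtain ⟨q, hq, rfl⟩ := hd3 x hx hdx
        rcases h5 q hq with h | h
        · exact ⟨q, h, rfl⟩
        · exact absurd hx h.1
      · exact h5 p hp

/-- The pairs given by two tuples together with the diagonal of `A`. -/
def Rel {ι : Type*} (A : Set M) (a b : ι → M) : Set (M × M) :=
  {p | (∃ i, p = (a i, b i)) ∨ (p.1 ∈ A ∧ p.2 = p.1)}

/-- Same quantifier-free graph type over `A`. -/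
def EH (E : M → M → Prop) {ι : Type*} (A : Set M) (a b : ι → M) : Prop := PI E (Rel A a b)

section EH
variable {E : M → M → Prop} {A : Set M} {ι κ ζ : Type*}

theorem Rel.finite [Finite ι] (hA : A.Finite) (a b : ι → M) : (Rel A a b).Finite := by
  refine ((finite_range (fun i => (a i, b i))).union (hA.image (fun x => (x, x)))).subset ?_
  rintro p (⟨i, rfl⟩ | ⟨h1, h2⟩)
  · exact Or.inl ⟨i, rfl⟩
  · exact Or.inr ⟨p.1, h1, Prod.ext rfl h2.symm⟩

theorem EH.refl (a : ι → M) : EH E A a a := by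
  have : ∀ p ∈ Rel A a a, p.2 = p.1 := by
    rintro p (⟨i, rfl⟩ | ⟨_, h2⟩)
    · rfl
    · exact h2
  intro p hp q hq
  rw [this p hp, this q hq]
  exact ⟨Iff.rfl, Iff.rfl⟩

theorem EH.symm {a b : ι → M} (h : EH E A a b) : EH E A b a := by
  have : ∀ p ∈ Rel A b a, (p.2, p.1) ∈ Rel A a b := by
    rintro p (⟨i, rfl⟩ | ⟨h1, h2⟩)
    · exact Or.inl ⟨i, rfl⟩
    · exact Or.inr ⟨by simpa [h2] using h1, h2.symm⟩
  intro p hp q hq
  have := h _ (this p hp) _ (this q hq)
  exact ⟨this.1.symm, this.2.symm⟩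

theorem EH.trans {a b c : ι → M} (h : EH E A a b) (h' : EH E A b c) : EH E A a c := by
  have : ∀ p ∈ Rel A a c, ∃ y, (p.1, y) ∈ Rel A a b ∧ (y, p.2) ∈ Rel A b c := by
    rintro p (⟨i, rfl⟩ | ⟨h1, h2⟩)
    · exact ⟨b i, Or.inl ⟨i, rfl⟩, Or.inl ⟨i, rfl⟩⟩
    · exact ⟨p.1, Or.inr ⟨h1, rfl⟩, Or.inr ⟨h1, h2⟩⟩
  intro p hp q hq
  obtain ⟨y, hy1, hy2⟩ := this p hp
  obtain ⟨z, hz1, hz2⟩ := this q hq
  have e1 := h _ hy1 _ hz1
  have e2 := h' _ hy2 _ hz2
  exact ⟨e1.1.trans e2.1, e1.2.trans e2.2⟩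

theorem EH.comp {a b : ι → M} (h : EH E A a b) (f : κ → ι) : EH E A (a ∘ f) (b ∘ f) := by
  refine PI.mono h ?_
  rintro p (⟨i, rfl⟩ | h2)
  · exact Or.inl ⟨f i, rfl⟩
  · exact Or.inr h2

theorem EH.anti {A' : Set M} {a b : ι → M} (h : EH E A a b) (hs : A' ⊆ A) : EH E A' a b := by
  refine PI.mono h ?_
  rintro p (h1 | ⟨h1, h2⟩)
  · exact Or.inl h1
  · exact Or.inr ⟨hs h1, h2⟩

theorem EH.eq_iff {a b : ι → M} (h : EH E A a b) (i j : ι) : a i = a j ↔ b i = b j :=
  (h (a i, b i) (Or.inl ⟨i, rfl⟩) (a j, b j) (Or.inl ⟨j, rfl⟩)).1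

theorem EH.adj_iff {a b : ι → M} (h : EH E A a b) (i j : ι) : E (a i) (a j) ↔ E (b i) (b j) :=
  (h (a i, b i) (Or.inl ⟨i, rfl⟩) (a j, b j) (Or.inl ⟨j, rfl⟩)).2

theorem EH.eq_of_mem {a b : ι → M} (h : EH E A a b) {i : ι} (hi : a i ∈ A) : b i = a i :=
  (h (a i, b i) (Or.inl ⟨i, rfl⟩) (a i, a i) (Or.inr ⟨hi, rfl⟩)).1.1 rfl

theorem EH.mem_iff {a b : ι → M} (h : EH E A a b) (i : ι) : a i ∈ A ↔ b i ∈ A :=
  ⟨fun hi => (h.eq_of_mem hi).symm ▸ hi, fun hi => (h.symm.eq_of_mem hi).symm ▸ hi⟩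

/-- Extension of a local isomorphism over `A`, free from a finite set `C`. -/
theorem Hen.amalg {n : ℕ} (hE : Hen E n) (hA : A.Finite) [Finite ι] [Finite ζ] {a b : ι → M}
    (h : EH E A a b) (c : ζ → M) {C : Set M} (hC : C.Finite) :
    ∃ d : ζ → M, EH E A (Sum.elim a c) (Sum.elim b d) ∧
      ∀ s, c s ∉ A → c s ∉ range a →
        d s ∉ C ∧ ∀ x ∈ C, E (d s) x → x ∈ A ∨ x ∈ range b := by
  obtain ⟨R', h1, -, h3, h4, h5⟩ := hE.multi_point h (Rel.finite hA a b) hC (range c)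
    (finite_range c)
  have : ∀ s, ∃ d, (c s, d) ∈ R' := by
    intro s
    obtain ⟨p, hp, he⟩ := h4 ⟨s, rfl⟩
    exact ⟨p.2, by rw [← he]; exact hp⟩
  choose d hd using this
  refine ⟨d, PI.mono h3 ?_, ?_⟩
  · rintro p (⟨i | s, rfl⟩ | h2)
    · exact h1 (Or.inl ⟨i, rfl⟩)
    · exact hd s
    · exact h1 (Or.inr h2)
  · intro s hsA hsa
    rcases h5 _ (hd s) with (⟨i, hi⟩ | ⟨hi, _⟩) | ⟨h6, h7⟩
    · exact absurd ⟨i, (congrArg Prod.fst hi).symm⟩ hsa
    · exact absurd hi hsA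
    · refine ⟨h6, fun x hx hdx => ?_⟩
      obtain ⟨q, hq, rfl⟩ := h7 x hx hdx
      rcases hq with ⟨i, rfl⟩ | ⟨hq1, hq2⟩
      · exact Or.inr ⟨i, rfl⟩
      · exact Or.inl (hq2 ▸ hq1)

/-- A copy of `c` over `A` that is free from a finite set `C`. -/
theorem Hen.free_copy {n : ℕ} (hE : Hen E n) (hA : A.Finite) [Finite ζ]
    (c : ζ → M) {C : Set M} (hC : C.Finite) :
    ∃ d : ζ → M, EH E A c d ∧
      ∀ s, c s ∉ A → d s ∉ C ∧ ∀ x ∈ C, E (d s) x → x ∈ A := by
  obtain ⟨d, h1, h2⟩ := hE.amalg hA (EH.refl (E := E) (A := A) (Empty.elim : Empty → M)) c hC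
  refine ⟨d, h1.comp Sum.inr, fun s hs => ?_⟩
  obtain ⟨h3, h4⟩ := h2 s hs (by rintro ⟨i, _⟩; exact i.elim)
  refine ⟨h3, fun x hx hdx => ?_⟩
  rcases h4 x hx hdx with h | ⟨i, _⟩
  · exact h
  · exact i.elim

/-- Finitely many classes. -/
theorem EH.finite_reps (E : M → M → Prop) (hA : A.Finite) (ι : Type*) [Finite ι] :
    ∃ S : Set (ι → M), S.Finite ∧ ∀ a : ι → M, ∃ r ∈ S, EH E A a r := by
  classical
  haveI : Finite A := hA
  let code : (ι → M) → (ι ⊕ A) → (ι ⊕ A) → Prop × Prop := fun a i j =>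
    (Sum.elim a (↑) i = Sum.elim a (↑) j, E (Sum.elim a (↑) i) (Sum.elim a (↑) j))
  refine ⟨range (fun t : range code => t.2.choose), finite_range _, fun a => ?_⟩
  let t : range code := ⟨code a, a, rfl⟩
  refine ⟨t.2.choose, ⟨t, rfl⟩, ?_⟩
  have ht : code t.2.choose = code a := t.2.choose_spec
  have : ∀ p ∈ Rel A a t.2.choose, ∃ i : ι ⊕ A,
      p.1 = Sum.elim a (↑) i ∧ p.2 = Sum.elim t.2.choose (↑) i := by
    rintro p (⟨i, rfl⟩ | ⟨h1, h2⟩)
    · exact ⟨Sum.inl i, rfl, rfl⟩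
    · exact ⟨Sum.inr ⟨p.1, h1⟩, rfl, h2⟩
  intro p hp q hq
  obtain ⟨i, hi1, hi2⟩ := this p hp
  obtain ⟨j, hj1, hj2⟩ := this q hq
  have := congrFun (congrFun ht i) j
  simp only [code, Prod.mk.injEq, eq_iff_iff] at this
  rw [hi1, hi2, hj1, hj2]
  exact ⟨this.1.symm, this.2.symm⟩

/-- Two tuples are free over `A`. -/
def Free (E : M → M → Prop) (A : Set M) (y : ι → M) (w : κ → M) : Prop :=
  ∀ i j, y i ∉ A → w j ∉ A → y i ≠ w j ∧ ¬ E (y i) (w j)

theorem EH.free_unique (hs : ∀ x y, E x y → E y x) {y y' : ι → M} {w w' : κ → M}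
    (hy : EH E A y y') (hw : EH E A w w') (h : Free E A y w) (h' : Free E A y' w') :
    EH E A (Sum.elim y w) (Sum.elim y' w') := by
  have mixed : ∀ i j, (y i = w j ↔ y' i = w' j) ∧ (E (y i) (w j) ↔ E (y' i) (w' j)) := by
    intro i j
    by_cases hi : y i ∈ A
    · have := hw (y i, y i) (Or.inr ⟨hi, rfl⟩) (w j, w' j) (Or.inl ⟨j, rfl⟩)
      rw [hy.eq_of_mem hi]; exact this
    · by_cases hj : w j ∈ A
      · have := hy (y i, y' i) (Or.inl ⟨i, rfl⟩) (w j, w j) (Or.inr ⟨hj, rfl⟩)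
        rw [hw.eq_of_mem hj]; exact this
      · have h1 := h i j hi hj
        have h2 := h' i j (fun hh => hi ((hy.mem_iff i).2 hh)) (fun hh => hj ((hw.mem_iff j).2 hh))
        exact ⟨iff_of_false h1.1 h2.1, iff_of_false h1.2 h2.2⟩
  have cases : ∀ p ∈ Rel A (Sum.elim y w) (Sum.elim y' w'),
      (∃ i, p = (y i, y' i)) ∨ (∃ j, p = (w j, w' j)) ∨ (p.1 ∈ A ∧ p.2 = p.1) := by
    rintro p (⟨i | j, rfl⟩ | h2)
    · exact Or.inl ⟨i, rfl⟩
    · exact Or.inr (Or.inl ⟨j, rfl⟩)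
    · exact Or.inr (Or.inr h2)
  intro p hp q hq
  rcases cases p hp with ⟨i, rfl⟩ | ⟨j, rfl⟩ | hp'
  · rcases cases q hq with ⟨i', rfl⟩ | ⟨j', rfl⟩ | hq'
    · exact hy _ (Or.inl ⟨i, rfl⟩) _ (Or.inl ⟨i', rfl⟩)
    · exact mixed i j'
    · exact hy _ (Or.inl ⟨i, rfl⟩) _ (Or.inr hq')
  · rcases cases q hq with ⟨i', rfl⟩ | ⟨j', rfl⟩ | hq'
    · obtain ⟨m1, m2⟩ := mixed i' j
      exact ⟨⟨fun e => (m1.1 e.symm).symm, fun e => (m1.2 e.symm).symm⟩,
        ⟨fun e => hs _ _ (m2.1 (hs _ _ e)), fun e => hs _ _ (m2.2 (hs _ _ e))⟩⟩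
    · exact hw _ (Or.inl ⟨j, rfl⟩) _ (Or.inl ⟨j', rfl⟩)
    · exact hw _ (Or.inl ⟨j, rfl⟩) _ (Or.inr hq')
  · rcases cases q hq with ⟨i', rfl⟩ | ⟨j', rfl⟩ | hq'
    · exact hy _ (Or.inr hp') _ (Or.inl ⟨i', rfl⟩)
    · exact hw _ (Or.inr hp') _ (Or.inl ⟨j', rfl⟩)
    · exact hy _ (Or.inr hp') _ (Or.inr hq')

end EH

end Pool.Agent.Work.MP_11a3f4_lc
end

-- merged part: Pool.Agent.Work.MP_11a3f4_lc.Types
section
/-! Types with respect to the formulas that are invariant over a finite parameter set. -/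

namespace Pool.Agent.Work.MP_11a3f4_lc

open Set FirstOrder FirstOrder.Language

variable {L : FirstOrder.Language} {M : Type*} [L.Structure M]

theorem transfer {P Q : Type*} [L.Structure P] [L.Structure Q] {ι : Type*} [Finite ι]
    (h : P ≅[L] Q) (ψ : L.Formula ι) (hψ : ∀ x : ι → P, ψ.Realize x) (x : ι → Q) :
    ψ.Realize x := by
  have h1 : P ⊨ ((ψ.relabel (Sum.inr : ι → Empty ⊕ ι)).iAlls ι : L.Sentence) := by
    simp only [Sentence.Realize, Formula.realize_iAlls, Formula.realize_relabel]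
    intro i
    exact hψ _
  have h2 := (h.realize_sentence _).1 h1
  simp only [Sentence.Realize, Formula.realize_iAlls, Formula.realize_relabel] at h2
  exact h2 x

/-- The formula is invariant in `M` under local graph isomorphisms over `A`. -/
def Inv (E : M → M → Prop) (A : Set M) {ι : Type*} (φ : L.Formula ι) : Prop :=
  ∀ a b : ι → M, EH E A a b → (φ.Realize a ↔ φ.Realize b)

/-- Two tuples (in possibly different structures) satisfy the same invariant formulas. -/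
def XE (L : FirstOrder.Language) [L.Structure M] (E : M → M → Prop) (A : Set M) {P Q : Type*}
    [L.Structure P] [L.Structure Q] {ι : Type*} (a : ι → P) (b : ι → Q) : Prop :=
  ∀ φ : L.Formula ι, Inv E A φ → (φ.Realize a ↔ φ.Realize b)

section
variable {E : M → M → Prop} {A : Set M} {ι κ ζ : Type*}
variable {P Q Q' : Type*} [L.Structure P] [L.Structure Q] [L.Structure Q']

theorem Inv.relabel {φ : L.Formula ι} (h : Inv E A φ) (f : ι → κ) : Inv E A (φ.relabel f) := by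
  intro a b hab
  simp only [Formula.realize_relabel]
  exact h _ _ (hab.comp f)

theorem Inv.not {φ : L.Formula ι} (h : Inv E A φ) : Inv E A φ.not := by
  intro a b hab
  simp only [Formula.realize_not, h a b hab]

theorem Inv.mono {A' : Set M} {φ : L.Formula ι} (h : Inv E A φ) (hs : A ⊆ A') : Inv E A' φ :=
  fun a b hab => h a b (hab.anti hs)

theorem Inv.iInf {β : Type*} [Finite β] {f : β → L.Formula ι} (h : ∀ b, Inv E A (f b)) :
    Inv E A (Formula.iInf f) := by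
  intro a b hab
  simp only [Formula.realize_iInf]
  exact forall_congr' fun i => h i a b hab

theorem Inv.iExs {n : ℕ} (hE : Hen E n) (hA : A.Finite) [Finite ι] [Finite ζ]
    {φ : L.Formula (ι ⊕ ζ)} (h : Inv E A φ) : Inv E A (φ.iExs ζ) := by
  have : ∀ a b : ι → M, EH E A a b → (φ.iExs ζ).Realize a → (φ.iExs ζ).Realize b := by
    intro a b hab
    simp only [Formula.realize_iExs]
    rintro ⟨c, hc⟩
    obtain ⟨d, hd, -⟩ := hE.amalg hA hab c finite_empty
    exact ⟨d, (h _ _ hd).1 hc⟩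
  exact fun a b hab => ⟨this a b hab, this b a hab.symm⟩

theorem Inv.equal (i j : ι) :
    Inv E A ((Term.var i).equal (Term.var j) : L.Formula ι) := by
  intro a b hab
  simp only [Formula.realize_equal, Term.realize_var]
  exact hab.eq_iff i j

theorem XE.refl (a : ι → P) : XE L E A a a := fun _ _ => Iff.rfl

theorem XE.symm {a : ι → P} {b : ι → Q} (h : XE L E A a b) : XE L E A b a :=
  fun φ hφ => (h φ hφ).symm

theorem XE.trans {a : ι → P} {b : ι → Q} {c : ι → Q'} (h : XE L E A a b) (h' : XE L E A b c) :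
    XE L E A a c := fun φ hφ => (h φ hφ).trans (h' φ hφ)

theorem XE.comp {a : ι → P} {b : ι → Q} (h : XE L E A a b) (f : κ → ι) :
    XE L E A (a ∘ f) (b ∘ f) := by
  intro φ hφ
  have := h _ (hφ.relabel f)
  simpa only [Formula.realize_relabel] using this

theorem XE.of_comp {a : ι → P} {b : ι → Q} (h : XE L E A a b) (f : κ → ι) {a' : κ → P}
    {b' : κ → Q} (ha : ∀ k, a' k = a (f k)) (hb : ∀ k, b' k = b (f k)) : XE L E A a' b' := by
  have e1 : a' = a ∘ f := funext ha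
  have e2 : b' = b ∘ f := funext hb
  rw [e1, e2]
  exact h.comp f

theorem XE.eq_iff {a : ι → P} {b : ι → Q} (h : XE L E A a b) (i j : ι) :
    a i = a j ↔ b i = b j := by
  simpa only [Formula.realize_equal, Term.realize_var] using h _ (Inv.equal i j)

theorem EH.xe {a b : ι → M} (h : EH E A a b) : XE L E A a b := fun _ hφ => hφ a b h

theorem isolate (hA : A.Finite) [Finite ι] (b : ι → M) :
    ∃ χ : L.Formula ι, Inv E A χ ∧ χ.Realize b ∧
      ∀ b' : ι → M, χ.Realize b' → XE L E A b' b := by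
  obtain ⟨S, hS, hrep⟩ := EH.finite_reps E hA ι
  have : ∀ r : {r : ι → M // r ∈ S ∧ ¬ XE L E A r b},
      ∃ φ : L.Formula ι, Inv E A φ ∧ φ.Realize b ∧ ¬ φ.Realize r.1 := by
    rintro ⟨r, -, hr⟩
    simp only [XE, not_forall] at hr
    obtain ⟨φ, hφ, hr⟩ := hr
    by_cases hb : φ.Realize b
    · exact ⟨φ, hφ, hb, fun h => hr (iff_of_true h hb)⟩
    · refine ⟨φ.not, hφ.not, hb, fun h => hr (iff_of_false ?_ hb)⟩
      simpa only [Formula.realize_not] using h
  choose f hf using this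
  have : Finite {r : ι → M // r ∈ S ∧ ¬ XE L E A r b} :=
    (hS.subset (fun r (hr : r ∈ S ∧ ¬ XE L E A r b) => hr.1)).to_subtype
  refine ⟨Formula.iInf f, Inv.iInf fun r => (hf r).1, ?_, ?_⟩
  · simp only [Formula.realize_iInf]
    exact fun r => (hf r).2.1
  · intro b' hb'
    obtain ⟨r, hrS, hr⟩ := hrep b'
    have h1 : (Formula.iInf f).Realize r := ((Inv.iInf fun r => (hf r).1) _ _ hr).1 hb'
    have h2 : XE L E A r b := by
      by_contra hn
      simp only [Formula.realize_iInf] at h1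
      exact (hf ⟨r, hrS, hn⟩).2.2 (h1 ⟨r, hrS, hn⟩)
    exact hr.xe.trans h2

theorem isolateQ (hQ : M ≅[L] Q) [Finite ι] {b : ι → M} {χ : L.Formula ι}
    (h : ∀ b' : ι → M, χ.Realize b' → XE L E A b' b) {c : ι → Q} (hc : χ.Realize c) :
    XE L E A c b := by
  intro φ hφ
  by_cases hb : φ.Realize b
  · have := transfer hQ (χ.imp φ) (fun x => by
      simp only [Formula.realize_imp]
      exact fun hx => (h x hx φ hφ).2 hb) c
    simp only [Formula.realize_imp] at this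
    exact iff_of_true (this hc) hb
  · have := transfer hQ (χ.imp φ.not) (fun x => by
      simp only [Formula.realize_imp, Formula.realize_not]
      exact fun hx hφx => hb ((h x hx φ hφ).1 hφx)) c
    simp only [Formula.realize_imp, Formula.realize_not] at this
    exact iff_of_false (this hc) hb

theorem cover (hA : A.Finite) (hQ : M ≅[L] Q) [Finite ι] (c : ι → Q) :
    ∃ b : ι → M, XE L E A c b := by
  obtain ⟨S, hS, hrep⟩ := EH.finite_reps E hA ι
  have : Finite S := hS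
  choose χ hχ using fun r : S => isolate (L := L) (E := E) hA r.1
  have := transfer hQ (Formula.iSup χ) (fun x => by
    simp only [Formula.realize_iSup]
    obtain ⟨r, hrS, hr⟩ := hrep x
    exact ⟨⟨r, hrS⟩, ((hχ ⟨r, hrS⟩).1 _ _ hr).2 (hχ ⟨r, hrS⟩).2.1⟩) c
  simp only [Formula.realize_iSup] at this
  obtain ⟨r, hr⟩ := this
  exact ⟨r.1, isolateQ hQ (hχ r).2.2 hr⟩

theorem XE.extend {n : ℕ} (hE : Hen E n) (hA : A.Finite) (hQ : M ≅[L] Q) (hQ' : M ≅[L] Q')
    [Finite ι] [Finite ζ] {a : ι → Q} {a' : ι → Q'} (h : XE L E A a a') (c : ζ → Q) :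
    ∃ c' : ζ → Q', XE L E A (Sum.elim a c) (Sum.elim a' c') := by
  obtain ⟨b, hb⟩ := cover (E := E) hA hQ (Sum.elim a c)
  obtain ⟨χ, h1, h2, h3⟩ := isolate (L := L) (E := E) hA b
  have h4 : (χ.iExs ζ).Realize a := by
    simp only [Formula.realize_iExs]
    exact ⟨c, (hb χ h1).2 h2⟩
  have h5 := (h _ (h1.iExs hE hA)).1 h4
  simp only [Formula.realize_iExs] at h5
  obtain ⟨c', hc'⟩ := h5
  exact ⟨c', hb.trans (isolateQ hQ' h3 hc').symm⟩

theorem XE.empty (hQ : M ≅[L] Q) (hQ' : M ≅[L] Q') (a : Empty → Q) (a' : Empty → Q') :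
    XE L E A a a' := by
  intro φ _
  have := (hQ.symm.trans hQ').realize_sentence φ
  simp only [Sentence.Realize] at this
  rw [Unique.eq_default a, Unique.eq_default a']
  exact this

theorem XE.realize {n : ℕ} (hE : Hen E n) (hA : A.Finite) (hQ : M ≅[L] Q) (hQ' : M ≅[L] Q')
    [Finite ζ] (c : ζ → Q) : ∃ c' : ζ → Q', XE L E A c c' := by
  obtain ⟨c', hc'⟩ := (XE.empty (E := E) (A := A) hQ hQ' default default).extend hE hA hQ hQ' c
  exact ⟨c', hc'.comp Sum.inr⟩

end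

end Pool.Agent.Work.MP_11a3f4_lc
end

-- merged part: Pool.Agent.Work.MP_11a3f4_lc.InvF
section
/-! Every formula of a reduct is invariant over a finite set of parameters. -/

namespace Pool.Agent.Work.MP_11a3f4_lc

open Set FirstOrder FirstOrder.Language

variable {M : Type*} {E : M → M → Prop} {n : ℕ}

theorem EH.of_comp {A : Set M} {ι κ : Type*} {a b : ι → M} (h : EH E A a b) (f : κ → ι)
    {a' b' : κ → M} (ha : ∀ k, a' k = a (f k)) (hb : ∀ k, b' k = b (f k)) : EH E A a' b' := by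
  have e1 : a' = a ∘ f := funext ha
  have e2 : b' = b ∘ f := funext hb
  rw [e1, e2]
  exact h.comp f

theorem term_var {L : FirstOrder.Language} [L.IsRelational] {β : Type*} (t : L.Term β) :
    ∃ b, t = Term.var b := by
  cases t with
  | var b => exact ⟨b, rfl⟩
  | func f _ => exact isEmptyElim f

theorem inv_bounded {L : FirstOrder.Language} [L.IsRelational] [L.Structure M] (hE : Hen E n)
    (A : Set M) (hrel : ∀ k (r : L.Relations k), ∃ A' ⊆ A, A'.Finite ∧
      ∀ x x' : Fin k → M, EH E A' x x' → (Structure.RelMap r x ↔ Structure.RelMap r x'))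
    {α : Type*} [Finite α] {k : ℕ} (φ : L.BoundedFormula α k) :
    ∃ A' ⊆ A, A'.Finite ∧ ∀ (v v' : α → M) (xs xs' : Fin k → M),
      EH E A' (Sum.elim v xs) (Sum.elim v' xs') → (φ.Realize v xs ↔ φ.Realize v' xs') := by
  induction φ with
  | falsum => exact ⟨∅, empty_subset _, finite_empty, fun _ _ _ _ _ => Iff.rfl⟩
  | equal t₁ t₂ =>
    obtain ⟨b₁, rfl⟩ := term_var t₁
    obtain ⟨b₂, rfl⟩ := term_var t₂
    exact ⟨∅, empty_subset _, finite_empty, fun _ _ _ _ h => h.eq_iff b₁ b₂⟩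
  | rel r ts =>
    choose b hb using fun i => term_var (ts i)
    obtain ⟨A', h1, h2, h3⟩ := hrel _ r
    refine ⟨A', h1, h2, fun v v' xs xs' h => ?_⟩
    simp only [BoundedFormula.Realize, hb, Term.realize_var]
    exact h3 _ _ (h.comp b)
  | imp φ ψ ih1 ih2 =>
    obtain ⟨A₁, h1, h2, h3⟩ := ih1
    obtain ⟨A₂, h4, h5, h6⟩ := ih2
    refine ⟨A₁ ∪ A₂, union_subset h1 h4, h2.union h5, fun v v' xs xs' h => ?_⟩
    simp only [BoundedFormula.realize_imp]
    rw [h3 v v' xs xs' (h.anti subset_union_left), h6 v v' xs xs' (h.anti subset_union_right)]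
  | @all k φ ih =>
    obtain ⟨A', h1, h2, h3⟩ := ih
    have key : ∀ (v v' : α → M) (xs xs' : Fin k → M),
        EH E A' (Sum.elim v xs) (Sum.elim v' xs') → φ.all.Realize v' xs' → φ.all.Realize v xs := by
      intro v v' xs xs' h
      simp only [BoundedFormula.realize_all]
      intro h4 a
      obtain ⟨d, hd, -⟩ := hE.amalg h2 h (fun _ : Unit => a) finite_empty
      refine (h3 v v' (Fin.snoc xs a) (Fin.snoc xs' (d ())) ?_).2 (h4 _)
      refine hd.of_comp (Sum.elim (Sum.inl ∘ Sum.inl)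
        (Fin.lastCases (Sum.inr ()) (fun i => Sum.inl (Sum.inr i)))) ?_ ?_
      · rintro (i | i)
        · rfl
        · cases i using Fin.lastCases <;> simp
      · rintro (i | i)
        · rfl
        · cases i using Fin.lastCases <;> simp
    exact ⟨A', h1, h2, fun v v' xs xs' h => ⟨key v' v xs' xs h.symm, key v v' xs xs' h⟩⟩

theorem inv_formula {L : FirstOrder.Language} [L.IsRelational] [L.Structure M] (hE : Hen E n)
    (A : Set M) (hrel : ∀ k (r : L.Relations k), ∃ A' ⊆ A, A'.Finite ∧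
      ∀ x x' : Fin k → M, EH E A' x x' → (Structure.RelMap r x ↔ Structure.RelMap r x'))
    {α : Type*} [Finite α] (φ : L.Formula α) :
    ∃ A' ⊆ A, A'.Finite ∧ Inv E A' φ := by
  obtain ⟨A', h1, h2, h3⟩ := inv_bounded hE A hrel φ
  refine ⟨A', h1, h2, fun a b hab => h3 a b default default ?_⟩
  refine hab.of_comp (Sum.elim id Fin.elim0) ?_ ?_
  · rintro (i | i)
    · rfl
    · exact i.elim0
  · rintro (i | i)
    · rfl
    · exact i.elim0

/-- Adjacency of a structure in the language of graphs. -/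
def Adj (M : Type*) [Language.graph.Structure M] (x y : M) : Prop :=
  Structure.RelMap Language.adj ![x, y]

theorem inv_definable [Language.graph.Structure M] (hE : Hen (Adj M) n) {A : Set M} {k : ℕ}
    {D : Set (Fin k → M)} (hD : A.Definable Language.graph D) :
    ∃ A' ⊆ A, A'.Finite ∧ ∀ x x' : Fin k → M, EH (Adj M) A' x x' → (x ∈ D ↔ x' ∈ D) := by
  obtain ⟨A₀, h1, h2⟩ := definable_iff_finitely_definable.1 hD
  obtain ⟨φ, rfl⟩ := definable_iff_exists_formula_sum.1 h2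
  refine ⟨A₀, h1, A₀.finite_toSet, fun x x' h => ?_⟩
  obtain ⟨A', h3, -, h4⟩ := inv_formula (L := Language.graph) hE ∅ (by
    intro k r
    refine ⟨∅, Subset.rfl, finite_empty, fun y y' hy => ?_⟩
    cases r
    have e : ∀ y : Fin 2 → M, y = ![y 0, y 1] := fun y => by
      funext i; fin_cases i <;> rfl
    rw [e y, e y']
    exact hy.adj_iff 0 1) φ
  refine h4 _ _ (PI.mono h ?_)
  rintro p (⟨i | i, rfl⟩ | ⟨hp, -⟩)
  · exact Or.inr ⟨i.2, rfl⟩
  · exact Or.inl ⟨i, rfl⟩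
  · exact (h3 hp).elim

end Pool.Agent.Work.MP_11a3f4_lc
end

-- merged part: Pool.Agent.Work.MP_11a3f4_lc.Henson
section
/-! Models of the theory of the Henson graph have the extension property. -/

namespace Pool.Agent.Work.MP_11a3f4_lc

open Set FirstOrder FirstOrder.Language

universe w

theorem Adj.map {X Y : Type*} [Language.graph.Structure X] [Language.graph.Structure Y]
    (f : X ↪[Language.graph] Y) (a b : X) : Adj Y (f a) (f b) ↔ Adj X a b := by
  have := f.map_rel Language.adj ![a, b]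
  have e : f ∘ ![a, b] = ![f a, f b] := by
    funext i; fin_cases i <;> rfl
  rw [e] at this
  exact this

/-- An embedding from an injective map that preserves adjacency. -/
def mkEmb {X Y : Type*} [Language.graph.Structure X] [Language.graph.Structure Y] (f : X → Y)
    (hf : Function.Injective f) (h : ∀ a b, Adj Y (f a) (f b) ↔ Adj X a b) :
    X ↪[Language.graph] Y where
  toFun := f
  inj' := hf
  map_fun' := fun g => isEmptyElim g
  map_rel' := by
    intro k r x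
    cases r
    have e1 : x = ![x 0, x 1] := by funext i; fin_cases i <;> rfl
    have e2 : f ∘ x = ![f (x 0), f (x 1)] := by funext i; fin_cases i <;> rfl
    have := h (x 0) (x 1)
    simp only [Adj] at this
    rw [← e1, ← e2] at this
    exact this

/-- The structure given by a binary relation. -/
@[reducible] def relStr {X : Type*} (R : X → X → Prop) : Language.graph.Structure X where
  funMap := fun g => isEmptyElim g
  RelMap := fun {k} r => match k, r with
    | _, .adj => fun x => R (x 0) (x 1)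

/-- One point extension of the graph induced on `W`. -/
def optRel {H : Type*} (E : H → H → Prop) (U W : Set H) : Option W → Option W → Prop
  | none, none => False
  | none, some b => b.1 ∈ U
  | some a, none => a.1 ∈ U
  | some a, some b => E a.1 b.1

theorem hen_of_limit {H : Type w} [Language.graph.Structure H] [Countable H] {m : ℕ}
    (hH : IsFraisseLimit (hensonClass.{w} (m + 1)) H) : Hen (Adj H) m := by
  have hsub : ∀ s : Set H, s.Finite →
      (∀ x ∈ s, ¬ Adj H x x) ∧ (∀ x ∈ s, ∀ y ∈ s, Adj H x y → Adj H y x) ∧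
        ¬ Cl (Adj H) (m + 1) s := by
    intro s hs
    have h1 := age.fg_substructure (L := Language.graph) (Substructure.fg_closure hs)
    rw [hH.age] at h1
    obtain ⟨-, h2, h3⟩ := h1
    rw [Theory.simpleGraph_model_iff] at h2
    have hm := Adj.map (Substructure.closure Language.graph s).subtype
    refine ⟨fun x hx h => ?_, fun x hx y hy h => ?_, ?_⟩
    · exact h2.1.irrefl ⟨x, Substructure.subset_closure hx⟩
        ((hm ⟨x, Substructure.subset_closure hx⟩ ⟨x, Substructure.subset_closure hx⟩).1 h)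
    · exact (hm ⟨y, Substructure.subset_closure hy⟩ ⟨x, Substructure.subset_closure hx⟩).2
        (h2.2.symm _ _
          ((hm ⟨x, Substructure.subset_closure hx⟩ ⟨y, Substructure.subset_closure hy⟩).1 h))
    · rintro ⟨f, hf, hadj⟩
      exact h3 ⟨fun i => ⟨f i, Substructure.subset_closure (hf i)⟩, fun i j hij =>
        (hm ⟨f i, Substructure.subset_closure (hf i)⟩
          ⟨f j, Substructure.subset_closure (hf j)⟩).1 (hadj i j hij)⟩
  have hirr : ∀ x, ¬ Adj H x x := fun x => (hsub {x} (finite_singleton x)).1 x rfl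
  have hsymm : ∀ x y, Adj H x y → Adj H y x := fun x y =>
    (hsub {x, y} (toFinite _)).2.1 x (mem_insert _ _) y (mem_insert_of_mem _ rfl)
  have hfree : ¬ Cl (Adj H) (m + 1) univ := by
    rintro ⟨f, -, hadj⟩
    exact (hsub (range f) (finite_range f)).2.2 ⟨f, fun s => ⟨s, rfl⟩, hadj⟩
  refine ⟨hsymm, hirr, hfree, fun U V hU hV hUV hcl => ?_⟩
  have : Finite (U ∪ V : Set H) := hU.union hV
  let sW : Language.graph.Structure (U ∪ V : Set H) := relStr fun a b => Adj H a.1 b.1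
  let sT : Language.graph.Structure (Option (U ∪ V : Set H)) := relStr (optRel (Adj H) U (U ∪ V))
  have hT : (⟨Option (U ∪ V : Set H), sT⟩ : CategoryTheory.Bundled.{w} Language.graph.Structure) ∈
      hensonClass.{w} (m + 1) := by
    refine ⟨inferInstanceAs (Finite (Option (U ∪ V : Set H))), ?_, ?_⟩
    · rw [Theory.simpleGraph_model_iff]
      refine ⟨⟨?_⟩, ⟨?_⟩⟩
      · rintro (_ | a)
        · exact id
        · exact hirr _
      · rintro (_ | a) (_ | b)
        · exact id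
        · exact id
        · exact id
        · exact hsymm _ _
    · rintro ⟨f, hf⟩
      have hf' : ∀ i j, i ≠ j → optRel (Adj H) U (U ∪ V) (f i) (f j) := hf
      by_cases hn : ∃ i, f i = none
      · obtain ⟨i, hi⟩ := hn
        have : ∀ s : Fin m, ∃ a : (U ∪ V : Set H), f (i.succAbove s) = some a ∧ a.1 ∈ U := by
          intro s
          have h1 := hf' i (i.succAbove s) (Fin.ne_succAbove i s)
          rw [hi] at h1
          rcases h2 : f (i.succAbove s) with _ | a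
          · rw [h2] at h1; exact h1.elim
          · rw [h2] at h1; exact ⟨a, rfl, h1⟩
        choose a ha1 ha2 using this
        refine hcl ⟨fun s => (a s).1, ha2, fun s t hst => ?_⟩
        have h1 := hf' _ _ (fun he => hst (Fin.succAbove_right_injective (p := i) he))
        rw [ha1, ha1] at h1
        exact h1
      · have : ∀ s, ∃ a : (U ∪ V : Set H), f s = some a := by
          intro s
          rcases h2 : f s with _ | a
          · exact absurd ⟨s, h2⟩ hn
          · exact ⟨a, rfl⟩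
        choose a ha using this
        refine hfree ⟨fun s => (a s).1, fun _ => mem_univ _, fun s t hst => ?_⟩
        have h1 := hf' _ _ hst
        rw [ha, ha] at h1
        exact h1
  rw [← hH.age] at hT
  have hne : Nonempty (Option (U ∪ V : Set H) ↪[Language.graph] H) := hT.2
  obtain ⟨f', hf'⟩ := hH.ultrahomogeneous.extend_embedding (S := (U ∪ V : Set H))
    Structure.FG.of_finite (T := Option (U ∪ V : Set H))
    (mkEmb (↑) Subtype.val_injective fun _ _ => Iff.rfl)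
    (mkEmb some (Option.some_injective _) fun _ _ => Iff.rfl)
  have hv : ∀ a : (U ∪ V : Set H), f' (some a) = a.1 := fun a =>
    (congrArg (fun g : (U ∪ V : Set H) ↪[Language.graph] H => g a) hf').symm
  have hne' : ∀ a : (U ∪ V : Set H), f' none ≠ a.1 := by
    intro a he
    rw [← hv a] at he
    exact absurd (f'.injective he) (by simp)
  have hadj : ∀ a : (U ∪ V : Set H), Adj H (f' none) a.1 ↔ a.1 ∈ U := by
    intro a
    rw [← hv a, Adj.map f', hv a]
    exact Iff.rfl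
  refine ⟨f' none, fun h => hne' ⟨_, Or.inl h⟩ rfl, fun h => hne' ⟨_, Or.inr h⟩ rfl,
    fun u hu => (hadj ⟨u, Or.inl hu⟩).2 hu, fun v hv' h => ?_⟩
  exact disjoint_left.1 hUV ((hadj ⟨v, Or.inr hv'⟩).1 h) hv'

/-- The adjacency formula. -/
def adjF {α : Type*} (i j : α) : Language.graph.Formula α :=
  Language.adj.formula₂ (Term.var i) (Term.var j)

@[simp] theorem realize_adjF {X α : Type*} [Language.graph.Structure X] (i j : α) (x : α → X) :
    (adjF i j).Realize x ↔ Adj X (x i) (x j) := by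
  simp [adjF, Adj]

theorem Hen.transfer {H M : Type*} [Language.graph.Structure H] [Language.graph.Structure M]
    {m : ℕ} (hH : Hen (Adj H) m) (h : H ≅[Language.graph] M) : Hen (Adj M) m := by
  refine ⟨fun x y => ?_, fun x => ?_, ?_, fun U V hU hV hUV hcl => ?_⟩
  · have := _root_.Pool.Agent.Work.MP_11a3f4_lc.transfer h ((adjF (0 : Fin 2) 1).imp (adjF 1 0))
      (fun z => by
        simp only [Formula.realize_imp, realize_adjF]
        exact hH.symm _ _) ![x, y]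
    simp only [Formula.realize_imp, realize_adjF] at this
    exact this
  · have := _root_.Pool.Agent.Work.MP_11a3f4_lc.transfer h (adjF () ()).not
      (fun z => by
        simp only [Formula.realize_not, realize_adjF]
        exact hH.irr _) (fun _ => x)
    simpa only [Formula.realize_not, realize_adjF] using this
  · rintro ⟨f, -, hf⟩
    have := _root_.Pool.Agent.Work.MP_11a3f4_lc.transfer h
      (Formula.iInf fun p : {p : Fin (m + 1) × Fin (m + 1) // p.1 ≠ p.2} => adjF p.1.1 p.1.2).not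
      (fun z => by
        simp only [Formula.realize_not, Formula.realize_iInf, realize_adjF]
        exact fun hz => hH.free ⟨z, fun _ => mem_univ _, fun s t hst => hz ⟨(s, t), hst⟩⟩) f
    simp only [Formula.realize_not, Formula.realize_iInf, realize_adjF] at this
    exact this fun p => hf _ _ p.2
  · have : Finite U := hU
    have : Finite V := hV
    let hyp1 : Language.graph.Formula (U ⊕ V) := Formula.iInf fun p : U × V =>
      ((Term.var (Sum.inl p.1)).equal (Term.var (Sum.inr p.2))).not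
    let hyp2 : Language.graph.Formula (U ⊕ V) := Formula.iInf fun f : Fin m → U =>
      (Formula.iInf fun p : {p : Fin m × Fin m // p.1 ≠ p.2} =>
        adjF (Sum.inl (f p.1.1)) (Sum.inl (f p.1.2))).not
    let con : Language.graph.Formula ((U ⊕ V) ⊕ Unit) :=
      (Formula.iInf fun k : U ⊕ V => ((Term.var (Sum.inr ())).equal (Term.var (Sum.inl k))).not) ⊓
      ((Formula.iInf fun i : U => adjF (Sum.inr ()) (Sum.inl (Sum.inl i))) ⊓
       (Formula.iInf fun j : V => (adjF (Sum.inr ()) (Sum.inl (Sum.inr j))).not))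
    have := _root_.Pool.Agent.Work.MP_11a3f4_lc.transfer h (hyp1.imp (hyp2.imp (con.iExs Unit)))
      (fun z => by
        simp only [hyp1, hyp2, con, Formula.realize_imp, Formula.realize_iInf, Formula.realize_not,
          Formula.realize_equal, Term.realize_var, realize_adjF, Formula.realize_iExs,
          Formula.realize_inf, Sum.elim_inl, Sum.elim_inr]
        intro h1 h2
        obtain ⟨x, hx1, hx2, hx3, hx4⟩ := hH.ext (range (z ∘ Sum.inl)) (range (z ∘ Sum.inr))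
          (finite_range _) (finite_range _) (by
            rw [disjoint_left]
            rintro _ ⟨i, rfl⟩ ⟨j, hj⟩
            exact h1 (i, j) hj.symm) (by
            rintro ⟨f, hf, hadj⟩
            choose g hg using hf
            refine h2 g fun p => ?_
            have := hadj _ _ p.2
            rw [← hg, ← hg] at this
            exact this)
        refine ⟨fun _ => x, ?_, fun i => hx3 _ ⟨i, rfl⟩, fun j => hx4 _ ⟨j, rfl⟩⟩
        rintro (i | j) he
        · exact hx1 ⟨i, he.symm⟩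
        · exact hx2 ⟨j, he.symm⟩) (Sum.elim (↑) (↑))
    simp only [hyp1, hyp2, con, Formula.realize_imp, Formula.realize_iInf, Formula.realize_not,
      Formula.realize_equal, Term.realize_var, realize_adjF, Formula.realize_iExs,
      Formula.realize_inf, Sum.elim_inl, Sum.elim_inr] at this
    obtain ⟨x, hx1, hx2, hx3⟩ := this
      (fun p he => disjoint_left.1 hUV p.1.2 (he ▸ p.2.2))
      (fun f hf => hcl ⟨fun s => (f s).1, fun s => (f s).2, fun s t hst => hf ⟨(s, t), hst⟩⟩)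
    exact ⟨x (), fun hx => hx1 (Sum.inl ⟨_, hx⟩) rfl, fun hx => hx1 (Sum.inr ⟨_, hx⟩) rfl,
      fun u hu => hx2 ⟨u, hu⟩, fun v hv => hx3 ⟨v, hv⟩⟩

end Pool.Agent.Work.MP_11a3f4_lc
end

-- merged part: Pool.Agent.Work.MP_11a3f4_lc.Core
section
/-! The synchronisation argument inside the graph `M`. -/

namespace Pool.Agent.Work.MP_11a3f4_lc

open Set FirstOrder FirstOrder.Language

theorem exists_max_pre {X : Type*} (r : X → X → Prop) (htr : ∀ x y z, r x y → r y z → r x z)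
    (S R : Set X) (hR : R.Finite) (hS : S.Nonempty)
    (hrep : ∀ x ∈ S, ∃ ρ ∈ R, r x ρ ∧ r ρ x) : ∃ m ∈ S, ∀ x ∈ S, r m x → r x m := by
  let f : X → ℕ := fun x => {ρ ∈ R | r ρ x}.ncard
  have hb : ∀ x, f x ≤ R.ncard := fun x => ncard_le_ncard (fun _ h => h.1) hR
  have hne : (f '' S).Nonempty := hS.image f
  have hbd : BddAbove (f '' S) := ⟨R.ncard, by rintro _ ⟨x, -, rfl⟩; exact hb x⟩
  obtain ⟨m, hm, hm'⟩ := Nat.sSup_mem hne hbd
  refine ⟨m, hm, fun x hx hmx => ?_⟩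
  have hsub : {ρ ∈ R | r ρ m} ⊆ {ρ ∈ R | r ρ x} := fun ρ h => ⟨h.1, htr _ _ _ h.2 hmx⟩
  have hle : f x ≤ f m := hm' ▸ le_csSup hbd ⟨x, hx, rfl⟩
  have heq := eq_of_subset_of_ncard_le hsub hle (hR.subset fun _ h => h.1)
  obtain ⟨ρ, hρ, h1, h2⟩ := hrep x hx
  have : ρ ∈ {ρ ∈ R | r ρ m} := heq ▸ ⟨hρ, h2⟩
  exact htr _ _ _ h1 this.2

variable {L : FirstOrder.Language} {M : Type*} [L.Structure M]

/-- The points all of whose conjugates lie in `A`. -/
def A0 (L : FirstOrder.Language) [L.Structure M] (E : M → M → Prop) (A : Set M) : Set M :=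
  {x | ∀ y : M, XE L E A (fun _ : Unit => x) (fun _ => y) → y ∈ A}

/-- The tuple `z` meets `y` only in `A0`. -/
def Dis (L : FirstOrder.Language) [L.Structure M] (E : M → M → Prop) (A : Set M) {ι ζ : Type*}
    (z : ζ → M) (y : ι → M) : Prop :=
  ∀ s i, z s = y i → z s ∈ A0 L E A

/-- The preorder on pairs of tuples. -/
def Le (L : FirstOrder.Language) [L.Structure M] (E : M → M → Prop) (A : Set M) (ζ : Type*) {ι ω : Type*}
    (y : ι → M) (w : ω → M) (y' : ι → M) (w' : ω → M) : Prop :=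
  ∀ z : ζ → M, Dis L E A z y → Dis L E A z w →
    ∃ z' : ζ → M, XE L E A (Sum.elim y z) (Sum.elim y' z') ∧ XE L E A (Sum.elim w z) (Sum.elim w' z')

/-- Conjugates of pairs with the same graph type over `A`. -/
def Cj (L : FirstOrder.Language) [L.Structure M] (E : M → M → Prop) (A : Set M) {ι : Type*}
    (v v' : ι → M) : Prop :=
  ∃ p p' : ι → M, XE L E A (Sum.elim v v') (Sum.elim p p') ∧ EH E A p p'

section
variable {E : M → M → Prop} {A : Set M} {ι ω ζ : Type*} {n : ℕ}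

theorem A0_sub {x : M} (h : x ∈ A0 L E A) : x ∈ A := h x (XE.refl _)

theorem A0_inv {a b : ι → M} (h : XE L E A a b) {i : ι} (hi : a i ∈ A0 L E A) :
    b i ∈ A0 L E A := by
  intro y hy
  exact hi y ((h.of_comp (fun _ : Unit => i) (fun _ => rfl) (fun _ => rfl)).trans hy)

theorem Dis.inv {y y' : ι → M} {z z' : ζ → M} (h : XE L E A (Sum.elim y z) (Sum.elim y' z'))
    (hd : Dis L E A z y) : Dis L E A z' y' := by
  intro s i he
  have h1 : z s = y i := (h.eq_iff (Sum.inr s) (Sum.inl i)).2 he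
  exact A0_inv h (i := Sum.inr s) (hd s i h1)

theorem Le.trans {y y' y'' : ι → M} {w w' w'' : ω → M} (h : Le L E A ζ y w y' w')
    (h' : Le L E A ζ y' w' y'' w'') : Le L E A ζ y w y'' w'' := by
  intro z h1 h2
  obtain ⟨z', h3, h4⟩ := h z h1 h2
  obtain ⟨z'', h5, h6⟩ := h' z' (h1.inv h3) (h2.inv h4)
  exact ⟨z'', h3.trans h5, h4.trans h6⟩

theorem XE.ext' (hE : Hen E n) (hA : A.Finite) [Finite ι] [Finite ζ] {a a' : ι → M}
    (h : XE L E A a a') (c : ζ → M) :
    ∃ c' : ζ → M, XE L E A (Sum.elim a c) (Sum.elim a' c') :=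
  h.extend hE hA rfl rfl c

theorem Le.of_xe (hE : Hen E n) (hA : A.Finite) [Finite ι] [Finite ω] [Finite ζ]
    {y y' : ι → M} {w w' : ω → M} (h : XE L E A (Sum.elim y w) (Sum.elim y' w')) :
    Le L E A ζ y w y' w' := by
  intro z _ _
  obtain ⟨z', hz⟩ := h.ext' hE hA z
  exact ⟨z', hz.of_comp (Sum.map Sum.inl id) (by rintro (_ | _) <;> rfl) (by rintro (_ | _) <;> rfl),
    hz.of_comp (Sum.map Sum.inr id) (by rintro (_ | _) <;> rfl) (by rintro (_ | _) <;> rfl)⟩

theorem free_le (hE : Hen E n) (hA : A.Finite) [Finite ι] [Finite ω] [Finite ζ]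
    {y y' : ι → M} {w w' : ω → M} (hy : EH E A y y') (hw : EH E A w w')
    (hf : Free E A y' w') : Le L E A ζ y w y' w' := by
  intro z h1 h2
  obtain ⟨w₁, h3, h4⟩ := hE.amalg hA (EH.refl (E := E) (A := A) z) w (finite_range y)
  have hww₁ : EH E A w w₁ := h3.comp Sum.inr
  have hfree : Free E A y w₁ := by
    intro i j hi hj
    have hj' : w j ∉ A := fun hh => hj ((hww₁.mem_iff j).1 hh)
    have hjz : w j ∉ range z := by
      rintro ⟨s, hs⟩
      exact hj' (hs ▸ A0_sub (h2 s j hs))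
    obtain ⟨h5, h6⟩ := h4 j hj' hjz
    refine ⟨fun he => h5 ⟨i, he⟩, fun he => ?_⟩
    rcases h6 (y i) ⟨i, rfl⟩ (hE.symm _ _ he) with h7 | ⟨s, hs⟩
    · exact hi h7
    · exact hi (hs ▸ A0_sub (h1 s i hs))
  have h7 := EH.free_unique hE.symm hy (hww₁.symm.trans hw) hfree hf
  obtain ⟨z', h8, -⟩ := hE.amalg hA h7 z finite_empty
  refine ⟨z', (h8.xe (L := L)).of_comp (Sum.map Sum.inl id) (by rintro (_ | _) <;> rfl)
    (by rintro (_ | _) <;> rfl), XE.trans (b := Sum.elim w₁ z) ?_ ?_⟩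
  · exact (h3.xe (L := L)).of_comp Sum.swap (by rintro (_ | _) <;> rfl) (by rintro (_ | _) <;> rfl)
  · exact (h8.xe (L := L)).of_comp (Sum.map Sum.inr id) (by rintro (_ | _) <;> rfl)
      (by rintro (_ | _) <;> rfl)

theorem step (hE : Hen E n) (hA : A.Finite) [Finite ι] [Finite ω] [Finite ζ]
    {v v' : ι → M} (h : Cj L E A v v') (u : ι → M) (w : ω → M) :
    ∃ w' : ω → M, XE L E A w w' ∧ Le L E A ζ u w u w' ∧ Le L E A ζ v w v' w' := by
  obtain ⟨p, p', h1, h2⟩ := h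
  obtain ⟨qx, h3⟩ := h1.ext' hE hA (Sum.elim u w)
  set q : ι → M := qx ∘ Sum.inl with hq
  set x : ω → M := qx ∘ Sum.inr with hx
  obtain ⟨x', h4, h5⟩ := hE.free_copy hA x ((finite_range q).union (finite_range p'))
  have hfree : ∀ t : ι → M, range t ⊆ range q ∪ range p' → Free E A t x' := by
    intro t ht i j hi hj
    have hj' : x j ∉ A := fun hh => hj ((h4.mem_iff j).1 hh)
    obtain ⟨h6, h7⟩ := h5 j hj'
    exact ⟨fun he => h6 (he ▸ ht ⟨i, rfl⟩), fun he => hi (h7 _ (ht ⟨i, rfl⟩) (hE.symm _ _ he))⟩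
  have l1 : Le L E A ζ q x q x' := free_le hE hA (EH.refl q) h4 (hfree q subset_union_left)
  have l2 : Le L E A ζ p x p' x' := free_le hE hA h2 h4 (hfree p' subset_union_right)
  obtain ⟨w', h6⟩ := h3.symm.ext' hE hA x'
  refine ⟨w', ?_, ?_, ?_⟩
  · have e1 : XE L E A w x := h3.of_comp (Sum.inr ∘ Sum.inr) (fun _ => rfl) (fun _ => rfl)
    have e2 : XE L E A x' w' := h6.of_comp Sum.inr (fun _ => rfl) (fun _ => rfl)
    exact (e1.trans h4.xe).trans e2
  · refine ((Le.of_xe hE hA ?_).trans l1).trans (Le.of_xe hE hA ?_)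
    · exact h3.of_comp Sum.inr (by rintro (_ | _) <;> rfl) (by rintro (_ | _) <;> rfl)
    · exact h6.of_comp (Sum.map (Sum.inr ∘ Sum.inl) id) (by rintro (_ | _) <;> rfl)
        (by rintro (_ | _) <;> rfl)
  · refine ((Le.of_xe hE hA ?_).trans l2).trans (Le.of_xe hE hA ?_)
    · exact h3.of_comp (Sum.map Sum.inl Sum.inr) (by rintro (_ | _) <;> rfl)
        (by rintro (_ | _) <;> rfl)
    · exact h6.of_comp (Sum.map (Sum.inl ∘ Sum.inr) id) (by rintro (_ | _) <;> rfl)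
        (by rintro (_ | _) <;> rfl)

theorem Cj.symm {v v' : ι → M} (h : Cj L E A v v') : Cj L E A v' v := by
  obtain ⟨p, p', h1, h2⟩ := h
  exact ⟨p', p, h1.of_comp Sum.swap (by rintro (_ | _) <;> rfl) (by rintro (_ | _) <;> rfl),
    h2.symm⟩

theorem Cj.rtg_symm {v v' : ι → M} (h : Relation.ReflTransGen (Cj L E A) v v') :
    Relation.ReflTransGen (Cj L E A) v' v := by
  induction h with
  | refl => exact Relation.ReflTransGen.refl
  | tail _ h2 ih => exact Relation.ReflTransGen.head h2.symm ih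

theorem good (hE : Hen E n) (hA : A.Finite) [Finite ι] [Finite ω] [Finite ζ]
    {u u' : ι → M} (h : Relation.ReflTransGen (Cj L E A) u u') (w₀ : ω → M) :
    ∃ w : ω → M, XE L E A w₀ w ∧ Le L E A ζ u' w u w := by
  obtain ⟨R, hR, hrep⟩ := EH.finite_reps E hA (ι ⊕ ω)
  obtain ⟨m, hm, hmax⟩ := exists_max_pre (X := (ι → M) × (ω → M))
    (fun s t => Le L E A ζ s.1 s.2 t.1 t.2) (fun _ _ _ h1 h2 => h1.trans h2)
    {s | Relation.ReflTransGen (Cj L E A) u s.1 ∧ XE L E A w₀ s.2}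
    ((fun ρ => (ρ ∘ Sum.inl, ρ ∘ Sum.inr)) '' R) (hR.image _)
    ⟨(u, w₀), Relation.ReflTransGen.refl, XE.refl _⟩ (by
      rintro ⟨v, w⟩ -
      obtain ⟨ρ, hρ, h1⟩ := hrep (Sum.elim v w)
      have h2 : XE L E A (Sum.elim v w) (Sum.elim (ρ ∘ Sum.inl) (ρ ∘ Sum.inr)) :=
        (h1.xe (L := L)).of_comp id (fun _ => rfl) (by rintro (_ | _) <;> rfl)
      exact ⟨_, ⟨ρ, hρ, rfl⟩, Le.of_xe hE hA h2, Le.of_xe hE hA h2.symm⟩)
  let P : (ι → M) → (ω → M) → Prop := fun v w =>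
    Le L E A ζ v w m.1 m.2 ∧ Le L E A ζ m.1 m.2 v w ∧ XE L E A w₀ w
  have chain : ∀ a b b' : ι → M, Relation.ReflTransGen (Cj L E A) u a →
      Relation.ReflTransGen (Cj L E A) u b → Relation.ReflTransGen (Cj L E A) b b' →
      (∃ w, P a w ∧ P b w) → ∃ w, P a w ∧ P b' w := by
    intro a b b' ha hb hbb' h0
    induction hbb' with
    | refl => exact h0
    | @tail c c' hbc hcc' ih =>
      obtain ⟨w, ⟨_, pa2, pa3⟩, ⟨_, pc2, _⟩⟩ := ih
      obtain ⟨w', s1, s2, s3⟩ := step (ζ := ζ) hE hA hcc' a w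
      have t1 := pa2.trans s2
      have t2 := pc2.trans s3
      have t3 := pa3.trans s1
      exact ⟨w', ⟨hmax (a, w') ⟨ha, t3⟩ t1, t1, t3⟩,
        ⟨hmax (c', w') ⟨(hb.trans hbc).tail hcc', t3⟩ t2, t2, t3⟩⟩
  have pm : P m.1 m.2 := ⟨Le.of_xe hE hA (XE.refl _), Le.of_xe hE hA (XE.refl _), hm.2⟩
  obtain ⟨w₁, p1, p2⟩ := chain m.1 m.1 u hm.1 hm.1 (Cj.rtg_symm hm.1) ⟨m.2, pm, pm⟩
  obtain ⟨w₂, p3, p4⟩ := chain u m.1 u' Relation.ReflTransGen.refl hm.1
    ((Cj.rtg_symm hm.1).trans h) ⟨w₁, p2, p1⟩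
  exact ⟨w₂, p3.2.2, p4.1.trans p3.2.1⟩

theorem neumann (hE : Hen E n) (hA : A.Finite) [Finite ζ] (z₀ : ζ → M) :
    ∃ z : ζ → M, XE L E A z₀ z ∧ ∀ s, z s ∈ A → z s ∈ A0 L E A := by
  have : Finite A := hA
  obtain ⟨z, hz, hmin⟩ := (InvImage.wf (fun z : ζ → M => {s | z s ∈ A}.ncard)
    (wellFounded_lt (α := ℕ))).has_min {z : ζ → M | XE L E A z₀ z} ⟨z₀, XE.refl _⟩
  refine ⟨z, hz, fun s hs => ?_⟩
  by_contra hn
  simp only [A0, mem_setOf_eq, not_forall] at hn
  obtain ⟨y, hy, hyA⟩ := hn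
  obtain ⟨β, h1⟩ := hy.symm.ext' hE hA ((↑) : A → M)
  obtain ⟨z₁, h2, h3⟩ := hE.free_copy hA z (finite_range β)
  obtain ⟨z₂, h4⟩ := h1.symm.ext' hE hA z₁
  have h5 : XE L E A z₁ z₂ := h4.of_comp Sum.inr (fun _ => rfl) (fun _ => rfl)
  refine hmin z₂ ((hz.trans h2.xe).trans h5) ?_
  show {t | z₂ t ∈ A}.ncard < {t | z t ∈ A}.ncard
  refine ncard_lt_ncard ⟨fun t ht => ?_, fun hsub => ?_⟩ (toFinite _)
  · by_contra htA
    have e : z₁ t = β ⟨z₂ t, ht⟩ :=
      (h4.eq_iff (Sum.inr t) (Sum.inl (Sum.inr ⟨z₂ t, ht⟩))).2 rfl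
    exact (h3 t htA).1 ⟨_, e.symm⟩
  · have e1 : z₁ s = z s := h2.eq_of_mem hs
    have e2 : z₂ s = y := (h4.eq_iff (Sum.inr s) (Sum.inl (Sum.inl ()))).1 e1
    exact hyA (e2 ▸ hsub hs)

theorem core (hE : Hen E n) (hA : A.Finite) [Finite ι] [Finite ω] [Finite ζ]
    {u u' : ι → M} (h : Relation.ReflTransGen (Cj L E A) u u') (w₀ : ω → M) (z₀ : ζ → M) :
    ∃ (w : ω → M) (z : ζ → M) (u'' : ι → M), XE L E A w₀ w ∧ XE L E A z₀ z ∧
      XE L E A (Sum.elim u w) (Sum.elim u'' w) ∧ XE L E A (Sum.elim u'' z) (Sum.elim u' z) := by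
  obtain ⟨w, hw, hle⟩ := good (ζ := ζ) hE hA h w₀
  obtain ⟨z₁, h1, h2⟩ := neumann (L := L) hE hA z₀
  obtain ⟨z, h3, h4⟩ := hE.free_copy hA z₁ ((finite_range u').union (finite_range w))
  have hd : ∀ s, z s ∈ range u' ∪ range w → z s ∈ A0 L E A := by
    intro s hs
    by_cases hA' : z₁ s ∈ A
    · rw [h3.eq_of_mem hA']
      exact h2 s hA'
    · exact absurd hs (h4 s hA').1
  obtain ⟨z', h5, h6⟩ := hle z (fun s i he => hd s (Or.inl ⟨i, he.symm⟩))
    (fun s i he => hd s (Or.inr ⟨i, he.symm⟩))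
  obtain ⟨u'', h7⟩ := h6.symm.ext' hE hA u
  refine ⟨w, z, u'', hw, h1.trans h3.xe, ?_, XE.trans (b := Sum.elim u z') ?_ h5.symm⟩
  · exact h7.of_comp (Sum.elim Sum.inr (Sum.inl ∘ Sum.inl)) (by rintro (_ | _) <;> rfl)
      (by rintro (_ | _) <;> rfl)
  · exact h7.symm.of_comp (Sum.elim Sum.inr (Sum.inl ∘ Sum.inr)) (by rintro (_ | _) <;> rfl)
      (by rintro (_ | _) <;> rfl)

theorem Cj.inv {v v' t t' : ι → M} (h : Cj L E A v v')
    (he : XE L E A (Sum.elim t t') (Sum.elim v v')) : Cj L E A t t' := by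
  obtain ⟨p, p', h1, h2⟩ := h
  exact ⟨p, p', he.trans h1, h2⟩

theorem Cj.rtg_inv (hE : Hen E n) (hA : A.Finite) [Finite ι] {v v' : ι → M}
    (h : Relation.ReflTransGen (Cj L E A) v v') :
    ∀ t t' : ι → M, XE L E A (Sum.elim v v') (Sum.elim t t') →
      Relation.ReflTransGen (Cj L E A) t t' := by
  induction h with
  | refl =>
    intro t t' he
    have : t = t' := funext fun i => (he.eq_iff (Sum.inl i) (Sum.inr i)).1 rfl
    rw [this]
  | @tail c c' _ h2 ih =>
    intro t t' he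
    obtain ⟨d, hd⟩ := he.ext' hE hA c
    refine (ih t d ?_).tail (h2.inv ?_)
    · exact hd.of_comp (Sum.map Sum.inl id) (by rintro (_ | _) <;> rfl) (by rintro (_ | _) <;> rfl)
    · exact hd.symm.of_comp (Sum.elim Sum.inr (Sum.inl ∘ Sum.inr)) (by rintro (_ | _) <;> rfl)
        (by rintro (_ | _) <;> rfl)

end

end Pool.Agent.Work.MP_11a3f4_lc
end

-- merged part: Pool.Agent.Work.MP_11a3f4_lc.Sat
section
/-! Consequences of saturation. -/

namespace Pool.Agent.Work.MP_11a3f4_lc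

open Set FirstOrder FirstOrder.Language Cardinal

universe u v w

variable {L : FirstOrder.Language.{u, v}} {C : Type w} [L.Structure C]

theorem restrict_vars {α β : Type*} [DecidableEq α] (φ : L.Formula α) (g : β → α)
    (h : ∀ a ∈ φ.freeVarFinset, a ∈ range g) :
    ∃ ψ : L.Formula β, ∀ t : α → C, φ.Realize t ↔ ψ.Realize (t ∘ g) := by
  choose f hf using h
  refine ⟨φ.restrictFreeVar (fun a => f a.1 a.2), fun t => ?_⟩
  exact (BoundedFormula.realize_restrictFreeVar t (fun a => by simp [hf])).symm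

theorem realize_congr_vars {α : Type*} [DecidableEq α] (φ : L.Formula α) {t t' : α → C}
    (h : ∀ a ∈ φ.freeVarFinset, t a = t' a) : φ.Realize t ↔ φ.Realize t' := by
  obtain ⟨ψ, hψ⟩ := restrict_vars (C := C) φ ((↑) : φ.freeVarFinset → α)
    (fun a ha => ⟨⟨a, ha⟩, rfl⟩)
  rw [hψ t, hψ t']
  have : t ∘ ((↑) : φ.freeVarFinset → α) = t' ∘ (↑) := funext fun a => h a.1 a.2
  rw [this]

/-- Finite satisfiability of `p` together with the assignments in `G`. -/
def GoodAsg {V J : Type*} (p : J → L.Formula V) (G : Set (V × C)) : Prop :=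
  ∀ J₀ : Set J, J₀.Finite → ∀ F ⊆ G, F.Finite →
    ∃ t : V → C, (∀ g ∈ F, t g.1 = g.2) ∧ ∀ j ∈ J₀, (p j).Realize t

theorem definable_proj {V J : Type*} (p : J → L.Formula V) {B : Set C} {J₀ : Set J}
    (hJ : J₀.Finite) {F : Set (V × C)} (hF : F.Finite) (hB : ∀ g ∈ F, g.2 ∈ B) (v : V) :
    B.Definable₁ L {x | ∃ t : V → C, (∀ g ∈ F, t g.1 = g.2) ∧ (∀ j ∈ J₀, (p j).Realize t) ∧
      t v = x} := by
  classical
  have : Finite J₀ := hJ
  have : Finite F := hF
  let W : Set V := insert v (Prod.fst '' F ∪ ⋃ j ∈ J₀, ((p j).freeVarFinset : Set V))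
  have hW : W.Finite := ((hF.image _).union (hJ.biUnion fun j _ => Finset.finite_toSet _)).insert v
  have : Finite W := hW
  have h1 : ∀ j : J₀, ∃ ψ : L.Formula W, ∀ t : V → C, (p j).Realize t ↔ ψ.Realize (t ∘ (↑)) :=
    fun j => restrict_vars (p j) ((↑) : W → V) (fun a ha =>
      ⟨⟨a, Or.inr (Or.inr (mem_biUnion j.2 (Finset.mem_coe.2 ha)))⟩, rfl⟩)
  choose ψ hψ using h1
  let Φ : L.Formula ((B ⊕ Fin 1) ⊕ W) :=
    (Formula.iInf fun g : F => (Term.var (Sum.inr ⟨g.1.1, Or.inr (Or.inl ⟨g.1, g.2, rfl⟩)⟩)).equal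
      (Term.var (Sum.inl (Sum.inl ⟨g.1.2, hB g.1 g.2⟩)))) ⊓
    ((Formula.iInf fun j : J₀ => (ψ j).relabel Sum.inr) ⊓
      (Term.var (Sum.inr ⟨v, Or.inl rfl⟩)).equal (Term.var (Sum.inl (Sum.inr 0))))
  rw [Definable₁, definable_iff_exists_formula_sum]
  refine ⟨Φ.iExs W, ?_⟩
  ext x
  simp only [mem_ofPred_eq, Formula.realize_iExs, Φ, Formula.realize_inf, Formula.realize_iInf,
    Formula.realize_equal, Term.realize_var, Formula.realize_relabel, Sum.elim_inl, Sum.elim_inr,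
    Sum.elim_comp_inr]
  constructor
  · rintro ⟨t, h1, h2, h3⟩
    exact ⟨t ∘ (↑), fun g => h1 g.1 g.2, fun j => (hψ j t).1 (h2 j.1 j.2), h3⟩
  · rintro ⟨s, h1, h2, h3⟩
    let t : V → C := Function.extend ((↑) : W → V) s (fun _ => x 0)
    have ht : t ∘ ((↑) : W → V) = s := Function.extend_comp Subtype.val_injective _ _
    have ht' : ∀ a : W, t a.1 = s a := fun a => congrFun ht a
    refine ⟨t, fun g hg => ?_, fun j hj => ?_, ?_⟩
    · exact (ht' ⟨g.1, Or.inr (Or.inl ⟨g, hg, rfl⟩)⟩).trans (h1 ⟨g, hg⟩)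
    · rw [hψ ⟨j, hj⟩ t, ht]
      exact h2 ⟨j, hj⟩
    · exact (ht' ⟨v, Or.inl rfl⟩).trans h3

theorem Saturated.realize {κ : Cardinal.{w}} (hC : Saturated L C κ) {V : Type w} (hV : #V < κ)
    {J : Type*} (p : J → L.Formula V) {G₀ : Set (V × C)} (h₀ : GoodAsg p G₀) :
    ∃ t : V → C, (∀ g ∈ G₀, t g.1 = g.2) ∧ ∀ j, (p j).Realize t := by
  classical
  obtain ⟨G, hG₀, hmax⟩ := zorn_subset_nonempty {G : Set (V × C) | GoodAsg p G} (by
    intro c hc hchain hne
    refine ⟨⋃₀ c, ?_, fun s hs => subset_sUnion_of_mem hs⟩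
    intro J₀ hJ F hF hFfin
    obtain ⟨s, hs, hsub⟩ := DirectedOn.exists_mem_subset_of_finset_subset_biUnion
      (f := fun s : Set (V × C) => s) hne hchain.directedOn (s := hFfin.toFinset)
      (by rw [Finite.coe_toFinset, ← sUnion_eq_biUnion]; exact hF)
    rw [Finite.coe_toFinset] at hsub
    exact hc hs J₀ hJ F hsub hFfin) G₀ h₀
  have hG : GoodAsg p G := hmax.prop
  have hfun : ∀ g ∈ G, ∀ g' ∈ G, g.1 = g'.1 → g = g' := by
    intro g hg g' hg' he
    obtain ⟨t, ht, -⟩ := hG ∅ finite_empty {g, g'} (insert_subset hg (singleton_subset_iff.2 hg'))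
      (toFinite _)
    have e1 := ht g (mem_insert _ _)
    have e2 := ht g' (mem_insert_of_mem _ rfl)
    exact Prod.ext he (by rw [← e1, ← e2, he])
  have hB : #(Prod.snd '' G) < κ := by
    refine lt_of_le_of_lt (mk_image_le.trans ?_) hV
    exact mk_le_of_injective (f := fun g : G => g.1.1)
      (fun g g' he => Subtype.ext (hfun g.1 g.2 g'.1 g'.2 he))
  have htot : ∀ v : V, ∃ x, (v, x) ∈ G := by
    intro v
    let X : Set J → Set (V × C) → Set C := fun J₀ F =>
      {x | ∃ t : V → C, (∀ g ∈ F, t g.1 = g.2) ∧ (∀ j ∈ J₀, (p j).Realize t) ∧ t v = x}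
    obtain ⟨x, hx⟩ := hC _ hB {D | ∃ J₀ F, J₀.Finite ∧ F ⊆ G ∧ F.Finite ∧ D = X J₀ F} (by
      rintro D ⟨J₀, F, hJ, hF, hFfin, rfl⟩
      exact definable_proj p hJ hFfin (fun g hg => mem_image_of_mem _ (hF hg)) v) (by
      intro q hq hqfin
      have hq' : ∀ D ∈ q, ∃ (J₀ : Set J) (F : Set (V × C)),
          J₀.Finite ∧ F ⊆ G ∧ F.Finite ∧ D = X J₀ F := fun D hD => hq hD
      choose! J₁ F₁ h1 h2 h3 h4 using hq'
      obtain ⟨t, ht1, ht2⟩ := hG (⋃ D ∈ q, J₁ D) (hqfin.biUnion fun D hD => h1 D hD)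
        (⋃ D ∈ q, F₁ D) (iUnion₂_subset fun D hD => h2 D hD) (hqfin.biUnion fun D hD => h3 D hD)
      refine ⟨t v, fun D hD => ?_⟩
      rw [h4 D hD]
      exact ⟨t, fun g hg => ht1 g (mem_biUnion hD hg), fun j hj => ht2 j (mem_biUnion hD hj), rfl⟩)
    have hgood : GoodAsg p (insert (v, x) G) := by
      intro J₀ hJ F hF hFfin
      obtain ⟨t, h1, h2, h3⟩ := hx (X J₀ (F ∩ G))
        ⟨J₀, F ∩ G, hJ, inter_subset_right, hFfin.inter_of_left _, rfl⟩
      refine ⟨t, fun g hg => ?_, h2⟩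
      rcases hF hg with rfl | hg'
      · exact h3
      · exact h1 g ⟨hg, hg'⟩
    exact ⟨x, hmax.le_of_ge hgood (subset_insert _ _) (mem_insert _ _)⟩
  choose t ht using htot
  refine ⟨t, fun g hg => ?_, fun j => ?_⟩
  · exact congrArg Prod.snd (hfun _ (ht g.1) g (hG₀ hg) rfl)
  · obtain ⟨t', h1, h2⟩ := hG {j} (finite_singleton j)
      ((fun a => (a, t a)) '' ((p j).freeVarFinset : Set V))
      (by rintro _ ⟨a, -, rfl⟩; exact ht a) ((Finset.finite_toSet _).image _)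
    refine (realize_congr_vars (p j) fun a ha => ?_).1 (h2 j rfl)
    exact h1 (a, t a) ⟨a, ha, rfl⟩

/-- A tuple with the type of an enumeration of an elementary substructure enumerates one. -/
theorem exists_elem_range (S : L.ElementarySubstructure C) (w : S → C)
    (hw : ∀ ψ : L.Formula S, ψ.Realize w ↔ ψ.Realize ((↑) : S → C)) :
    ∃ S' : L.ElementarySubstructure C, (S' : Set C) = range w := by
  have hS : ∀ {α : Type w} (ψ : L.Formula α) (x : α → S),
      ψ.Realize (((↑) : S → C) ∘ x) ↔ ψ.Realize x := fun ψ x => S.subtype.map_formula ψ x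
  have hm : L.MeetsDefinable (range w) := by
    rintro D ⟨x, hx⟩ hD
    rw [Definable₁, definable_iff_exists_formula_sum] at hD
    obtain ⟨φ, hφ⟩ := hD
    have hφ' : ∀ y : Fin 1 → C, y 0 ∈ D ↔ φ.Realize (Sum.elim (↑) y) :=
      fun y => Set.ext_iff.1 hφ y
    let π : range w → S := fun c => c.2.choose
    have hπ : ∀ c, w (π c) = c.1 := fun c => c.2.choose_spec
    let ψ : L.Formula (S ⊕ Fin 1) := φ.relabel (Sum.map π id)
    have hψ : ∀ y : Fin 1 → C, ψ.Realize (Sum.elim w y) ↔ y 0 ∈ D := by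
      intro y
      rw [hφ' y, Formula.realize_relabel]
      have : Sum.elim w y ∘ Sum.map π id = Sum.elim (↑) y := by
        funext a
        rcases a with a | a
        · exact hπ a
        · rfl
      rw [this]
    have h1 : (ψ.iExs (Fin 1)).Realize w := by
      rw [Formula.realize_iExs]
      exact ⟨fun _ => x, (hψ _).2 hx⟩
    have h2 : (ψ.iExs (Fin 1)).Realize (id : S → S) := (hS _ id).1 ((hw _).1 h1)
    rw [Formula.realize_iExs] at h2
    obtain ⟨y, hy⟩ := h2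
    have h3 : (ψ.relabel (Sum.elim id y)).Realize (id : S → S) := by
      rw [Formula.realize_relabel]
      exact hy
    have h4 := (hw _).2 ((hS _ id).2 h3)
    rw [Formula.realize_relabel] at h4
    have e : w ∘ Sum.elim id y = Sum.elim w (w ∘ y) := by
      funext a
      rcases a with a | a <;> rfl
    rw [e] at h4
    exact ⟨w (y 0), (hψ _).1 h4, ⟨y 0, rfl⟩⟩
  exact ⟨hm.toElementarySubstructure, hm.closure_eq_self⟩

theorem exists_small_elem [Nonempty C] {κ : Cardinal.{w}} (h0 : ℵ₀ < κ)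
    (h1 : Cardinal.lift.{w} L.card < Cardinal.lift.{max u v} κ) :
    ∃ S : L.ElementarySubstructure C, #S < κ := by
  refine ⟨Substructure.elementarySkolem₁Reduct (Substructure.closure (L.sum L.skolem₁) ∅), ?_⟩
  rw [Substructure.coeSort_elementarySkolem₁Reduct, ← Cardinal.lift_lt.{w, max u v}]
  refine lt_of_le_of_lt Substructure.lift_card_closure_le ?_
  have h0' : ℵ₀ < Cardinal.lift.{max u v} κ := by simpa using h0
  refine max_lt h0' ?_
  simp only [mk_eq_zero, lift_zero, zero_add]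
  refine lt_of_le_of_lt (Cardinal.lift_le.2 card_functions_sum_skolem₁_le) ?_
  rw [lift_max, lift_aleph0]
  exact max_lt h0' h1

end Pool.Agent.Work.MP_11a3f4_lc
end

-- merged part: Pool.Agent.Work.MP_11a3f4_lc.Main
section
/-! Transfer to the saturated model and the compactness argument. -/

namespace Pool.Agent.Work.MP_11a3f4_lc

open Set FirstOrder FirstOrder.Language Cardinal

universe u v w

variable {L : FirstOrder.Language.{u, v}} {M : Type*} [L.Structure M] {C : Type w} [L.Structure C]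
variable {E : M → M → Prop} {A : Set M} {n : ℕ}

/-- Every copy in `M` of the pair `y, y'` is joined by a chain. -/
def LiftE (L : FirstOrder.Language.{u, v}) [L.Structure M] [L.Structure C] (E : M → M → Prop)
    (A : Set M) {ι : Type*} (y y' : ι → C) : Prop :=
  ∀ t t' : ι → M, XE L E A (Sum.elim y y') (Sum.elim t t') →
    Relation.ReflTransGen (Cj L E A) t t'

theorem LiftE.refl {ι : Type*} (y : ι → C) : LiftE L E A y y := by
  intro t t' he
  have : t = t' := funext fun i => (he.eq_iff (Sum.inl i) (Sum.inr i)).1 rfl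
  rw [this]

theorem LiftE.trans (hE : Hen E n) (hA : A.Finite) (hC : M ≅[L] C) {ι : Type*} [Finite ι]
    {y y' y'' : ι → C} (h : LiftE L E A y y') (h' : LiftE L E A y' y'') : LiftE L E A y y'' := by
  intro t t'' he
  obtain ⟨t', ht⟩ := he.extend hE hA hC rfl y'
  refine (h t t' ?_).trans (h' t' t'' ?_)
  · exact ht.of_comp (Sum.map Sum.inl id) (by rintro (_ | _) <;> rfl) (by rintro (_ | _) <;> rfl)
  · exact ht.of_comp (Sum.elim Sum.inr (Sum.inl ∘ Sum.inr)) (by rintro (_ | _) <;> rfl)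
      (by rintro (_ | _) <;> rfl)

theorem SameType.realize {B : Set C} {ι : Type w} {a b : ι → C} (h : SameType L B a b)
    {α : Type*} (φ : L.Formula α) (g : α → B ⊕ ι) :
    φ.Realize (Sum.elim (↑) a ∘ g) ↔ φ.Realize (Sum.elim (↑) b ∘ g) := by
  have := h _ (definable_iff_exists_formula_sum.2 ⟨φ.relabel g, rfl⟩)
  simpa only [mem_ofPred_eq, Formula.realize_relabel] using this

theorem LiftE.of_sameType (hE : Hen E n) (hA : A.Finite) (hC : M ≅[L] C)
    (S : L.ElementarySubstructure C) {ι : Type w} {a b : ι → C} (h : SameType L (S : Set C) a b)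
    {ι₀ : Type*} [Finite ι₀] (f : ι₀ → ι) : LiftE L E A (a ∘ f) (b ∘ f) := by
  intro u u' hu
  obtain ⟨R, hR, hrep⟩ := EH.finite_reps E hA ι₀
  have : Finite R := hR
  let v : R × ι₀ → M := fun p => p.1.1 p.2
  obtain ⟨m, hm⟩ := XE.realize (L := L) hE hA rfl (hC.trans S.elementarilyEquivalent.symm) v
  have hm' : XE L E A (((↑) : S → C) ∘ m) v := fun φ hφ =>
    (S.subtype.map_formula φ m).trans (hm φ hφ).symm
  obtain ⟨tt, ht⟩ := hm'.extend hE hA hC rfl (Sum.elim (a ∘ f) (b ∘ f))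
  have hab : XE L E A (Sum.elim (a ∘ f) (((↑) : S → C) ∘ m))
      (Sum.elim (b ∘ f) (((↑) : S → C) ∘ m)) := by
    intro φ _
    let g : ι₀ ⊕ (R × ι₀) → (S : Set C) ⊕ ι :=
      Sum.elim (Sum.inr ∘ f) (fun p => Sum.inl (Subtype.mk (m p).1 (m p).2))
    have := h.realize φ g
    have e : ∀ c : ι → C, Sum.elim (Subtype.val : ((S : Set C) : Type w) → C) c ∘ g =
        Sum.elim (c ∘ f) (((↑) : S → C) ∘ m) := by
      intro c
      funext k
      rcases k with k | k <;> rfl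
    rw [e, e] at this
    exact this
  set t : ι₀ → M := tt ∘ Sum.inl
  set t' : ι₀ → M := tt ∘ Sum.inr
  obtain ⟨r, hr, htr⟩ := hrep t
  have c1 : Cj L E A t r := ⟨t, r, XE.refl _, htr⟩
  have e1 : XE L E A (Sum.elim t' v) (Sum.elim (b ∘ f) (((↑) : S → C) ∘ m)) :=
    ht.symm.of_comp (Sum.elim (Sum.inr ∘ Sum.inr) Sum.inl) (by rintro (_ | _) <;> rfl)
      (by rintro (_ | _) <;> rfl)
  have e2 : XE L E A (Sum.elim (a ∘ f) (((↑) : S → C) ∘ m)) (Sum.elim t v) :=
    ht.of_comp (Sum.elim (Sum.inr ∘ Sum.inl) Sum.inl) (by rintro (_ | _) <;> rfl)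
      (by rintro (_ | _) <;> rfl)
  have c2 : Cj L E A t' r := c1.inv (((e1.trans hab.symm).trans e2).of_comp
    (Sum.map id fun i => (⟨r, hr⟩, i)) (by rintro (_ | _) <;> rfl) (by rintro (_ | _) <;> rfl))
  have c3 : Relation.ReflTransGen (Cj L E A) t t' :=
    (Relation.ReflTransGen.single c1).tail c2.symm
  refine Cj.rtg_inv hE hA c3 u u' (XE.trans (b := Sum.elim (a ∘ f) (b ∘ f)) ?_ hu)
  exact ht.symm.of_comp Sum.inr (by rintro (_ | _) <;> rfl) (by rintro (_ | _) <;> rfl)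

theorem LiftE.of_lascar (hE : Hen E n) (hA : A.Finite) (hC : M ≅[L] C) {κ : Cardinal.{w}}
    {ι : Type w} {a b : ι → C} {m : ℕ} (h : LascarLe L κ m a b)
    {ι₀ : Type*} [Finite ι₀] (f : ι₀ → ι) : LiftE L E A (a ∘ f) (b ∘ f) := by
  obtain ⟨c, S, rfl, rfl, hc⟩ := h
  have : ∀ i : Fin (m + 1), LiftE L E A (c 0 ∘ f) (c i ∘ f) := by
    intro i
    induction i using Fin.induction with
    | zero => exact LiftE.refl _
    | succ i ih => exact ih.trans hE hA hC (LiftE.of_sameType hE hA hC (S i) (hc i).2 f)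
  exact this _

theorem core_lift (hE : Hen E n) (hA : A.Finite) (hC : M ≅[L] C) {ι ω : Type*} [Finite ι]
    [Finite ω] {y y' : ι → C} (h : LiftE L E A y y') (m : ω → C) :
    ∃ (W Z : ω → C) (Y : ι → C), XE L E A m W ∧ XE L E A m Z ∧
      XE L E A (Sum.elim y W) (Sum.elim Y W) ∧ XE L E A (Sum.elim Y Z) (Sum.elim y' Z) := by
  obtain ⟨uu, hu⟩ := cover (E := E) hA hC (Sum.elim y y')
  have hu' : XE L E A (Sum.elim y y') (Sum.elim (uu ∘ Sum.inl) (uu ∘ Sum.inr)) :=
    hu.of_comp id (fun _ => rfl) (by rintro (_ | _) <;> rfl)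
  obtain ⟨w₀, hw₀⟩ := cover (E := E) hA hC m
  obtain ⟨w, z, u'', h1, h2, h3, h4⟩ := core hE hA (h _ _ hu') w₀ w₀
  obtain ⟨T, hT⟩ := hu'.symm.extend hE hA rfl hC (Sum.elim (Sum.elim w z) u'')
  refine ⟨T ∘ Sum.inl ∘ Sum.inl, T ∘ Sum.inl ∘ Sum.inr, T ∘ Sum.inr, ?_, ?_, ?_, ?_⟩
  · exact (hw₀.trans h1).trans (hT.of_comp (Sum.inr ∘ Sum.inl ∘ Sum.inl) (fun _ => rfl)
      (fun _ => rfl))
  · exact (hw₀.trans h2).trans (hT.of_comp (Sum.inr ∘ Sum.inl ∘ Sum.inr) (fun _ => rfl)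
      (fun _ => rfl))
  · refine XE.trans (XE.trans ?_ h3) ?_
    · exact hT.symm.of_comp (Sum.elim (Sum.inl ∘ Sum.inl) (Sum.inr ∘ Sum.inl ∘ Sum.inl))
        (by rintro (_ | _) <;> rfl) (by rintro (_ | _) <;> rfl)
    · exact hT.of_comp (Sum.elim (Sum.inr ∘ Sum.inr) (Sum.inr ∘ Sum.inl ∘ Sum.inl))
        (by rintro (_ | _) <;> rfl) (by rintro (_ | _) <;> rfl)
  · refine XE.trans (XE.trans ?_ h4) ?_
    · exact hT.symm.of_comp (Sum.elim (Sum.inr ∘ Sum.inr) (Sum.inr ∘ Sum.inl ∘ Sum.inr))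
        (by rintro (_ | _) <;> rfl) (by rintro (_ | _) <;> rfl)
    · exact hT.of_comp (Sum.elim (Sum.inl ∘ Sum.inr) (Sum.inr ∘ Sum.inl ∘ Sum.inr))
        (by rintro (_ | _) <;> rfl) (by rintro (_ | _) <;> rfl)

theorem two_steps (hE : Hen E n) (hC : M ≅[L] C)
    (hinv : ∀ {α : Type w} [Finite α] (φ : L.Formula α), ∃ A' ⊆ A, A'.Finite ∧ Inv E A' φ)
    {κ : Cardinal.{w}} (h0 : ℵ₀ < κ) (hsat : Saturated L C κ) {ι : Type w} (hι : #ι < κ)
    {a b : ι → C} {m : ℕ} (h : LascarLe L κ m a b) (S : L.ElementarySubstructure C)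
    (hS : #S < κ) :
    ∃ (y : ι → C) (w z : S → C),
      (∀ ψ : L.Formula S, ψ.Realize w ↔ ψ.Realize ((↑) : S → C)) ∧
      (∀ ψ : L.Formula S, ψ.Realize z ↔ ψ.Realize ((↑) : S → C)) ∧
      (∀ φ : L.Formula (ι ⊕ S), φ.Realize (Sum.elim a w) ↔ φ.Realize (Sum.elim y w)) ∧
      (∀ φ : L.Formula (ι ⊕ S), φ.Realize (Sum.elim y z) ↔ φ.Realize (Sum.elim b z)) := by
  classical
  let V : Type w := ((ι ⊕ ι) ⊕ S) ⊕ (ι ⊕ (S ⊕ S))
  have hV : #V < κ := by
    simp only [V, mk_sum, lift_id]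
    exact add_lt_of_lt h0.le (add_lt_of_lt h0.le (add_lt_of_lt h0.le hι hι) hS)
      (add_lt_of_lt h0.le hι (add_lt_of_lt h0.le hS hS))
  let va : ι → V := fun i => Sum.inl (Sum.inl (Sum.inl i))
  let vb : ι → V := fun i => Sum.inl (Sum.inl (Sum.inr i))
  let vm : S → V := fun s => Sum.inl (Sum.inr s)
  let vy : ι → V := fun i => Sum.inr (Sum.inl i)
  let vw : S → V := fun s => Sum.inr (Sum.inr (Sum.inl s))
  let vz : S → V := fun s => Sum.inr (Sum.inr (Sum.inr s))
  let p : L.Formula (ι ⊕ S) × L.Formula S → L.Formula V := fun j =>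
    (((j.2.relabel vw).iff (j.2.relabel vm)) ⊓ ((j.2.relabel vz).iff (j.2.relabel vm))) ⊓
    (((j.1.relabel (Sum.elim va vw)).iff (j.1.relabel (Sum.elim vy vw))) ⊓
      ((j.1.relabel (Sum.elim vy vz)).iff (j.1.relabel (Sum.elim vb vz))))
  let base : (ι ⊕ ι) ⊕ S → C := Sum.elim (Sum.elim a b) (↑)
  have hp : ∀ (t : V → C), (∀ k, t (Sum.inl k) = base k) → ∀ j, (p j).Realize t ↔
      ((j.2.Realize (t ∘ vw) ↔ j.2.Realize ((↑) : S → C)) ∧
        (j.2.Realize (t ∘ vz) ↔ j.2.Realize ((↑) : S → C))) ∧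
      ((j.1.Realize (Sum.elim a (t ∘ vw)) ↔ j.1.Realize (Sum.elim (t ∘ vy) (t ∘ vw))) ∧
        (j.1.Realize (Sum.elim (t ∘ vy) (t ∘ vz)) ↔ j.1.Realize (Sum.elim b (t ∘ vz)))) := by
    intro t ht j
    have ea : t ∘ va = a := funext fun i => ht _
    have eb : t ∘ vb = b := funext fun i => ht _
    have em : t ∘ vm = (↑) := funext fun i => ht _
    simp only [p, Formula.realize_inf, Formula.realize_iff, Formula.realize_relabel,
      Sum.comp_elim, ea, eb, em]
  obtain ⟨t, ht1, ht2⟩ := hsat.realize hV p (G₀ := range fun k => (Sum.inl k, base k)) (by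
    intro J₀ hJ F hF _
    have : Finite J₀ := hJ
    let ι₀ : Set ι := ⋃ j ∈ J₀, Sum.inl ⁻¹' ((j.1.freeVarFinset : Finset (ι ⊕ S)) : Set (ι ⊕ S))
    let s₀ : Set S := ⋃ j ∈ J₀, (Sum.inr ⁻¹' ((j.1.freeVarFinset : Finset (ι ⊕ S)) : Set (ι ⊕ S)) ∪
      ((j.2.freeVarFinset : Finset S) : Set S))
    have : Finite ι₀ := hJ.biUnion fun j _ =>
      (Finset.finite_toSet _).preimage Sum.inl_injective.injOn
    have : Finite s₀ := hJ.biUnion fun j _ =>
      ((Finset.finite_toSet _).preimage Sum.inr_injective.injOn).union (Finset.finite_toSet _)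
    have h1 : ∀ j : J₀, ∃ φ' : L.Formula (ι₀ ⊕ s₀), ∀ t : ι ⊕ S → C,
        j.1.1.Realize t ↔ φ'.Realize (t ∘ Sum.map ((↑) : ι₀ → ι) ((↑) : s₀ → S)) := fun j =>
      restrict_vars j.1.1 (Sum.map ((↑) : ι₀ → ι) ((↑) : s₀ → S)) (by
        rintro (i | s) hi
        · exact ⟨Sum.inl ⟨i, mem_biUnion j.2 (Finset.mem_coe.2 hi)⟩, rfl⟩
        · exact ⟨Sum.inr ⟨s, mem_biUnion j.2 (Or.inl (Finset.mem_coe.2 hi))⟩, rfl⟩)
    have h2 : ∀ j : J₀, ∃ ψ' : L.Formula s₀, ∀ t : S → C,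
        j.1.2.Realize t ↔ ψ'.Realize (t ∘ ((↑) : s₀ → S)) := fun j =>
      restrict_vars j.1.2 ((↑) : s₀ → S) (fun s hs =>
        ⟨⟨s, mem_biUnion j.2 (Or.inr (Finset.mem_coe.2 hs))⟩, rfl⟩)
    choose φ' hφ' using h1
    choose ψ' hψ' using h2
    choose A₁ hA₁ using fun j => hinv (φ' j)
    choose A₂ hA₂ using fun j => hinv (ψ' j)
    let A' : Set M := ⋃ j, (A₁ j ∪ A₂ j)
    have hA' : A'.Finite := finite_iUnion fun j => (hA₁ j).2.1.union (hA₂ j).2.1
    have i1 : ∀ j, Inv E A' (φ' j) := fun j =>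
      (hA₁ j).2.2.mono (subset_union_left.trans (subset_iUnion (fun j => A₁ j ∪ A₂ j) j))
    have i2 : ∀ j, Inv E A' (ψ' j) := fun j =>
      (hA₂ j).2.2.mono (subset_union_right.trans (subset_iUnion (fun j => A₁ j ∪ A₂ j) j))
    obtain ⟨W, Z, Y, x1, x2, x3, x4⟩ := core_lift hE hA' hC
      (LiftE.of_lascar hE hA' hC h ((↑) : ι₀ → ι)) (((↑) : S → C) ∘ ((↑) : s₀ → S))
    let Y' : ι → C := Function.extend ((↑) : ι₀ → ι) Y a
    let W' : S → C := Function.extend ((↑) : s₀ → S) W (↑)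
    let Z' : S → C := Function.extend ((↑) : s₀ → S) Z (↑)
    have eY : Y' ∘ ((↑) : ι₀ → ι) = Y := Function.extend_comp Subtype.val_injective _ _
    have eW : W' ∘ ((↑) : s₀ → S) = W := Function.extend_comp Subtype.val_injective _ _
    have eZ : Z' ∘ ((↑) : s₀ → S) = Z := Function.extend_comp Subtype.val_injective _ _
    let t : V → C := Sum.elim base (Sum.elim Y' (Sum.elim W' Z'))
    refine ⟨t, fun g hg => ?_, fun j hj => ?_⟩
    · obtain ⟨k, rfl⟩ := hF hg
      rfl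
    · rw [hp t (fun _ => rfl)]
      have e1 : t ∘ vw = W' := rfl
      have e2 : t ∘ vz = Z' := rfl
      have e3 : t ∘ vy = Y' := rfl
      rw [e1, e2, e3]
      have k1 := hφ' ⟨j, hj⟩
      have k2 := hψ' ⟨j, hj⟩
      simp only at k1 k2
      simp only [k1, k2, Sum.elim_comp_map, eY, eW, eZ]
      exact ⟨⟨(x1 _ (i2 _)).symm, (x2 _ (i2 _)).symm⟩, x3 _ (i1 _), x4 _ (i1 _)⟩)
  have ht : ∀ k, t (Sum.inl k) = base k := fun k => ht1 _ ⟨k, rfl⟩
  exact ⟨t ∘ vy, t ∘ vw, t ∘ vz, fun ψ => ((hp t ht (⊤, ψ)).1 (ht2 _)).1.1,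
    fun ψ => ((hp t ht (⊤, ψ)).1 (ht2 _)).1.2, fun φ => ((hp t ht (φ, ⊤)).1 (ht2 _)).2.1,
    fun φ => ((hp t ht (φ, ⊤)).1 (ht2 _)).2.2⟩

theorem sameType_of_range {ι σ : Type w} {a b : ι → C} {w : σ → C}
    (h : ∀ φ : L.Formula (ι ⊕ σ), φ.Realize (Sum.elim a w) ↔ φ.Realize (Sum.elim b w)) :
    SameType L (range w) a b := by
  intro D hD
  obtain ⟨φ, rfl⟩ := definable_iff_exists_formula_sum.1 hD
  let π : range w → σ := fun c => c.2.choose
  have hπ : ∀ c, w (π c) = c.1 := fun c => c.2.choose_spec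
  have := h (φ.relabel (Sum.elim (Sum.inr ∘ π) Sum.inl))
  have e : ∀ c : ι → C, Sum.elim c w ∘ Sum.elim (Sum.inr ∘ π) Sum.inl = Sum.elim (↑) c := by
    intro c
    funext k
    rcases k with k | k
    · exact hπ k
    · rfl
  simpa only [Formula.realize_relabel, e, mem_ofPred_eq] using this

theorem lascar_two [Nonempty C] (hE : Hen E n) (hC : M ≅[L] C)
    (hinv : ∀ {α : Type w} [Finite α] (φ : L.Formula α), ∃ A' ⊆ A, A'.Finite ∧ Inv E A' φ)
    {κ : Cardinal.{w}} (h0 : ℵ₀ < κ)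
    (h1 : Cardinal.lift.{w} L.card < Cardinal.lift.{max u v} κ) (hsat : Saturated L C κ)
    {ι : Type w} (hι : #ι < κ) {a b : ι → C} {m : ℕ} (h : LascarLe L κ m a b) :
    LascarLe L κ 2 a b := by
  obtain ⟨S, hS⟩ := exists_small_elem (L := L) (C := C) h0 h1
  obtain ⟨y, w, z, h2, h3, h4, h5⟩ := two_steps hE hC hinv h0 hsat hι h S hS
  obtain ⟨S₁, e1⟩ := exists_elem_range S w h2
  obtain ⟨S₂, e2⟩ := exists_elem_range S z h3
  have c1 : #S₁ < κ := by
    have : #(S₁ : Set C) < κ := e1 ▸ lt_of_le_of_lt mk_range_le hS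
    exact this
  have c2 : #S₂ < κ := by
    have : #(S₂ : Set C) < κ := e2 ▸ lt_of_le_of_lt mk_range_le hS
    exact this
  refine ⟨![a, y, b], ![S₁, S₂], rfl, rfl, ?_⟩
  intro i
  fin_cases i
  · refine ⟨c1, ?_⟩
    show SameType L (S₁ : Set C) a y
    rw [e1]
    exact sameType_of_range h4
  · refine ⟨c2, ?_⟩
    show SameType L (S₂ : Set C) y b
    rw [e2]
    exact sameType_of_range h5

end Pool.Agent.Work.MP_11a3f4_lc
end
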